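import Pool.Agent.Run7.h823.BK9

/-!
# Exponential sums over families of vectors which are stable under a small group of scalars with weights
-/

set_option autoImplicit false
open Finset

namespace Pool.Agent.Run7.h823.BK

/-- all numbers of monomials up to `r` -/
theorem monomials' (r : ℕ) {δ : ℝ} (hδ : 0 < δ) : ∃ ε : ℝ, 0 < ε ∧ ∃ P0 : ℕ,
    ∀ (p : ℕ) [Fact p.Prime], P0 ≤ p → ∀ (H : Subgroup (ZMod p)ˣ) (s : Finset (ZMod p)ˣ),
    (∀ h, h ∈ s ↔ h ∈ H) → ∀ W : Finset ℤ, W.card ≤ r →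
    (∀ d ∈ W, (p : ℝ) ^ δ * Int.gcd d s.card ≤ s.card) →
    (∀ d ∈ W, ∀ d' ∈ W, d ≠ d' → (p : ℝ) ^ δ * Int.gcd (d - d') s.card ≤ s.card) →
    ∀ a : ℤ → ZMod p, (∃ d ∈ W, a d ≠ 0) →
    ‖∑ h ∈ s, (ZMod.stdAddChar (∑ d ∈ W, a d * ((h ^ d : (ZMod p)ˣ) : ZMod p)) : ℂ)‖ ≤
      s.card * (p : ℝ) ^ (-ε) := by
  classical
  choose ε hε P0 h using fun k : ℕ => monomials k hδ
  obtain ⟨e, he0, he⟩ : ∃ e : ℝ, 0 < e ∧ ∀ k ∈ range (r + 1), e ≤ ε k := by
    refine ⟨(range (r + 1)).inf' ⟨0, by simp⟩ ε, ?_, fun k hk => Finset.inf'_le _ hk⟩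
    rw [Finset.lt_inf'_iff]
    exact fun k _ => hε k
  refine ⟨e, he0, ∑ k ∈ range (r + 1), P0 k, ?_⟩
  intro p hp hpP H s hs W hW h1 h2 a ha
  have hk : W.card ∈ range (r + 1) := by rw [mem_range]; omega
  have hP : P0 W.card ≤ p := (Finset.single_le_sum (fun _ _ => Nat.zero_le _) hk).trans hpP
  set E := W.equivFin with hE
  have h3 := h W.card p hP H s hs (fun _ => 1) (fun m => ((E.symm m : W) : ℤ))
    (fun j => h1 _ (E.symm j).2) (fun i j hij => h2 _ (E.symm i).2 _ (E.symm j).2 (by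
      intro h4
      exact hij (E.symm.injective (Subtype.ext h4)))) (fun m => a ((E.symm m : W) : ℤ)) (by
      obtain ⟨d, hd, hd0⟩ := ha
      intro h4
      apply hd0
      have h5 := congrFun h4 (E ⟨d, hd⟩)
      simpa using h5)
  have hp1 : (1 : ℝ) ≤ p := by exact_mod_cast hp.out.one_lt.le
  refine le_trans (le_of_eq ?_) (h3.trans (mul_le_mul_of_nonneg_left
    (Real.rpow_le_rpow_of_exponent_le hp1 (neg_le_neg (he _ hk))) (Nat.cast_nonneg _)))
  congr 1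
  refine Finset.sum_congr rfl fun t _ => ?_
  congr 1
  rw [← Finset.sum_coe_sort W (fun d => a d * ((t ^ d : (ZMod p)ˣ) : ZMod p)),
    ← Equiv.sum_comp E.symm]
  refine Finset.sum_congr rfl fun m _ => ?_
  simp

open scoped Classical in
/-- families stable under a small group acting with weights -/
theorem stable (r : ℕ) {δ : ℝ} (hδ : 0 < δ) : ∃ ε : ℝ, 0 < ε ∧ ∃ P0 : ℕ,
    ∀ (p : ℕ) [Fact p.Prime], P0 ≤ p → ∀ (H : Subgroup (ZMod p)ˣ) (w : Fin r → ℤ),
    (∀ j, (p : ℝ) ^ δ * Int.gcd (w j) (Nat.card H) ≤ Nat.card H) →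
    (∀ i j, w i ≠ w j → (p : ℝ) ^ δ * Int.gcd (w i - w j) (Nat.card H) ≤ Nat.card H) →
    ∀ (ι : Type) (S : Finset ι) (R : ι → Fin r → ZMod p) (act : (ZMod p)ˣ → ι → ι),
    (∀ t ∈ H, ∀ i ∈ S, act t i ∈ S) → (∀ t ∈ H, Set.InjOn (act t) S) →
    (∀ t ∈ H, ∀ i ∈ S, ∀ j, R (act t i) j = ((t ^ w j : (ZMod p)ˣ) : ZMod p) * R i j) →
    (∀ a : Fin r → ZMod p, a ≠ 0 →
      ((S.filter fun i => ∀ d : ℤ, ∑ j with w j = d, a j * R i j = 0).card : ℝ) ≤
        S.card * (p : ℝ) ^ (-δ)) →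
    ∀ a : Fin r → ZMod p, a ≠ 0 →
    ‖∑ i ∈ S, (ZMod.stdAddChar (∑ j, a j * R i j) : ℂ)‖ ≤ S.card * (p : ℝ) ^ (-ε) := by
  obtain ⟨ε, hε, P0, h⟩ := monomials' r hδ
  obtain ⟨e, he⟩ : ∃ e, min ε δ = e := ⟨_, rfl⟩
  have he0 : 0 < e := he ▸ lt_min hε hδ
  obtain ⟨P1, hP1⟩ : ∃ P1 : ℕ, (2 : ℝ) ^ (2 / e) ≤ P1 := exists_nat_ge _
  refine ⟨e / 2, by positivity, P0 + P1, ?_⟩
  intro p hp hpP H w hw hww ι S R act hact hinj hR hdeg a ha
  have hp0 : (0 : ℝ) < p := by exact_mod_cast hp.out.pos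
  have hp1 : (1 : ℝ) ≤ p := by exact_mod_cast hp.out.one_lt.le
  set s : Finset (ZMod p)ˣ := univ.filter (fun t => t ∈ H) with hs
  have hsm : ∀ t, t ∈ s ↔ t ∈ H := fun t => by rw [hs, mem_filter]; simp
  have hsc : Nat.card H = s.card := by
    rw [← Nat.card_eq_finsetCard]
    exact Nat.card_congr (Equiv.subtypeEquivRight fun t => (hsm t).symm)
  rw [hsc] at hw hww
  have hs0 : (0 : ℝ) < s.card := by
    have : 0 < s.card := Finset.card_pos.2 ⟨1, (hsm 1).2 H.one_mem⟩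
    exact_mod_cast this
  -- reindexing
  have hre : ∀ t ∈ s, ∑ i ∈ S, (ZMod.stdAddChar (∑ j, a j * R i j) : ℂ) =
      ∑ i ∈ S, (ZMod.stdAddChar (∑ j, a j * (((t ^ w j : (ZMod p)ˣ) : ZMod p) * R i j)) : ℂ) := by
    intro t ht
    have htH := (hsm t).1 ht
    have himg : S.image (act t) = S := by
      apply Finset.eq_of_subset_of_card_le
      · intro i hi
        obtain ⟨i', hi', rfl⟩ := mem_image.1 hi
        exact hact t htH i' hi'
      · rw [Finset.card_image_of_injOn (hinj t htH)]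
    conv_lhs => rw [← himg]
    rw [Finset.sum_image (hinj t htH)]
    refine Finset.sum_congr rfl fun i hi => ?_
    congr 1
    exact Finset.sum_congr rfl fun j _ => by rw [hR t htH i hi j]
  have havg : (s.card : ℂ) * ∑ i ∈ S, (ZMod.stdAddChar (∑ j, a j * R i j) : ℂ) =
      ∑ i ∈ S, ∑ t ∈ s, (ZMod.stdAddChar (∑ j, a j * (((t ^ w j : (ZMod p)ˣ) : ZMod p) * R i j)) : ℂ) := by
    rw [Finset.sum_comm, Finset.sum_congr rfl fun t ht => (hre t ht).symm, sum_const, nsmul_eq_mul]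
  set W : Finset ℤ := univ.image w with hW
  have hWc : W.card ≤ r := by
    refine Finset.card_image_le.trans ?_
    rw [card_univ, Fintype.card_fin]
  -- the inner sums
  have hgroup : ∀ i (t : (ZMod p)ˣ), ∑ j, a j * (((t ^ w j : (ZMod p)ˣ) : ZMod p) * R i j) =
      ∑ d ∈ W, (∑ j with w j = d, a j * R i j) * ((t ^ d : (ZMod p)ˣ) : ZMod p) := by
    intro i t
    rw [← Finset.sum_fiberwise_of_maps_to (s := univ) (t := W) (g := w)
      (fun j _ => mem_image_of_mem w (mem_univ j))]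
    refine Finset.sum_congr rfl fun d _ => ?_
    rw [Finset.sum_mul]
    refine Finset.sum_congr rfl fun j hj => ?_
    rw [mem_filter] at hj
    rw [hj.2]
    ring
  set B := S.filter fun i => ∀ d : ℤ, ∑ j with w j = d, a j * R i j = 0 with hB
  have hin : ∀ i ∈ S, ‖∑ t ∈ s, (ZMod.stdAddChar
      (∑ j, a j * (((t ^ w j : (ZMod p)ˣ) : ZMod p) * R i j)) : ℂ)‖ ≤
      s.card * (p : ℝ) ^ (-ε) + if i ∈ B then (s.card : ℝ) else 0 := by
    intro i hi
    by_cases hiB : i ∈ B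
    · rw [if_pos hiB]
      have h1 : ‖∑ t ∈ s, (ZMod.stdAddChar
          (∑ j, a j * (((t ^ w j : (ZMod p)ˣ) : ZMod p) * R i j)) : ℂ)‖ ≤ s.card := by
        refine (norm_sum_le _ _).trans ?_
        rw [Finset.sum_congr rfl fun t _ => AddChar.norm_apply _ _, sum_const, nsmul_eq_mul, mul_one]
      have h2 : 0 ≤ (s.card : ℝ) * (p : ℝ) ^ (-ε) := by positivity
      linarith
    · rw [if_neg hiB, add_zero]
      have hne : ∃ d ∈ W, (∑ j with w j = d, a j * R i j) ≠ 0 := by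
        by_contra hcon
        push Not at hcon
        apply hiB
        rw [hB, mem_filter]
        refine ⟨hi, fun d => ?_⟩
        by_cases hd : d ∈ W
        · exact hcon d hd
        · rw [Finset.filter_eq_empty_iff.2, sum_empty]
          intro j _ hj
          exact hd (hj ▸ mem_image_of_mem w (mem_univ j))
      have h1 := h p (by omega) H s hsm W hWc (by
        intro d hd
        obtain ⟨j, _, rfl⟩ := mem_image.1 hd
        exact hw j) (by
        intro d hd d' hd' hne'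
        obtain ⟨j, _, rfl⟩ := mem_image.1 hd
        obtain ⟨j', _, rfl⟩ := mem_image.1 hd'
        exact hww j j' hne') (fun d => ∑ j with w j = d, a j * R i j) hne
      rw [Finset.sum_congr rfl fun t _ => by rw [hgroup i t]]
      exact h1
  have htot : s.card * ‖∑ i ∈ S, (ZMod.stdAddChar (∑ j, a j * R i j) : ℂ)‖ ≤
      s.card * (S.card * (p : ℝ) ^ (-ε) + S.card * (p : ℝ) ^ (-δ)) := by
    have h1 : ‖(s.card : ℂ) * ∑ i ∈ S, (ZMod.stdAddChar (∑ j, a j * R i j) : ℂ)‖ =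
        s.card * ‖∑ i ∈ S, (ZMod.stdAddChar (∑ j, a j * R i j) : ℂ)‖ := by
      rw [norm_mul, Complex.norm_natCast]
    rw [← h1, havg]
    refine (norm_sum_le _ _).trans ((Finset.sum_le_sum hin).trans ?_)
    rw [Finset.sum_add_distrib, sum_const, nsmul_eq_mul, ← Finset.sum_filter, sum_const,
      nsmul_eq_mul]
    have h2 : S.filter (fun i => i ∈ B) = B := by
      ext i
      rw [mem_filter]
      exact ⟨fun h => h.2, fun h => ⟨(mem_filter.1 h).1, h⟩⟩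
    rw [h2]
    have h3 := hdeg a ha
    rw [← hB] at h3
    nlinarith
  have h4 := le_of_mul_le_mul_left htot hs0
  refine h4.trans ?_
  rw [← mul_add]
  refine mul_le_mul_of_nonneg_left ?_ (Nat.cast_nonneg _)
  have h5 : (p : ℝ) ^ (-ε) ≤ (p : ℝ) ^ (-e) :=
    Real.rpow_le_rpow_of_exponent_le hp1 (neg_le_neg (he ▸ min_le_left _ _))
  have h6 : (p : ℝ) ^ (-δ) ≤ (p : ℝ) ^ (-e) :=
    Real.rpow_le_rpow_of_exponent_le hp1 (neg_le_neg (he ▸ min_le_right _ _))
  have h7 : (p : ℝ) ^ (-e) = (p : ℝ) ^ (-(e / 2)) * (p : ℝ) ^ (-(e / 2)) := by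
    rw [← Real.rpow_add hp0]
    congr 1
    ring
  have h8 : (p : ℝ) ^ (-(e / 2)) ≤ 1 / 2 := by
    have h9 : (P1 : ℝ) ≤ p := by exact_mod_cast (by omega : P1 ≤ p)
    have h10 : (2 : ℝ) ≤ (p : ℝ) ^ (e / 2) := by
      calc (2 : ℝ) = ((2 : ℝ) ^ (2 / e)) ^ (e / 2) := by
            rw [← Real.rpow_mul (by norm_num)]
            field_simp
            simp
        _ ≤ (p : ℝ) ^ (e / 2) :=
            Real.rpow_le_rpow (by positivity) (hP1.trans h9) (by positivity)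
    rw [Real.rpow_neg hp0.le, one_div]
    exact inv_anti₀ (by norm_num) h10
  have h11 : 0 < (p : ℝ) ^ (-(e / 2)) := Real.rpow_pos_of_pos hp0 _
  nlinarith

end Pool.Agent.Run7.h823.BK
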