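import Pool.Agent.Run7.h823.PV8

/-!
# Values of polynomials in the trajectories of the 3x+1 map: the centre which is cyclic
-/

set_option autoImplicit false
open Finset Polynomial

namespace Pool.Agent.Run7.h823.PV

/-- sums of a periodic function over multiples of the period -/
theorem sum_periodic {χ : ℕ → ℕ} {n : ℕ} (h : ∀ i, χ (i + n) = χ i) (t : ℕ) :
    ∑ i ∈ range (n * t), χ i = t * ∑ i ∈ range n, χ i := by
  have h' : ∀ t i, χ (n * t + i) = χ i := by
    intro t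
    induction t with
    | zero => intro i; simp
    | succ t ih =>
      intro i
      rw [Nat.mul_succ, add_right_comm, h, ih]
  induction t with
  | zero => simp
  | succ t ih =>
    rw [Nat.mul_succ, Finset.sum_range_add, ih, Nat.succ_mul]
    congr 1
    exact Finset.sum_congr rfl fun i _ => h' t i

theorem od_sum (n : ℕ) (x : ℤ) : od n x = ∑ i ∈ range n, if T^[i] x % 2 = 1 then 1 else 0 := by
  unfold od
  rw [Finset.card_filter]

/-- the number of odd terms near a cyclic centre -/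
theorem od_near {D a y : ℤ} (hD : D % 2 = 1) {n t : ℕ} (hper : (TD D)^[n] a = a)
    (h : (2 : ℤ) ^ (n * t) ∣ D * y - a) :
    od (n * t) y = t * ∑ i ∈ range n, if (TD D)^[i] a % 2 = 1 then 1 else 0 := by
  rw [od_sum]
  rw [← sum_periodic (χ := fun i => if (TD D)^[i] a % 2 = 1 then 1 else 0) (n := n) (fun i => by
    show (if (TD D)^[i + n] a % 2 = 1 then 1 else 0) = _
    rw [Function.iterate_add_apply, hper]) t]
  refine Finset.sum_congr rfl fun i hi => ?_
  rw [(follow hD a y (n * t) h).2 i (Finset.mem_range.1 hi)]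

theorem iter_mul {D a : ℤ} {n : ℕ} (hper : (TD D)^[n] a = a) (t : ℕ) :
    (TD D)^[n * t] a = a := by
  rw [Function.iterate_mul]
  exact Function.iterate_fixed hper t

/-- **Values accumulate at a cyclic centre.** -/
theorem dense {d n φ : ℕ} {c g : ℚ} (hd : 1 ≤ d) (hn : 1 ≤ n) (hφ : 1 ≤ φ) (hc : c ≠ 0)
    (hD : g.den % 2 = 1) (hper : (TD g.den)^[n] g.num = g.num)
    (hint : ∀ k : ℕ, ∃ y : ℤ, (y : ℚ) = c * 2 ^ (n * (φ * d) * k) + g) :
    ¬ Sparse2 (Val d c 0 g) := by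
  rintro ⟨K, hK⟩
  have hDZ : (g.den : ℤ) % 2 = 1 := by omega
  have hgd : (0 : ℚ) < g.den := by exact_mod_cast g.den_pos
  have h6 : g * g.den = g.num := Rat.mul_den_eq_num g
  obtain ⟨y0, hy0⟩ := hint 0
  rw [mul_zero, pow_zero, mul_one] at hy0
  set w : ℤ := g.den * y0 - g.num with hw
  have hwc : (w : ℚ) = g.den * c := by
    rw [hw]
    push_cast
    rw [hy0, ← h6]
    ring
  have hw0 : w ≠ 0 := by
    intro h0
    rw [h0] at hwc
    have : (g.den : ℚ) * c ≠ 0 := mul_ne_zero hgd.ne' hc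
    exact this hwc.symm
  set N := n * (φ * d) with hN
  have hN1 : 1 ≤ N := Nat.one_le_iff_ne_zero.2 (by
    rw [hN]
    exact Nat.mul_ne_zero (by omega) (Nat.mul_ne_zero (by omega) (by omega)))
  set o := ∑ i ∈ range n, (if (TD g.den)^[i] g.num % 2 = 1 then 1 else 0) with ho
  -- the terms
  have key : ∀ (k t : ℕ) (y : ℤ), t ≤ k → (y : ℚ) = c * 2 ^ (N * k) + g →
      Val d c 0 g (T^[N * t] y) := by
    intro k t y htk hy
    obtain ⟨s, rfl⟩ := Nat.exists_eq_add_of_le htk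
    have e1 : (g.den : ℤ) * y - g.num = w * 2 ^ (N * (t + s)) := by
      have : ((g.den * y - g.num : ℤ) : ℚ) = ((w * 2 ^ (N * (t + s)) : ℤ) : ℚ) := by
        push_cast
        rw [hy, hwc, ← h6]
        ring
      exact_mod_cast this
    have hNt : N * t = n * (φ * d * t) := by rw [hN]; ring
    have hdvd : (2 : ℤ) ^ (n * (φ * d * t)) ∣ g.den * y - g.num := by
      rw [e1, ← hNt, mul_add, pow_add]
      exact Dvd.intro_left (w * 2 ^ (N * s)) (by ring)
    have h1 := (follow hDZ g.num y _ hdvd).1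
    rw [iter_mul hper, od_near hDZ hper hdvd, ← ho, ← hNt, e1] at h1
    have h2 : (g.den : ℤ) * T^[N * t] y - g.num = 3 ^ (φ * d * t * o) * (w * 2 ^ (N * s)) := by
      have h2n : (2 : ℤ) ^ (N * t) ≠ 0 := by positivity
      apply mul_left_cancel₀ h2n
      rw [h1, mul_add, pow_add]
      ring
    refine ⟨3 ^ (φ * t * o) * 2 ^ (n * φ * s), ?_⟩
    have h3 : (g.den : ℚ) * ((T^[N * t] y : ℤ) : ℚ) - g.num =
        3 ^ (φ * d * t * o) * (w * 2 ^ (N * s)) := by exact_mod_cast h2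
    have h4 : ((T^[N * t] y : ℤ) : ℚ) = c * (3 ^ (φ * d * t * o) * 2 ^ (N * s)) + g := by
      apply mul_left_cancel₀ hgd.ne'
      rw [hwc, ← h6] at h3
      linear_combination h3
    rw [h4]
    push_cast
    rw [sub_zero, mul_pow, ← pow_mul, ← pow_mul, hN]
    congr 3
    · congr 1
      ring
    · congr 1
      ring
  -- large terms
  obtain ⟨y, hy⟩ := hint (2 + (g.den * K ^ (N * 2) + (g.num.natAbs)))
  set k := 2 + (g.den * K ^ (N * 2) + (g.num.natAbs)) with hk
  have hle := hK y (N * 1) (N * 2) (by omega) (by omega) (by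
      have := key k 0 y (by omega) hy
      simpa using this) (key k 1 y (by omega) hy) (key k 2 y (by omega) hy)
  have e1 : (g.den : ℤ) * y = w * 2 ^ (N * k) + g.num := by
    have : ((g.den * y : ℤ) : ℚ) = ((w * 2 ^ (N * k) + g.num : ℤ) : ℚ) := by
      push_cast
      rw [hy, hwc, ← h6]
      ring
    exact_mod_cast this
  have h1 : (2 : ℤ) ^ (N * k) ≤ |w * 2 ^ (N * k)| := by
    rw [abs_mul, abs_of_pos (by positivity : (0 : ℤ) < 2 ^ (N * k))]
    exact le_mul_of_one_le_left (by positivity) (Int.one_le_abs hw0)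
  have h2 : |w * 2 ^ (N * k)| ≤ g.den * |y| + |g.num| := by
    have : w * 2 ^ (N * k) = g.den * y - g.num := by linarith
    rw [this]
    refine (abs_sub _ _).trans ?_
    rw [abs_mul, abs_of_pos (by exact_mod_cast g.den_pos : (0 : ℤ) < g.den)]
  have h3 : (g.den : ℤ) * |y| ≤ g.den * (K : ℤ) ^ (N * 2) :=
    mul_le_mul_of_nonneg_left hle (by positivity)
  have h4 : (k : ℤ) < 2 ^ (N * k) := by
    have h5 : k < 2 ^ k := Nat.lt_two_pow_self
    have h7 : 2 ^ k ≤ 2 ^ (N * k) := Nat.pow_le_pow_right (by norm_num)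
      (Nat.le_mul_of_pos_left k (by omega))
    exact_mod_cast lt_of_lt_of_le h5 h7
  have h8 : (k : ℤ) = 2 + (g.den * (K : ℤ) ^ (N * 2) + |g.num|) := by
    rw [hk]
    push_cast
    rfl
  linarith

theorem TD_one : TD 1 = T := by
  funext a
  rfl

theorem cyclic_int (g : ℤ) : Cyclic (g : ℚ) ↔ ∃ n : ℕ, 0 < n ∧ T^[n] g = g := by
  unfold Cyclic
  rw [Rat.den_intCast, Rat.num_intCast]
  simp [TD_one]

/-- **A criterion of cyclicity of integers.** -/
theorem criterion_int (g : ℤ) {d : ℕ} (hd : 2 ≤ d) :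
    (∃ n : ℕ, 0 < n ∧ T^[n] g = g) ↔ ¬ Sparse2 (fun y => ∃ u : ℤ, y = u ^ d + g) := by
  have hval : ∀ y : ℤ, Val d 1 0 (g : ℚ) y ↔ ∃ u : ℤ, y = u ^ d + g := by
    intro y
    constructor
    · rintro ⟨u, hu⟩
      refine ⟨u, ?_⟩
      have : (y : ℚ) = ((u ^ d + g : ℤ) : ℚ) := by push_cast; rw [hu]; ring
      exact_mod_cast this
    · rintro ⟨u, rfl⟩
      exact ⟨u, by push_cast; ring⟩
  have hfun : (fun y : ℤ => ∃ u : ℤ, y = u ^ d + g) = Val d 1 0 (g : ℚ) := by
    funext y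
    exact propext (hval y).symm
  rw [hfun, ← cyclic_int]
  constructor
  · rintro ⟨hD, n, hn, hper⟩
    refine dense (φ := 1) (by omega) hn le_rfl one_ne_zero hD hper fun k => ?_
    exact ⟨2 ^ (n * (1 * d) * k) + g, by push_cast; ring⟩
  · intro h
    by_contra hg
    exact h (val_two hd one_ne_zero hg)

/-- **A criterion of cyclicity of rational numbers.** -/
theorem criterion_rat {g : ℚ} (hg0 : g ≠ 0) {d : ℕ} (hd : 2 ≤ d) :
    Cyclic g ↔ ¬ Sparse2 (fun y => ∃ u : ℤ, (y : ℚ) = g - g * u ^ d) := by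
  have hfun : (fun y : ℤ => ∃ u : ℤ, (y : ℚ) = g - g * u ^ d) = Val d (-g) 0 g := by
    funext y
    refine propext ⟨?_, ?_⟩
    · rintro ⟨u, hu⟩
      exact ⟨u, by rw [hu]; ring⟩
    · rintro ⟨u, hu⟩
      exact ⟨u, by rw [hu]; ring⟩
  rw [hfun]
  constructor
  · rintro ⟨hD, n, hn, hper⟩
    have hgd : (0 : ℚ) < g.den := by exact_mod_cast g.den_pos
    refine dense (φ := Nat.totient g.den) (by omega) hn (Nat.totient_pos.2 g.den_pos)
      (neg_ne_zero.2 hg0) hD hper fun k => ?_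
    have h1 : Nat.Coprime 2 g.den := by
      rw [Nat.coprime_comm, Nat.coprime_two_right]
      exact Nat.odd_iff.2 hD
    have h2 : (g.den : ℤ) ∣ 2 ^ (n * (Nat.totient g.den * d) * k) - 1 := by
      have h3 := (Nat.ModEq.pow_totient h1).pow (n * d * k)
      rw [one_pow, ← pow_mul] at h3
      have h4 : Nat.totient g.den * (n * d * k) = n * (Nat.totient g.den * d) * k := by ring
      rw [h4] at h3
      have := (Nat.modEq_iff_dvd.1 h3.symm)
      exact_mod_cast this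
    obtain ⟨z, hz⟩ := h2
    refine ⟨-(g.num * z), ?_⟩
    have h5 : (2 : ℚ) ^ (n * (Nat.totient g.den * d) * k) = 1 + g.den * z := by
      have : ((2 ^ (n * (Nat.totient g.den * d) * k) - 1 : ℤ) : ℚ) = ((g.den * z : ℤ) : ℚ) := by
        rw [hz]
      push_cast at this
      linarith
    rw [h5]
    push_cast
    rw [← Rat.mul_den_eq_num g]
    ring
  · intro h
    by_contra hg
    exact h (val_two hd (neg_ne_zero.2 hg0) hg)

open Classical in
/-- at most two terms in a window -/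
theorem window {P : ℤ → Prop} (h : Sparse2 P) : ∃ k : ℕ, ∀ (x : ℤ) (L : ℕ), (k : ℤ) ^ L < |x| →
    ((range (L + 1)).filter fun i => P (T^[i] x)).card ≤ 2 := by
  obtain ⟨k, hk⟩ := h
  refine ⟨2 * (k + 1), fun x L hx => ?_⟩
  by_contra hcon
  obtain ⟨a, ha, b, hb, c, hc, hab, hbc⟩ := three_of_card (not_le.1 hcon)
  obtain ⟨ha1, ha2⟩ := Finset.mem_filter.1 ha
  obtain ⟨hb1, hb2⟩ := Finset.mem_filter.1 hb
  obtain ⟨hc1, hc2⟩ := Finset.mem_filter.1 hc
  rw [Finset.mem_range] at hc1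
  have h1 := hk (T^[a] x) (b - a) (c - a) (by omega) (by omega) ha2
    (by rw [← Function.iterate_add_apply, Nat.sub_add_cancel hab.le]; exact hb2)
    (by rw [← Function.iterate_add_apply, Nat.sub_add_cancel (hab.trans hbc).le]; exact hc2)
  have h2 := size_iter a x
  have hk1 : (1 : ℤ) ≤ (k : ℤ) + 1 := by
    have := Int.natCast_nonneg k
    linarith
  have h3 : (k : ℤ) ^ (c - a) ≤ ((k : ℤ) + 1) ^ (c - a) :=
    pow_le_pow_left₀ (Int.natCast_nonneg k) (by linarith) _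
  have h4 : ((k : ℤ) + 1) ^ (c - a) ≤ ((k : ℤ) + 1) ^ L := pow_le_pow_right₀ hk1 (by omega)
  have h5 : (2 : ℤ) ^ a ≤ 2 ^ L := pow_le_pow_right₀ (by norm_num) (by omega)
  have h6 : |x| ≤ 2 ^ L * ((k : ℤ) + 1) ^ L :=
    h2.trans (mul_le_mul h5 (h1.trans (h3.trans h4)) (abs_nonneg _) (by positivity))
  push_cast at hx
  rw [mul_pow] at hx
  linarith

/-- squares are not sparse in the first sense -/
theorem not_sparse : ¬ Sparse1 (fun y => y % 2 = 1 ∧ ∃ u : ℤ, y = u ^ 2) := by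
  rintro ⟨k, hk⟩
  obtain ⟨u, v, h1, h2, h3, h4⟩ := squares (k ^ 2)
  have odd_sq : ∀ w : ℤ, w % 2 = 1 → w ^ 2 % 2 = 1 := by
    intro w hw
    obtain ⟨t, ht⟩ : ∃ t, w = 2 * t + 1 := ⟨w / 2, by omega⟩
    have : w ^ 2 = 2 * (2 * t ^ 2 + 2 * t) + 1 := by rw [ht]; ring
    omega
  have h5 := hk (u ^ 2) 2 (by norm_num) ⟨odd_sq u h2, u, rfl⟩ (by
    rw [h4]
    exact ⟨odd_sq v h3, v, rfl⟩)
  rw [abs_of_nonneg (sq_nonneg u)] at h5
  push_cast at h1
  have h6 : (0 : ℤ) ≤ (k : ℤ) ^ 2 := by positivity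
  nlinarith

end Pool.Agent.Run7.h823.PV
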