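import Mathlib
import Pool.Agent.H217R3.AK.Bsg

/-!
# Exponential sums over short geometric progressions: the large spectrum
-/

set_option autoImplicit false
open Finset
open scoped Pointwise ComplexConjugate

namespace Pool.Agent.Run7.h823.BK

variable {p : ℕ} [hp : Fact p.Prime] {r : ℕ} {ι : Type*}

/-- the exponential sum of a family of vectors -/
noncomputable def S (s : Finset ι) (v : ι → Fin r → ZMod p) (a : Fin r → ZMod p) : ℂ :=
  ∑ i ∈ s, (ZMod.stdAddChar (∑ j, a j * v i j) : ℂ)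

theorem norm_char (x : ZMod p) : ‖(ZMod.stdAddChar x : ℂ)‖ = 1 := by
  rw [ZMod.stdAddChar_apply]
  simp

theorem char_conj (x y : ZMod p) :
    (ZMod.stdAddChar x : ℂ) * conj (ZMod.stdAddChar y : ℂ) = ZMod.stdAddChar (x - y) := by
  rw [← AddChar.map_neg_eq_conj, ← AddChar.map_add_eq_mul, sub_eq_add_neg]

theorem S_le (s : Finset ι) (v : ι → Fin r → ZMod p) (a : Fin r → ZMod p) :
    ‖S s v a‖ ≤ s.card := by
  unfold S
  refine (norm_sum_le _ _).trans ?_
  rw [Finset.sum_congr rfl fun i _ => norm_char _]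
  simp

theorem phase (z : ℂ) : ∃ c : ℂ, ‖c‖ ≤ 1 ∧ c * z = ‖z‖ := by
  by_cases hz : z = 0
  · exact ⟨0, by simp, by simp [hz]⟩
  · refine ⟨conj z / ‖z‖, ?_, ?_⟩
    · rw [norm_div, RCLike.norm_conj]
      simp [hz]
    · have h1 : (‖z‖ : ℂ) ≠ 0 := by exact_mod_cast norm_ne_zero_iff.2 hz
      rw [div_mul_eq_mul_div, div_eq_iff h1, ← Complex.normSq_eq_conj_mul_self,
        Complex.normSq_eq_norm_sq]
      push_cast
      ring

/-- differences of the elements of the large spectrum -/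
theorem spec_sum (s : Finset ι) (v : ι → Fin r → ZMod p) (L : Finset (Fin r → ZMod p)) {ρ : ℝ}
    (hρ : 0 ≤ ρ) (hL : ∀ a ∈ L, ρ * s.card ≤ ‖S s v a‖) :
    ρ ^ 2 * s.card * (L.card : ℝ) ^ 2 ≤ ∑ a ∈ L, ∑ b ∈ L, ‖S s v (a - b)‖ := by
  choose c hc1 hc2 using fun a => phase (S s v a)
  set T : ι → ℂ := fun i => ∑ a ∈ L, c a * (ZMod.stdAddChar (∑ j, a j * v i j) : ℂ) with hT
  have h1 : ((∑ a ∈ L, ‖S s v a‖ : ℝ) : ℂ) = ∑ i ∈ s, T i := by
    push_cast
    rw [Finset.sum_congr rfl fun a _ => (hc2 a).symm, hT, Finset.sum_comm]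
    refine Finset.sum_congr rfl fun a _ => ?_
    unfold S
    rw [Finset.mul_sum]
  have h2 : ∑ a ∈ L, ‖S s v a‖ ≤ ∑ i ∈ s, ‖T i‖ := by
    have h3 : ‖((∑ a ∈ L, ‖S s v a‖ : ℝ) : ℂ)‖ = ∑ a ∈ L, ‖S s v a‖ := by
      rw [Complex.norm_real, Real.norm_of_nonneg (Finset.sum_nonneg fun _ _ => norm_nonneg _)]
    rw [← h3, h1]
    exact norm_sum_le _ _
  have h3 : (∑ i ∈ s, ‖T i‖) ^ 2 ≤ s.card * ∑ i ∈ s, ‖T i‖ ^ 2 := sq_sum_le_card_mul_sum_sq
  have h4 : ∑ i ∈ s, ‖T i‖ ^ 2 ≤ ∑ a ∈ L, ∑ b ∈ L, ‖S s v (a - b)‖ := by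
    have h5 : ((∑ i ∈ s, ‖T i‖ ^ 2 : ℝ) : ℂ) =
        ∑ a ∈ L, ∑ b ∈ L, c a * conj (c b) * S s v (a - b) := by
      push_cast
      have h6 : ∀ i ∈ s, ((‖T i‖ : ℂ)) ^ 2 = ∑ a ∈ L, ∑ b ∈ L, c a * conj (c b) *
          (ZMod.stdAddChar (∑ j, (a - b) j * v i j) : ℂ) := by
        intro i _
        rw [← Complex.conj_mul', mul_comm, hT, map_sum, Finset.sum_mul_sum]
        refine Finset.sum_congr rfl fun a _ => Finset.sum_congr rfl fun b _ => ?_
        have h8 : (∑ j, a j * v i j) - ∑ j, b j * v i j = ∑ j, (a - b) j * v i j := by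
          rw [← Finset.sum_sub_distrib]
          refine Finset.sum_congr rfl fun j _ => ?_
          rw [Pi.sub_apply]
          ring
        rw [map_mul, mul_mul_mul_comm, char_conj, h8]
      rw [Finset.sum_congr rfl h6, Finset.sum_comm]
      refine Finset.sum_congr rfl fun a _ => ?_
      rw [Finset.sum_comm]
      refine Finset.sum_congr rfl fun b _ => ?_
      unfold S
      rw [Finset.mul_sum]
    have h7 : ‖((∑ i ∈ s, ‖T i‖ ^ 2 : ℝ) : ℂ)‖ = ∑ i ∈ s, ‖T i‖ ^ 2 := by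
      rw [Complex.norm_real, Real.norm_of_nonneg (Finset.sum_nonneg fun _ _ => by positivity)]
    rw [← h7, h5]
    refine (norm_sum_le _ _).trans (Finset.sum_le_sum fun a _ => ?_)
    refine (norm_sum_le _ _).trans (Finset.sum_le_sum fun b _ => ?_)
    rw [norm_mul, norm_mul, RCLike.norm_conj]
    calc ‖c a‖ * ‖c b‖ * ‖S s v (a - b)‖ ≤ 1 * 1 * ‖S s v (a - b)‖ := by
          have := hc1 a
          have := hc1 b
          gcongr
      _ = _ := by ring
  have h8 : ρ * s.card * L.card ≤ ∑ a ∈ L, ‖S s v a‖ := by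
    calc ρ * s.card * L.card = ∑ a ∈ L, ρ * s.card := by rw [Finset.sum_const]; simp; ring
      _ ≤ _ := Finset.sum_le_sum hL
  rcases Nat.eq_zero_or_pos s.card with h9 | h9
  · rw [h9]
    simp only [Nat.cast_zero, mul_zero, zero_mul]
    exact Finset.sum_nonneg fun _ _ => Finset.sum_nonneg fun _ _ => norm_nonneg _
  · have h10 : (0 : ℝ) < s.card := by exact_mod_cast h9
    refine le_of_mul_le_mul_left ?_ h10
    calc (s.card : ℝ) * (ρ ^ 2 * s.card * (L.card : ℝ) ^ 2) = (ρ * s.card * L.card) ^ 2 := by ring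
      _ ≤ (∑ i ∈ s, ‖T i‖) ^ 2 := by
          have : 0 ≤ ρ * s.card * L.card := by positivity
          gcongr
          exact h8.trans h2
      _ ≤ s.card * ∑ i ∈ s, ‖T i‖ ^ 2 := h3
      _ ≤ _ := by gcongr

/-- many differences are again in a large spectrum -/
theorem spec_count (s : Finset ι) (v : ι → Fin r → ZMod p) (L : Finset (Fin r → ZMod p)) {ρ : ℝ}
    (hs : s.Nonempty) (hρ : 0 ≤ ρ) (hL : ∀ a ∈ L, ρ * s.card ≤ ‖S s v a‖) :
    ρ ^ 2 / 2 * (L.card : ℝ) ^ 2 ≤
      ((L ×ˢ L).filter fun x => ρ ^ 2 / 2 * s.card ≤ ‖S s v (x.1 - x.2)‖).card := by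
  have h1 := spec_sum s v L hρ hL
  have hs0 : (0 : ℝ) < s.card := by exact_mod_cast hs.card_pos
  rw [← Finset.sum_product' (f := fun a b => ‖S s v (a - b)‖)] at h1
  have h2 : ∑ x ∈ L ×ˢ L, ‖S s v (x.1 - x.2)‖ ≤
      s.card * ((L ×ˢ L).filter fun x => ρ ^ 2 / 2 * s.card ≤ ‖S s v (x.1 - x.2)‖).card +
        ρ ^ 2 / 2 * s.card * (L.card : ℝ) ^ 2 := by
    rw [← Finset.sum_filter_add_sum_filter_not (L ×ˢ L)
      (fun x => ρ ^ 2 / 2 * s.card ≤ ‖S s v (x.1 - x.2)‖)]
    refine add_le_add ?_ ?_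
    · calc _ ≤ ∑ x ∈ (L ×ˢ L).filter fun x => ρ ^ 2 / 2 * s.card ≤ ‖S s v (x.1 - x.2)‖,
            (s.card : ℝ) := Finset.sum_le_sum fun x _ => S_le s v _
        _ = _ := by rw [Finset.sum_const]; simp; ring
    · calc _ ≤ ∑ x ∈ (L ×ˢ L).filter fun x => ¬ ρ ^ 2 / 2 * s.card ≤ ‖S s v (x.1 - x.2)‖,
            (ρ ^ 2 / 2 * s.card : ℝ) := Finset.sum_le_sum fun x hx =>
              (not_le.1 (Finset.mem_filter.1 hx).2).le
        _ = ((L ×ˢ L).filter fun x => ¬ ρ ^ 2 / 2 * s.card ≤ ‖S s v (x.1 - x.2)‖).card *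
            (ρ ^ 2 / 2 * s.card) := by rw [Finset.sum_const]; simp
        _ ≤ ((L ×ˢ L).card : ℝ) * (ρ ^ 2 / 2 * s.card) := by
            gcongr
            exact Finset.filter_subset _ _
        _ = _ := by rw [Finset.card_product]; push_cast; ring
  refine le_of_mul_le_mul_left ?_ hs0
  have h3 := h1.trans h2
  linarith

/-- energy from many differences in a small set -/
theorem energy_of_diff (L L' : Finset (Fin r → ZMod p)) {τ : ℝ} (hτ : 0 ≤ τ)
    (h : τ * (L.card : ℝ) ^ 2 ≤ ((L ×ˢ L).filter fun x => x.1 - x.2 ∈ L').card) :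
    τ ^ 2 * (L.card : ℝ) ^ 4 ≤ L'.card * (L.addEnergy L : ℕ) := by
  have h1 : ((L ×ˢ L).filter fun x => x.1 - x.2 ∈ L').card =
      (((L ×ˢ (-L)).filter fun x => x.1 + x.2 ∈ L')).card := by
    refine Finset.card_bij (fun x _ => (x.1, -x.2)) ?_ ?_ ?_
    · intro x hx
      simp only [Finset.mem_filter, Finset.mem_product] at hx ⊢
      exact ⟨⟨hx.1.1, Finset.neg_mem_neg hx.1.2⟩, by rw [← sub_eq_add_neg]; exact hx.2⟩
    · intro x _ y _ hxy
      have h1 := congrArg Prod.fst hxy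
      have h2 := congrArg Prod.snd hxy
      exact Prod.ext h1 (neg_injective h2)
    · intro y hy
      simp only [Finset.mem_filter, Finset.mem_product, Finset.mem_neg] at hy
      obtain ⟨⟨h1, z, hz, hz2⟩, h2⟩ := hy
      refine ⟨(y.1, z), ?_, ?_⟩
      · simp only [Finset.mem_filter, Finset.mem_product]
        exact ⟨⟨h1, hz⟩, by rw [sub_eq_add_neg, hz2]; exact h2⟩
      · exact Prod.ext rfl hz2
  have h2 := Finset.card_sq_le_card_mul_addEnergy L (-L) L'
  have h3 : (L.addEnergy (-L)) = L.addEnergy L := by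
    unfold Finset.addEnergy
    refine Finset.card_bij (fun x _ => (x.1, (-x.2.2, -x.2.1))) ?_ ?_ ?_
    · intro x hx
      simp only [Finset.mem_filter, Finset.mem_product, Finset.mem_neg] at hx ⊢
      obtain ⟨⟨h1, ⟨z, hz, hz2⟩, ⟨w, hw, hw2⟩⟩, h2⟩ := hx
      refine ⟨⟨h1, ?_, ?_⟩, ?_⟩
      · rw [← hw2, neg_neg]; exact hw
      · rw [← hz2, neg_neg]; exact hz
      · rw [← sub_eq_add_neg, ← sub_eq_add_neg, sub_eq_sub_iff_add_eq_add]
        exact h2
    · intro x _ y _ hxy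
      have h1 := congrArg Prod.fst hxy
      have h2 := congrArg (fun z => z.2.1) hxy
      have h3 := congrArg (fun z => z.2.2) hxy
      exact Prod.ext h1 (Prod.ext (neg_injective h3) (neg_injective h2))
    · intro y hy
      simp only [Finset.mem_filter, Finset.mem_product] at hy
      obtain ⟨⟨h1, h2, h3⟩, h4⟩ := hy
      refine ⟨(y.1, (-y.2.2, -y.2.1)), ?_, ?_⟩
      · simp only [Finset.mem_filter, Finset.mem_product, Finset.mem_neg]
        refine ⟨⟨h1, ⟨_, h3, rfl⟩, ⟨_, h2, rfl⟩⟩, ?_⟩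
        rw [← sub_eq_add_neg, ← sub_eq_add_neg, sub_eq_sub_iff_add_eq_add]
        exact h4
      · simp
  rw [h1] at h
  rw [h3] at h2
  have h4 : (((L ×ˢ (-L)).filter fun x => x.1 + x.2 ∈ L').card : ℝ) ^ 2 ≤
      L'.card * (L.addEnergy L : ℕ) := by exact_mod_cast h2
  calc τ ^ 2 * (L.card : ℝ) ^ 4 = (τ * (L.card : ℝ) ^ 2) ^ 2 := by ring
    _ ≤ _ := (pow_le_pow_left₀ (by positivity) h 2).trans h4

theorem cheb (F : ZMod p → ℝ) {x : ℝ} (hx : 0 ≤ x) :
    ((univ.filter fun t => x ≤ F t).card : ℝ) * x ^ 2 ≤ ∑ t, F t ^ 2 := by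
  calc _ = ∑ t ∈ univ.filter fun t => x ≤ F t, x ^ 2 := by rw [Finset.sum_const, nsmul_eq_mul]
    _ ≤ ∑ t ∈ univ.filter fun t => x ≤ F t, F t ^ 2 := Finset.sum_le_sum fun t ht =>
        pow_le_pow_left₀ hx (Finset.mem_filter.1 ht).2 2
    _ ≤ _ := Finset.sum_le_sum_of_subset_of_nonneg (Finset.filter_subset _ _)
          fun _ _ _ => by positivity

/-- the number of large values on a line -/
theorem line_count (s : Finset ι) (v : ι → Fin r → ZMod p) (i0 : Fin r) {m : ℝ}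
    (hm : ∀ t : ZMod p, ((s.filter fun i => v i i0 = t).card : ℝ) ≤ m)
    (c : Fin r → ZMod p) {ρ : ℝ} (hρ : 0 < ρ) (hs : s.Nonempty) :
    ((univ.filter fun t : ZMod p => ρ * s.card ≤ ‖S s v (c + Pi.single i0 t)‖).card : ℝ) ≤
      p * m / (ρ ^ 2 * s.card) := by
  have hs0 : (0 : ℝ) < s.card := by exact_mod_cast hs.card_pos
  have h1 : ∑ t : ZMod p, ‖S s v (c + Pi.single i0 t)‖ ^ 2 ≤ p * (s.card * m) := by
    have h2 : ((∑ t : ZMod p, ‖S s v (c + Pi.single i0 t)‖ ^ 2 : ℝ) : ℂ) =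
        ∑ i ∈ s, ∑ i' ∈ s, (ZMod.stdAddChar (∑ j, c j * (v i j - v i' j)) : ℂ) *
          ∑ t : ZMod p, (ZMod.stdAddChar (t * (v i i0 - v i' i0)) : ℂ) := by
      push_cast
      have h6 : ∀ t : ZMod p, ((‖S s v (c + Pi.single i0 t)‖ : ℂ)) ^ 2 =
          ∑ i ∈ s, ∑ i' ∈ s, (ZMod.stdAddChar (∑ j, c j * (v i j - v i' j)) : ℂ) *
            (ZMod.stdAddChar (t * (v i i0 - v i' i0)) : ℂ) := by
        intro t
        rw [← Complex.conj_mul', mul_comm]
        unfold S
        rw [map_sum, Finset.sum_mul_sum]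
        refine Finset.sum_congr rfl fun i _ => Finset.sum_congr rfl fun i' _ => ?_
        rw [char_conj, ← AddChar.map_add_eq_mul, ← Finset.sum_sub_distrib]
        have h7 : ∀ j, (c + Pi.single i0 t : Fin r → ZMod p) j * v i j -
            (c + Pi.single i0 t : Fin r → ZMod p) j * v i' j =
            c j * (v i j - v i' j) + (Pi.single i0 t : Fin r → ZMod p) j * (v i j - v i' j) := by
          intro j
          rw [Pi.add_apply]
          ring
        have h8 : ∑ j, (Pi.single i0 t : Fin r → ZMod p) j * (v i j - v i' j) =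
            t * (v i i0 - v i' i0) := by
          rw [Finset.sum_eq_single i0]
          · rw [Pi.single_eq_same]
          · intro j _ hj
            rw [Pi.single_eq_of_ne hj, zero_mul]
          · intro h
            exact absurd (Finset.mem_univ _) h
        rw [Finset.sum_congr rfl fun j _ => h7 j, Finset.sum_add_distrib, h8]
      rw [Finset.sum_congr rfl fun t _ => h6 t, Finset.sum_comm]
      refine Finset.sum_congr rfl fun i _ => ?_
      rw [Finset.sum_comm]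
      refine Finset.sum_congr rfl fun i' _ => ?_
      rw [Finset.mul_sum]
    have h3 : ∀ x : ZMod p, ∑ t : ZMod p, (ZMod.stdAddChar (t * x) : ℂ) =
        if x = 0 then (p : ℂ) else 0 := by
      intro x
      have := AddChar.sum_mulShift x (ZMod.isPrimitive_stdAddChar p)
      rw [ZMod.card] at this
      exact_mod_cast this
    have h7 : ‖((∑ t : ZMod p, ‖S s v (c + Pi.single i0 t)‖ ^ 2 : ℝ) : ℂ)‖ =
        ∑ t : ZMod p, ‖S s v (c + Pi.single i0 t)‖ ^ 2 := by
      rw [Complex.norm_real, Real.norm_of_nonneg (Finset.sum_nonneg fun _ _ => by positivity)]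
    rw [← h7, h2]
    calc _ ≤ ∑ i ∈ s, ∑ i' ∈ s, (if v i i0 - v i' i0 = 0 then (p : ℝ) else 0) := by
          refine (norm_sum_le _ _).trans (Finset.sum_le_sum fun i _ => ?_)
          refine (norm_sum_le _ _).trans (Finset.sum_le_sum fun i' _ => ?_)
          rw [norm_mul, norm_char, one_mul, h3]
          split_ifs
          · simp
          · simp
      _ ≤ ∑ i ∈ s, (p * m : ℝ) := by
          refine Finset.sum_le_sum fun i _ => ?_
          have h9 : ∀ i' ∈ s, (if v i i0 - v i' i0 = 0 then (p : ℝ) else 0) =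
              if v i' i0 = v i i0 then (p : ℝ) else 0 := by
            intro i' _
            by_cases h : v i' i0 = v i i0
            · rw [if_pos h, if_pos (by rw [h, sub_self])]
            · rw [if_neg h, if_neg (fun h' => h (sub_eq_zero.1 h').symm)]
          rw [Finset.sum_congr rfl h9, ← Finset.sum_filter, Finset.sum_const, nsmul_eq_mul,
            mul_comm]
          exact mul_le_mul_of_nonneg_left (hm (v i i0)) (Nat.cast_nonneg _)
      _ = _ := by rw [Finset.sum_const, nsmul_eq_mul]; ring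
  rw [le_div_iff₀ (by positivity)]
  have h4 := cheb (fun t : ZMod p => ‖S s v (c + Pi.single i0 t)‖) (x := ρ * s.card)
    (by positivity)
  have h5 := h4.trans h1
  refine le_of_mul_le_mul_right ?_ hs0
  refine le_trans (le_of_eq ?_) (h5.trans (le_of_eq ?_)) <;> ring

end Pool.Agent.Run7.h823.BK
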