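import Mathlib

/-!
# Exponential sums over short geometric progressions: good multipliers
-/

set_option autoImplicit false
open Finset
open scoped Pointwise

namespace Pool.Agent.Run7.h823.BK

variable {R : Type*} [CommRing R] [DecidableEq R]

/-- the multiple of a set -/
def mulImg (z : R) (B : Finset R) : Finset R := B.image (z * ·)

theorem mem_mulImg {z x : R} {B : Finset R} : x ∈ mulImg z B ↔ ∃ b ∈ B, z * b = x := by
  unfold mulImg
  rw [Finset.mem_image]

theorem mulImg_add (z : R) (A B : Finset R) : mulImg z (A + B) = mulImg z A + mulImg z B := by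
  ext x
  simp only [mem_mulImg, Finset.mem_add]
  constructor
  · rintro ⟨y, ⟨a, ha, b, hb, rfl⟩, rfl⟩
    exact ⟨z * a, ⟨a, ha, rfl⟩, z * b, ⟨b, hb, rfl⟩, by ring⟩
  · rintro ⟨y, ⟨a, ha, rfl⟩, w, ⟨b, hb, rfl⟩, rfl⟩
    exact ⟨a + b, ⟨a, ha, b, hb, rfl⟩, by ring⟩

theorem mulImg_sub (z : R) (A B : Finset R) : mulImg z (A - B) = mulImg z A - mulImg z B := by
  ext x
  simp only [mem_mulImg, Finset.mem_sub]
  constructor
  · rintro ⟨y, ⟨a, ha, b, hb, rfl⟩, rfl⟩
    exact ⟨z * a, ⟨a, ha, rfl⟩, z * b, ⟨b, hb, rfl⟩, by ring⟩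
  · rintro ⟨y, ⟨a, ha, rfl⟩, w, ⟨b, hb, rfl⟩, rfl⟩
    exact ⟨a - b, ⟨a, ha, b, hb, rfl⟩, by ring⟩

theorem card_mulImg_le (z : R) (B : Finset R) : (mulImg z B).card ≤ B.card :=
  Finset.card_image_le

theorem card_mulImg {z : R} (hz : IsUnit z) (B : Finset R) : (mulImg z B).card = B.card :=
  Finset.card_image_of_injective _ hz.mul_right_injective

theorem mulImg_mulImg (z w : R) (B : Finset R) : mulImg z (mulImg w B) = mulImg (z * w) B := by
  ext x
  simp only [mem_mulImg]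
  constructor
  · rintro ⟨y, ⟨b, hb, rfl⟩, rfl⟩
    exact ⟨b, hb, by ring⟩
  · rintro ⟨b, hb, rfl⟩
    exact ⟨w * b, ⟨b, hb, rfl⟩, by ring⟩

/-- Plünnecke -/
theorem plu {B : Finset R} (hB : B.Nonempty) {K : ℝ} (hK : ((B - B).card : ℝ) ≤ K * B.card)
    (m n : ℕ) : ((m • B - n • B).card : ℝ) ≤ K ^ (m + n) * B.card := by
  have h1 := Finset.pluennecke_ruzsa_inequality_nsmul_sub_nsmul_sub hB B m n
  have h2 : ((m • B - n • B).card : ℝ) ≤ (((B - B).card : ℝ) / B.card) ^ (m + n) * B.card := by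
    have h3 : (((m • B - n • B).card : ℚ≥0) : ℝ) ≤
        (((((B - B).card : ℚ≥0) / (B.card : ℚ≥0)) ^ (m + n) * (B.card : ℚ≥0) : ℚ≥0) : ℝ) := by
      exact_mod_cast h1
    push_cast at h3
    exact h3
  have hB0 : (0 : ℝ) < B.card := by exact_mod_cast hB.card_pos
  refine h2.trans ?_
  gcongr
  rwa [div_le_iff₀ hB0]

theorem plu2 {B : Finset R} (hB : B.Nonempty) {K : ℝ} (hK : ((B - B).card : ℝ) ≤ K * B.card) :
    ((B + B).card : ℝ) ≤ K ^ 2 * B.card := by
  have h := plu hB hK 2 0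
  rwa [zero_nsmul, sub_zero, two_nsmul] at h

theorem plu3 {B : Finset R} (hB : B.Nonempty) {K : ℝ} (hK : ((B - B).card : ℝ) ≤ K * B.card) :
    ((B + (B - B)).card : ℝ) ≤ K ^ 3 * B.card := by
  have h := plu hB hK 2 1
  rwa [one_nsmul, two_nsmul, add_sub_assoc] at h

theorem plu5 {B : Finset R} (hB : B.Nonempty) {K : ℝ} (hK : ((B - B).card : ℝ) ≤ K * B.card) :
    ((B - B + (B - B) + B).card : ℝ) ≤ K ^ 5 * B.card := by
  have h := plu hB hK 3 2
  have e : (3 : ℕ) • B - (2 : ℕ) • B = B - B + (B - B) + B := by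
    have e3 : (3 : ℕ) • B = B + B + B := by
      have := succ_nsmul B 2
      rwa [two_nsmul] at this
    rw [e3, two_nsmul, sub_eq_add_neg, sub_eq_add_neg, neg_add]
    generalize -B = C
    rw [add_right_comm (B + C) (B + C) B, add_right_comm B C B, add_assoc (B + B) C (B + C),
      add_left_comm C B C, add_assoc (B + B) B (C + C)]
  rwa [e] at h

/-- `z` is a good multiplier -/
def Good (B : Finset R) (L : ℝ) (c : ℕ) (z : R) : Prop :=
  ∃ T : Finset R, (T.card : ℝ) ≤ L ^ c ∧ ∀ b ∈ B, ∃ t ∈ T, ∃ x ∈ B, ∃ y ∈ B, z * b = t + (x - y)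

/-- the hypothesis on the set -/
structure Doub (B : Finset R) (L : ℝ) (k : ℕ) : Prop where
  ne : B.Nonempty
  one : 1 ≤ L
  le : ((B - B).card : ℝ) ≤ L ^ k * B.card

variable {B : Finset R} {L : ℝ} {k : ℕ}

theorem Doub.cover (h : Doub B L k) : ∃ T : Finset R, (T.card : ℝ) ≤ L ^ (5 * k) ∧
    ∀ x₁ ∈ B, ∀ y₁ ∈ B, ∀ x₂ ∈ B, ∀ y₂ ∈ B, ∃ t ∈ T, ∃ x ∈ B, ∃ y ∈ B,
      (x₁ - y₁) + (x₂ - y₂) = t + (x - y) := by
  have h1 := plu5 h.ne h.le
  rw [← pow_mul, mul_comm k 5] at h1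
  obtain ⟨F, -, hF1, hF2⟩ := Finset.ruzsa_covering_add h.ne h1
  refine ⟨F, hF1, fun x₁ hx₁ y₁ hy₁ x₂ hx₂ y₂ hy₂ => ?_⟩
  have h2 := hF2 (Finset.add_mem_add (Finset.sub_mem_sub hx₁ hy₁) (Finset.sub_mem_sub hx₂ hy₂))
  obtain ⟨t, ht, w, hw, e⟩ := Finset.mem_add.1 h2
  obtain ⟨x, hx, y, hy, rfl⟩ := Finset.mem_sub.1 hw
  exact ⟨t, ht, x, hx, y, hy, e.symm⟩

theorem Good.mono (h1 : 1 ≤ L) {c c' : ℕ} (hc : c ≤ c') {z : R} (hz : Good B L c z) :
    Good B L c' z := by
  obtain ⟨T, hT, h⟩ := hz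
  exact ⟨T, hT.trans (pow_le_pow_right₀ h1 hc), h⟩

theorem Good.add (h : Doub B L k) {c d : ℕ} {z w : R} (hz : Good B L c z) (hw : Good B L d w) :
    Good B L (c + d + 5 * k) (z + w) := by
  obtain ⟨T, hT, h1⟩ := hz
  obtain ⟨U, hU, h2⟩ := hw
  obtain ⟨V, hV, h3⟩ := h.cover
  refine ⟨T + U + V, ?_, fun b hb => ?_⟩
  · have h4 : ((T + U + V).card : ℝ) ≤ T.card * U.card * V.card := by
      exact_mod_cast (Finset.card_add_le (s := T + U) (t := V)).trans
        (Nat.mul_le_mul_right _ (Finset.card_add_le (s := T) (t := U)))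
    refine h4.trans ?_
    rw [pow_add, pow_add]
    have := h.one
    gcongr
  · obtain ⟨t, ht, x, hx, y, hy, e1⟩ := h1 b hb
    obtain ⟨u, hu, x', hx', y', hy', e2⟩ := h2 b hb
    obtain ⟨v, hv, x'', hx'', y'', hy'', e3⟩ := h3 x hx y hy x' hx' y' hy'
    refine ⟨t + u + v, Finset.add_mem_add (Finset.add_mem_add ht hu) hv, x'', hx'', y'', hy'', ?_⟩
    rw [add_mul, e1, e2]
    linear_combination e3

theorem Good.neg {c : ℕ} {z : R} (hz : Good B L c z) : Good B L c (-z) := by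
  obtain ⟨T, hT, h1⟩ := hz
  refine ⟨-T, by rw [Finset.card_neg]; exact hT, fun b hb => ?_⟩
  obtain ⟨t, ht, x, hx, y, hy, e1⟩ := h1 b hb
  exact ⟨-t, Finset.neg_mem_neg ht, y, hy, x, hx, by linear_combination -e1⟩

theorem Good.sub (h : Doub B L k) {c d : ℕ} {z w : R} (hz : Good B L c z) (hw : Good B L d w) :
    Good B L (c + d + 5 * k) (z - w) := by
  rw [sub_eq_add_neg]
  exact hz.add h hw.neg

theorem Good.mul (h : Doub B L k) {c d : ℕ} {z w : R} (hz : Good B L c z) (hw : Good B L d w) :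
    Good B L (2 * c + d + 5 * k) (z * w) := by
  obtain ⟨T, hT, h1⟩ := hz
  obtain ⟨U, hU, h2⟩ := hw
  obtain ⟨V, hV, h3⟩ := h.cover
  refine ⟨mulImg z U + (T - T) + V, ?_, fun b hb => ?_⟩
  · have h4 : ((mulImg z U + (T - T) + V).card : ℝ) ≤ U.card * (T.card * T.card) * V.card := by
      exact_mod_cast (Finset.card_add_le (s := mulImg z U + (T - T)) (t := V)).trans
        (Nat.mul_le_mul_right _ ((Finset.card_add_le (s := mulImg z U) (t := T - T)).trans
          (Nat.mul_le_mul (card_mulImg_le z U) (Finset.card_sub_le (s := T) (t := T)))))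
    refine h4.trans ?_
    have e : L ^ (2 * c + d + 5 * k) = L ^ d * (L ^ c * L ^ c) * L ^ (5 * k) := by ring
    rw [e]
    have := h.one
    gcongr
  · obtain ⟨u, hu, x, hx, y, hy, e2⟩ := h2 b hb
    obtain ⟨t, ht, x1, hx1, y1, hy1, e3⟩ := h1 x hx
    obtain ⟨t', ht', x2, hx2, y2, hy2, e4⟩ := h1 y hy
    obtain ⟨v, hv, x'', hx'', y'', hy'', e5⟩ := h3 x1 hx1 y1 hy1 y2 hy2 x2 hx2
    refine ⟨z * u + (t - t') + v, Finset.add_mem_add (Finset.add_mem_add
      (mem_mulImg.2 ⟨u, hu, rfl⟩) (Finset.sub_mem_sub ht ht')) hv, x'', hx'', y'', hy'', ?_⟩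
    linear_combination z * e2 + e3 - e4 + e5

theorem Good.card (h : Doub B L k) {c : ℕ} {z : R} (hz : Good B L c z) :
    ((B + mulImg z B).card : ℝ) ≤ L ^ (c + 3 * k) * B.card := by
  obtain ⟨T, hT, h1⟩ := hz
  have hsub : B + mulImg z B ⊆ T + (B + (B - B)) := by
    intro x hx
    obtain ⟨b, hb, w, hw, rfl⟩ := Finset.mem_add.1 hx
    obtain ⟨b', hb', rfl⟩ := mem_mulImg.1 hw
    obtain ⟨t, ht, x, hx, y, hy, e⟩ := h1 b' hb'
    rw [e]
    refine Finset.mem_add.2 ⟨t, ht, b + (x - y), Finset.add_mem_add hb (Finset.sub_mem_sub hx hy), ?_⟩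
    ring
  have h2 : ((B + mulImg z B).card : ℝ) ≤ T.card * ((B + (B - B)).card : ℝ) := by
    exact_mod_cast (Finset.card_le_card hsub).trans (Finset.card_add_le (s := T))
  refine h2.trans ?_
  have h3 := plu3 h.ne h.le
  rw [← pow_mul] at h3
  have h4 := h.one
  calc (T.card : ℝ) * ((B + (B - B)).card : ℝ) ≤ L ^ c * (L ^ (k * 3) * B.card) := by gcongr
    _ = _ := by ring

/-- multipliers with a large overlap are good -/
theorem good_of_overlap (h : Doub B L k) {m : ℕ} {z : R}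
    (hz : (B.card : ℝ) ≤ L ^ m * (mulImg z B ∩ B).card) : Good B L (4 * k + m) z := by
  have hB0 : (0 : ℝ) < B.card := by exact_mod_cast h.ne.card_pos
  have hL := h.one
  have h1 := Finset.ruzsa_triangle_inequality_add_add_add (mulImg z B) (mulImg z B ∩ B) B
  have h2 : (mulImg z B + mulImg z B ∩ B).card ≤ (B + B).card := by
    refine (Finset.card_le_card (Finset.add_subset_add_left Finset.inter_subset_left)).trans ?_
    rw [← mulImg_add]
    exact card_mulImg_le _ _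
  have h3 : (mulImg z B ∩ B + B).card ≤ (B + B).card :=
    Finset.card_le_card (Finset.add_subset_add_right Finset.inter_subset_right)
  have h4 : ((mulImg z B + B).card : ℝ) * (mulImg z B ∩ B).card ≤
      ((B + B).card : ℝ) * (B + B).card := by
    exact_mod_cast h1.trans (Nat.mul_le_mul h2 h3)
  have h5 := plu2 h.ne h.le
  rw [← pow_mul] at h5
  have h6 : ((mulImg z B + B).card : ℝ) ≤ L ^ (4 * k + m) * B.card := by
    have h7 : ((mulImg z B + B).card : ℝ) * B.card ≤ L ^ (4 * k + m) * B.card * B.card := by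
      calc ((mulImg z B + B).card : ℝ) * B.card
          ≤ (mulImg z B + B).card * (L ^ m * (mulImg z B ∩ B).card) := by gcongr
        _ = L ^ m * ((mulImg z B + B).card * (mulImg z B ∩ B).card) := by ring
        _ ≤ L ^ m * ((B + B).card * (B + B).card) := by gcongr
        _ ≤ L ^ m * ((L ^ (k * 2) * B.card) * (L ^ (k * 2) * B.card)) := by gcongr
        _ = _ := by ring
    exact le_of_mul_le_mul_right h7 hB0
  obtain ⟨F, -, hF1, hF2⟩ := Finset.ruzsa_covering_add h.ne h6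
  refine ⟨F, hF1, fun b hb => ?_⟩
  obtain ⟨t, ht, w, hw, e⟩ := Finset.mem_add.1 (hF2 (mem_mulImg.2 ⟨b, hb, rfl⟩))
  obtain ⟨x, hx, y, hy, rfl⟩ := Finset.mem_sub.1 hw
  exact ⟨t, ht, x, hx, y, hy, e.symm⟩

/-- many translates in a small set overlap -/
theorem translates {A H Lam : Finset R} (hA : A.Nonempty) (hH : H.Nonempty)
    (hu : ∀ h ∈ H, IsUnit h) (hsub : ∀ h ∈ H, mulImg h A ⊆ Lam) {M : ℝ} (hM : 0 < M)
    (hLam : (Lam.card : ℝ) ≤ M * A.card) :
    ∃ y ∈ H, ∃ H' ⊆ H, (H.card : ℝ) ≤ 2 * M * H'.card ∧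
      ∀ x ∈ H', (A.card : ℝ) ≤ 2 * M * (mulImg x A ∩ mulImg y A).card := by
  classical
  have hA0 : (0 : ℝ) < A.card := by exact_mod_cast hA.card_pos
  have hH0 : (0 : ℝ) < H.card := by exact_mod_cast hH.card_pos
  have h1 : ∑ l ∈ Lam, ((H.filter fun h => l ∈ mulImg h A).card : ℝ) = H.card * A.card := by
    have h2 : ∀ l ∈ Lam, ((H.filter fun h => l ∈ mulImg h A).card : ℝ) =
        ∑ h ∈ H, if l ∈ mulImg h A then (1 : ℝ) else 0 := by
      intro l _
      rw [Finset.card_filter]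
      push_cast
      rfl
    rw [Finset.sum_congr rfl h2, Finset.sum_comm]
    have h3 : ∀ h ∈ H, (∑ l ∈ Lam, if l ∈ mulImg h A then (1 : ℝ) else 0) = A.card := by
      intro h hh
      rw [← Finset.sum_filter, Finset.sum_const, nsmul_eq_mul, mul_one]
      have : (Lam.filter fun l => l ∈ mulImg h A) = mulImg h A := by
        ext l
        rw [Finset.mem_filter]
        exact ⟨fun h => h.2, fun hl => ⟨hsub h hh hl, hl⟩⟩
      rw [this, card_mulImg (hu h hh)]
    rw [Finset.sum_congr rfl h3, Finset.sum_const, nsmul_eq_mul]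
  have h2 : ∑ l ∈ Lam, ((H.filter fun h => l ∈ mulImg h A).card : ℝ) ^ 2 =
      ∑ y ∈ H, ∑ x ∈ H, ((mulImg x A ∩ mulImg y A).card : ℝ) := by
    have h3 : ∀ l ∈ Lam, ((H.filter fun h => l ∈ mulImg h A).card : ℝ) ^ 2 =
        ∑ y ∈ H, ∑ x ∈ H, if l ∈ mulImg x A ∩ mulImg y A then (1 : ℝ) else 0 := by
      intro l _
      rw [Finset.card_filter]
      push_cast
      rw [sq, Finset.sum_mul_sum]
      refine Finset.sum_congr rfl fun y _ => Finset.sum_congr rfl fun x _ => ?_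
      by_cases h1 : l ∈ mulImg y A <;> by_cases h2 : l ∈ mulImg x A <;>
        simp [h1, h2, Finset.mem_inter]
    rw [Finset.sum_congr rfl h3, Finset.sum_comm]
    refine Finset.sum_congr rfl fun y _ => ?_
    rw [Finset.sum_comm]
    refine Finset.sum_congr rfl fun x hx => ?_
    rw [← Finset.sum_filter, Finset.sum_const, nsmul_eq_mul, mul_one]
    congr 2
    ext l
    rw [Finset.mem_filter]
    exact ⟨fun h => h.2, fun hl => ⟨hsub x hx (Finset.mem_inter.1 hl).1, hl⟩⟩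
  have h3 : ((H.card : ℝ) * A.card) ^ 2 ≤ Lam.card *
      ∑ y ∈ H, ∑ x ∈ H, ((mulImg x A ∩ mulImg y A).card : ℝ) := by
    rw [← h1, ← h2]
    exact sq_sum_le_card_mul_sum_sq
  have h4 : ∑ y ∈ H, (H.card * A.card / M : ℝ) ≤
      ∑ y ∈ H, ∑ x ∈ H, ((mulImg x A ∩ mulImg y A).card : ℝ) := by
    rw [Finset.sum_const, nsmul_eq_mul, mul_div_assoc', div_le_iff₀ hM]
    have h5 : ((H.card : ℝ) * A.card) ^ 2 ≤ M * A.card *
        ∑ y ∈ H, ∑ x ∈ H, ((mulImg x A ∩ mulImg y A).card : ℝ) := by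
      refine h3.trans (mul_le_mul_of_nonneg_right hLam ?_)
      exact Finset.sum_nonneg fun _ _ => Finset.sum_nonneg fun _ _ => Nat.cast_nonneg _
    refine le_of_mul_le_mul_left ?_ hA0
    nlinarith
  obtain ⟨y, hy, h5⟩ := Finset.exists_le_of_sum_le hH h4
  refine ⟨y, hy, H.filter fun x => (A.card : ℝ) ≤ 2 * M * (mulImg x A ∩ mulImg y A).card,
    Finset.filter_subset _ _, ?_, fun x hx => (Finset.mem_filter.1 hx).2⟩
  set H' := H.filter fun x => (A.card : ℝ) ≤ 2 * M * (mulImg x A ∩ mulImg y A).card with hH'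
  have h6 : ∑ x ∈ H, ((mulImg x A ∩ mulImg y A).card : ℝ) ≤
      H'.card * A.card + H.card * (A.card / (2 * M)) := by
    rw [← Finset.sum_filter_add_sum_filter_not H
      (fun x => (A.card : ℝ) ≤ 2 * M * (mulImg x A ∩ mulImg y A).card)]
    refine add_le_add ?_ ?_
    · rw [← nsmul_eq_mul, ← Finset.sum_const]
      refine Finset.sum_le_sum fun x _ => ?_
      have : (mulImg x A ∩ mulImg y A).card ≤ A.card :=
        (Finset.card_le_card Finset.inter_subset_left).trans (card_mulImg_le _ _)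
      exact_mod_cast this
    · calc _ ≤ ∑ x ∈ H.filter fun x => ¬ (A.card : ℝ) ≤ 2 * M * (mulImg x A ∩ mulImg y A).card,
            (A.card / (2 * M) : ℝ) := by
            refine Finset.sum_le_sum fun x hx => ?_
            have h7 := not_le.1 (Finset.mem_filter.1 hx).2
            rw [le_div_iff₀ (by positivity)]
            linarith
        _ ≤ _ := by
            rw [Finset.sum_const, nsmul_eq_mul]
            have : ((H.filter fun x =>
                ¬ (A.card : ℝ) ≤ 2 * M * (mulImg x A ∩ mulImg y A).card).card : ℝ) ≤ H.card := by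
              exact_mod_cast Finset.card_le_card (Finset.filter_subset _ _)
            gcongr
  have h7 := h5.trans h6
  have h8 : (H.card : ℝ) * A.card / M = 2 * (H.card * (A.card / (2 * M))) := by
    field_simp
  have h9 : (H.card : ℝ) * (A.card / (2 * M)) ≤ H'.card * A.card := by linarith
  rw [mul_div_assoc', div_le_iff₀ (by positivity)] at h9
  refine le_of_mul_le_mul_right ?_ hA0
  linarith

end Pool.Agent.Run7.h823.BK
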