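import Pool.Agent.Run7.h823.BK2

/-!
# Exponential sums over short geometric progressions: growth of good multipliers
-/

set_option autoImplicit false
open Finset
open scoped Pointwise

namespace Pool.Agent.Run7.h823.BK

/-- collisions of a function on a finite set -/
theorem coll {α β : Type*} [DecidableEq β] (P : Finset α) (f : α → β) :
    P.card ^ 2 ≤ (P.image f).card * ((P ×ˢ P).filter fun x => f x.1 = f x.2).card := by
  classical
  have h1 : P.card = ∑ b ∈ P.image f, (P.filter fun a => f a = b).card :=
    Finset.card_eq_sum_card_image f P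
  have h2 : ((P ×ˢ P).filter fun x => f x.1 = f x.2).card =
      ∑ b ∈ P.image f, (P.filter fun a => f a = b).card ^ 2 := by
    have h3 : ((P ×ˢ P).filter fun x => f x.1 = f x.2).card =
        ∑ b ∈ P.image f, (((P ×ˢ P).filter fun x => f x.1 = f x.2).filter
          fun x => f x.1 = b).card :=
      Finset.card_eq_sum_card_fiberwise fun x hx => by
        have := (Finset.mem_filter.1 hx).1
        exact Finset.mem_image_of_mem f (Finset.mem_product.1 this).1
    rw [h3]
    refine Finset.sum_congr rfl fun b _ => ?_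
    rw [sq, ← Finset.card_product]
    congr 1
    ext x
    simp only [Finset.mem_filter, Finset.mem_product]
    constructor
    · rintro ⟨⟨⟨h1, h2⟩, h3⟩, h4⟩
      exact ⟨⟨h1, h4⟩, h2, by rw [← h3, h4]⟩
    · rintro ⟨⟨h1, h4⟩, h2, h5⟩
      exact ⟨⟨⟨h1, h2⟩, by rw [h4, h5]⟩, h4⟩
  rw [h2]
  calc P.card ^ 2 = (∑ b ∈ P.image f, (P.filter fun a => f a = b).card) ^ 2 := by rw [← h1]
    _ ≤ _ := sq_sum_le_card_mul_sum_sq

variable {p : ℕ} [hp : Fact p.Prime]

/-- the average number of collisions over all dilations -/
theorem avg {V : Type*} [AddCommGroup V] [Module (ZMod p) V] [DecidableEq V] {e : V} (he : e ≠ 0)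
    (B : Finset V) (U : Finset (ZMod p)) (Fm : ℕ)
    (hF : ∀ b ∈ B, ∀ D : Finset V, D ⊆ B → (∀ b' ∈ D, ∃ x : ZMod p, b' = b + x • e) → D.card ≤ Fm) :
    ∃ t : ZMod p, p * (B.card * U.card) ^ 2 ≤
      ((B ×ˢ U).image fun x => x.1 + (t * x.2) • e).card *
        (p * (B.card * U.card) + B.card * Fm * U.card ^ 2) := by
  classical
  set P := B ×ˢ U with hP
  have hPc : P.card = B.card * U.card := Finset.card_product _ _
  set N : ZMod p → ℕ := fun t =>
    ((P ×ˢ P).filter fun x => x.1.1 + (t * x.1.2) • e = x.2.1 + (t * x.2.2) • e).card with hN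
  have hsum : ∑ t, N t ≤ p * P.card + B.card * Fm * U.card ^ 2 := by
    have h1 : ∑ t, N t = ∑ x ∈ P ×ˢ P,
        (univ.filter fun t : ZMod p => x.1.1 + (t * x.1.2) • e = x.2.1 + (t * x.2.2) • e).card := by
      simp only [hN, Finset.card_filter]
      exact Finset.sum_comm
    have h2 : ∀ x ∈ P ×ˢ P,
        (univ.filter fun t : ZMod p => x.1.1 + (t * x.1.2) • e = x.2.1 + (t * x.2.2) • e).card ≤
        (if x.1 = x.2 then p else 0) +
          (if ∃ y : ZMod p, x.2.1 = x.1.1 + y • e then 1 else 0) := by
      rintro ⟨⟨b, u⟩, ⟨b', u'⟩⟩ _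
      simp only [Prod.mk.injEq]
      by_cases h3 : ∃ y : ZMod p, b' = b + y • e
      · rw [if_pos h3]
        by_cases h4 : u = u'
        · subst h4
          by_cases h5 : b = b'
          · rw [if_pos ⟨h5, rfl⟩]
            refine (Finset.card_le_univ _).trans ?_
            rw [ZMod.card]
            omega
          · have : (univ.filter fun t : ZMod p => b + (t * u) • e = b' + (t * u) • e) = ∅ := by
              rw [Finset.filter_eq_empty_iff]
              intro t _ h
              exact h5 (add_right_cancel h)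
            rw [this]
            simp
        · have : (univ.filter fun t : ZMod p => b + (t * u) • e = b' + (t * u') • e).card ≤ 1 := by
            rw [Finset.card_le_one]
            intro s hs t ht
            have hs := (Finset.mem_filter.1 hs).2
            have ht := (Finset.mem_filter.1 ht).2
            have h6 : ((s - t) * (u - u')) • e = 0 := by
              have e1 : ((s - t) * (u - u')) • e = ((b + (s * u) • e) - (b' + (s * u') • e)) -
                  ((b + (t * u) • e) - (b' + (t * u') • e)) := by
                rw [sub_mul, mul_sub, mul_sub, sub_smul, sub_smul, sub_smul]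
                abel
              rw [e1, hs, ht]
              abel
            rcases smul_eq_zero.1 h6 with h7 | h7
            · rcases mul_eq_zero.1 h7 with h8 | h8
              · exact sub_eq_zero.1 h8
              · exact absurd (sub_eq_zero.1 h8) h4
            · exact absurd h7 he
          exact this.trans (by omega)
      · have : (univ.filter fun t : ZMod p => b + (t * u) • e = b' + (t * u') • e) = ∅ := by
          rw [Finset.filter_eq_empty_iff]
          intro t _ h
          refine h3 ⟨t * u - t * u', ?_⟩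
          rw [sub_smul, add_sub, h]
          abel
        rw [this]
        simp
    rw [h1]
    refine (Finset.sum_le_sum h2).trans ?_
    rw [Finset.sum_add_distrib]
    refine add_le_add ?_ ?_
    · rw [← Finset.sum_filter, Finset.sum_const, smul_eq_mul, mul_comm]
      refine Nat.mul_le_mul_left _ (le_of_eq ?_)
      rw [← Finset.diag_card P]
      congr 1
      ext ⟨a, b⟩
      simp only [Finset.mem_filter, Finset.mem_product, Finset.mem_diag]
      constructor
      · rintro ⟨⟨h1, -⟩, h2⟩
        exact ⟨h1, h2⟩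
      · rintro ⟨h1, h2⟩
        exact ⟨⟨h1, h2 ▸ h1⟩, h2⟩
    · have h3 : ∑ x ∈ P ×ˢ P, (if ∃ y : ZMod p, x.2.1 = x.1.1 + y • e then 1 else 0) =
          ∑ x ∈ P, ∑ y ∈ P, (if ∃ z : ZMod p, y.1 = x.1 + z • e then 1 else 0) :=
        Finset.sum_product _ _ _
      rw [h3]
      have h4 : ∀ x ∈ P, (∑ y ∈ P, (if ∃ z : ZMod p, y.1 = x.1 + z • e then 1 else 0)) ≤
          Fm * U.card := by
        intro x hx
        rw [hP, Finset.sum_product, ← Finset.sum_filter_add_sum_filter_not B
          (fun b' => ∃ z : ZMod p, b' = x.1 + z • e)]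
        have h5 : ∑ b' ∈ B.filter (fun b' => ¬ ∃ z : ZMod p, b' = x.1 + z • e),
            (∑ _y ∈ U, if ∃ z : ZMod p, b' = x.1 + z • e then 1 else 0) = 0 := by
          refine Finset.sum_eq_zero fun b' hb' => ?_
          rw [if_neg (Finset.mem_filter.1 hb').2]
          simp
        have h6 : ∑ b' ∈ B.filter (fun b' => ∃ z : ZMod p, b' = x.1 + z • e),
            (∑ _y ∈ U, if ∃ z : ZMod p, b' = x.1 + z • e then 1 else 0) =
            (B.filter (fun b' => ∃ z : ZMod p, b' = x.1 + z • e)).card * U.card := by
          rw [Finset.sum_congr rfl fun b' hb' => by rw [if_pos (Finset.mem_filter.1 hb').2]]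
          simp
        rw [h5, h6, add_zero]
        refine Nat.mul_le_mul_right _ ?_
        exact hF x.1 (Finset.mem_product.1 hx).1 _ (Finset.filter_subset _ _)
          fun b' hb' => (Finset.mem_filter.1 hb').2
      refine (Finset.sum_le_sum h4).trans ?_
      rw [Finset.sum_const, smul_eq_mul, hPc]
      exact le_of_eq (by ring)
  have h5 : ∑ t : ZMod p, p * N t ≤ ∑ _t : ZMod p, ∑ t, N t := by
    rw [Finset.sum_const, Finset.card_univ, ZMod.card, smul_eq_mul, Finset.mul_sum]
  obtain ⟨t, -, ht⟩ := Finset.exists_le_of_sum_le (Finset.univ_nonempty) h5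
  refine ⟨t, ?_⟩
  have h6 := coll P (fun x => x.1 + (t * x.2) • e)
  rw [← hPc]
  calc p * P.card ^ 2 ≤ p * ((P.image fun x => x.1 + (t * x.2) • e).card * N t) :=
        Nat.mul_le_mul_left _ h6
    _ = (P.image fun x => x.1 + (t * x.2) • e).card * (p * N t) := by ring
    _ ≤ _ := Nat.mul_le_mul_left _ (ht.trans hsum)

/-- the quotient set argument -/
theorem quot (U : Finset (ZMod p)) (hU : 2 ≤ U.card) : ∃ a ∈ U, ∃ b ∈ U, ∃ c ∈ U, ∃ d ∈ U,
    ∃ τ : Bool, min (U.card ^ 2) p ≤ 2 * ((U ×ˢ U).image fun x =>
      (c - d) * x.1 + ((a - b) + (if τ then c - d else 0)) * x.2).card := by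
  classical
  set Q : ZMod p → Prop := fun ξ => ∃ a ∈ U, ∃ b ∈ U, ∃ c ∈ U, ∃ d ∈ U, c ≠ d ∧
    ξ * (c - d) = a - b with hQ
  by_cases hcl : ∀ ξ, Q ξ → Q (ξ + 1)
  · have hall : ∀ n : ℕ, Q n := by
      intro n
      induction n with
      | zero =>
        obtain ⟨c, hc, d, hd, hcd⟩ := Finset.one_lt_card.1 (by omega : 1 < U.card)
        exact ⟨c, hc, c, hc, c, hc, d, hd, hcd, by simp⟩
      | succ n ih =>
        have := hcl _ ih
        push_cast
        exact this
    obtain ⟨t, ht⟩ := avg (p := p) (V := ZMod p) (e := 1) one_ne_zero U U U.card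
      (fun b _ D hD _ => Finset.card_le_card hD)
    obtain ⟨a, ha, b, hb, c, hc, d, hd, hcd, hξ⟩ : Q t := by
      have := hall t.val
      rwa [ZMod.natCast_zmod_val] at this
    refine ⟨a, ha, b, hb, c, hc, d, hd, false, ?_⟩
    have hcd0 : c - d ≠ 0 := sub_ne_zero.2 hcd
    have himg : ((U ×ˢ U).image fun x => x.1 + (t * x.2) • (1 : ZMod p)).card =
        ((U ×ˢ U).image fun x => (c - d) * x.1 +
          ((a - b) + (if false = true then c - d else 0)) * x.2).card := by
      have : ((U ×ˢ U).image fun x => (c - d) * x.1 +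
          ((a - b) + (if false = true then c - d else 0)) * x.2) =
          (((U ×ˢ U).image fun x => x.1 + (t * x.2) • (1 : ZMod p))).image ((c - d) * ·) := by
        rw [Finset.image_image]
        refine Finset.image_congr fun x _ => ?_
        simp only [Function.comp, smul_eq_mul, mul_one, Bool.false_eq_true, if_false, add_zero]
        rw [← hξ]
        ring
      rw [this, Finset.card_image_of_injective _ (mul_right_injective₀ hcd0)]
    rw [himg] at ht
    set W := ((U ×ˢ U).image fun x => (c - d) * x.1 +
          ((a - b) + (if false = true then c - d else 0)) * x.2).card with hW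
    set u := U.card with hu
    have hu0 : 0 < u ^ 2 := pow_pos (by omega) 2
    have h1 : p * u ^ 2 ≤ W * (p + u ^ 2) := by
      have : u ^ 2 * (p * u ^ 2) ≤ u ^ 2 * (W * (p + u ^ 2)) := by
        calc u ^ 2 * (p * u ^ 2) = p * (u * u) ^ 2 := by ring
          _ ≤ _ := ht
          _ = _ := by ring
      exact Nat.le_of_mul_le_mul_left this hu0
    have hp0 : 0 < p := hp.out.pos
    rcases le_total (u ^ 2) p with h2 | h2
    · rw [min_eq_left h2]
      have : p * u ^ 2 ≤ p * (2 * W) := by
        calc p * u ^ 2 ≤ W * (p + u ^ 2) := h1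
          _ ≤ W * (p + p) := Nat.mul_le_mul_left _ (by omega)
          _ = _ := by ring
      exact Nat.le_of_mul_le_mul_left this hp0
    · rw [min_eq_right h2]
      have : u ^ 2 * p ≤ u ^ 2 * (2 * W) := by
        calc u ^ 2 * p = p * u ^ 2 := by ring
          _ ≤ W * (p + u ^ 2) := h1
          _ ≤ W * (u ^ 2 + u ^ 2) := Nat.mul_le_mul_left _ (by omega)
          _ = _ := by ring
      exact Nat.le_of_mul_le_mul_left this hu0
  · push Not at hcl
    obtain ⟨ξ, ⟨a, ha, b, hb, c, hc, d, hd, hcd, hξ⟩, hn⟩ := hcl
    refine ⟨a, ha, b, hb, c, hc, d, hd, true, ?_⟩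
    have hcd0 : c - d ≠ 0 := sub_ne_zero.2 hcd
    have hinj : Set.InjOn (fun x : ZMod p × ZMod p => (c - d) * x.1 +
        ((a - b) + (if true = true then c - d else 0)) * x.2) (U ×ˢ U : Finset _) := by
      rintro ⟨x, y⟩ hx ⟨x', y'⟩ hx' h
      rw [Finset.mem_coe, Finset.mem_product] at hx hx'
      replace h : (c - d) * x + ((a - b) + (if true = true then c - d else 0)) * y =
        (c - d) * x' + ((a - b) + (if true = true then c - d else 0)) * y' := h
      rw [if_pos rfl] at h
      by_cases hy : y = y'
      · subst hy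
        have h2 := mul_left_cancel₀ hcd0 (add_right_cancel h)
        rw [h2]
      · exfalso
        apply hn
        refine ⟨x', hx'.1, x, hx.1, y, hx.2, y', hx'.2, hy, ?_⟩
        apply mul_left_cancel₀ hcd0
        rw [← hξ] at h
        linear_combination h
    rw [Finset.card_image_of_injOn hinj, Finset.card_product]
    refine (min_le_left _ _).trans ?_
    nlinarith [Nat.zero_le (U.card)]

end Pool.Agent.Run7.h823.BK
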