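import Pool.Agent.Run7.h823.BK3

/-!
# Exponential sums over short geometric progressions: all multiples of the unit vectors are good
-/

set_option autoImplicit false
open Finset
open scoped Pointwise

namespace Pool.Agent.Run7.h823.BK

variable {p : ℕ} [hp : Fact p.Prime] {R : Type*} [CommRing R] [DecidableEq R]
variable {B : Finset R} {L : ℝ} {k : ℕ}

/-- one step of the growth -/
theorem step (hD : Doub B L k) (π : R →+* ZMod p) {X : Finset R} {c : ℕ}
    (hX : ∀ x ∈ X, Good B L c x) (h2 : 2 ≤ (X.image π).card) :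
    ∃ X' : Finset R, (∀ x ∈ X', Good B L (14 * c + 55 * k) x) ∧
      min ((X.image π).card ^ 2) p ≤ 2 * (X'.image π).card := by
  classical
  obtain ⟨a', ha', b', hb', c', hc', d', hd', τ, hτ⟩ := quot (X.image π) h2
  obtain ⟨a, ha, rfl⟩ := Finset.mem_image.1 ha'
  obtain ⟨b, hb, rfl⟩ := Finset.mem_image.1 hb'
  obtain ⟨c0, hc, rfl⟩ := Finset.mem_image.1 hc'
  obtain ⟨d, hd, rfl⟩ := Finset.mem_image.1 hd'
  refine ⟨(X ×ˢ X).image fun x => (c0 - d) * x.1 +
    ((a - b) + (if τ then c0 - d else 0)) * x.2, ?_, ?_⟩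
  · intro x hx
    obtain ⟨⟨x, y⟩, hxy, rfl⟩ := Finset.mem_image.1 hx
    obtain ⟨hx, hy⟩ := Finset.mem_product.1 hxy
    have g1 := ((hX c0 hc).sub hD (hX d hd)).mul hD (hX x hx)
    have g2 := (hX a ha).sub hD (hX b hb)
    have g3 : Good B L (4 * c + 15 * k) ((a - b) + (if τ then c0 - d else 0)) := by
      cases τ
      · simp only [Bool.false_eq_true, if_false, add_zero]
        exact g2.mono hD.one (by omega)
      · simp only [if_true]
        exact (g2.add hD ((hX c0 hc).sub hD (hX d hd))).mono hD.one (by omega)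
    exact (g1.add hD (g3.mul hD (hX y hy))).mono hD.one (by omega)
  · rw [Finset.image_image]
    refine hτ.trans (Nat.mul_le_mul_left _ (Finset.card_le_card ?_))
    intro z hz
    obtain ⟨⟨u, v⟩, huv, rfl⟩ := Finset.mem_image.1 hz
    obtain ⟨hu, hv⟩ := Finset.mem_product.1 huv
    obtain ⟨x, hx, rfl⟩ := Finset.mem_image.1 hu
    obtain ⟨y, hy, rfl⟩ := Finset.mem_image.1 hv
    refine Finset.mem_image.2 ⟨(x, y), Finset.mem_product.2 ⟨hx, hy⟩, ?_⟩
    simp only [Function.comp, map_add, map_mul, map_sub]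
    cases τ <;> simp

/-- the level after `t` steps -/
def lev (c k : ℕ) : ℕ → ℕ
  | 0 => c
  | t + 1 => 14 * lev c k t + 55 * k

theorem lev_ge (c k t : ℕ) : c ≤ lev c k t := by
  induction t with
  | zero => exact le_rfl
  | succ t ih => rw [lev]; omega

theorem iterate (hD : Doub B L k) (π : R →+* ZMod p) {X : Finset R} {c : ℕ}
    (hX : ∀ x ∈ X, Good B L c x) {w : ℝ} (hw : 1 ≤ w) (h2 : 2 * w ≤ (X.image π).card)
    (hp4 : 4 ≤ p) (t : ℕ) :
    ∃ X' : Finset R, (∀ x ∈ X', Good B L (lev c k t) x) ∧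
      min (2 * w ^ (2 ^ t)) ((p : ℝ) / 2) ≤ ((X'.image π).card : ℝ) := by
  have hp4' : (4 : ℝ) ≤ p := by exact_mod_cast hp4
  induction t with
  | zero =>
    refine ⟨X, hX, ?_⟩
    rw [pow_zero, pow_one]
    exact (min_le_left _ _).trans h2
  | succ t ih =>
    obtain ⟨X', hX', h3⟩ := ih
    have hw1 : 1 ≤ w ^ 2 ^ t := one_le_pow₀ hw
    have h4 : (2 : ℝ) ≤ (X'.image π).card := by
      refine le_trans (le_min ?_ ?_) h3 <;> linarith
    obtain ⟨X'', h5, h6⟩ := step hD π hX' (by exact_mod_cast h4)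
    refine ⟨X'', h5, ?_⟩
    have h7 : min (((X'.image π).card : ℝ) ^ 2) p ≤ 2 * (X''.image π).card := by exact_mod_cast h6
    have e : w ^ 2 ^ (t + 1) = (w ^ 2 ^ t) ^ 2 := by rw [← pow_mul, pow_succ]
    rw [e]
    set y := w ^ 2 ^ t with hy
    set u : ℝ := ((X'.image π).card : ℝ) with hu
    have h8 : min (2 * y ^ 2) ((p : ℝ) / 2) ≤ min (u ^ 2) (p : ℝ) / 2 := by
      rw [le_div_iff₀ (by norm_num : (0 : ℝ) < 2)]
      refine le_min ?_ ?_
      · rcases le_total (2 * y) (p / 2 : ℝ) with h9 | h9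
        · rw [min_eq_left h9] at h3
          have : min (2 * y ^ 2) (p / 2 : ℝ) ≤ 2 * y ^ 2 := min_le_left _ _
          nlinarith
        · rw [min_eq_right h9] at h3
          have : min (2 * y ^ 2) (p / 2 : ℝ) ≤ p / 2 := min_le_right _ _
          nlinarith
      · have : min (2 * y ^ 2) (p / 2 : ℝ) ≤ p / 2 := min_le_right _ _
        linarith
    linarith

/-- a section of the projection by good multipliers -/
theorem section_good (hD : Doub B L k) (π : R →+* ZMod p) {X : Finset R} {c : ℕ}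
    (hX : ∀ x ∈ X, Good B L c x) {w : ℝ} (hw : 1 ≤ w) (h2 : 2 * w ≤ (X.image π).card)
    (hp4 : 4 ≤ p) {t : ℕ} (ht : (p : ℝ) ≤ w ^ (2 ^ t)) :
    ∃ f : ZMod p → R, ∀ x, Good B L (3 * lev c k t + 10 * k) (f x) ∧ π (f x) = x := by
  obtain ⟨X', hX', h3⟩ := iterate hD π hX hw h2 hp4 t
  have hp4' : (4 : ℝ) ≤ p := by exact_mod_cast hp4
  rw [min_eq_right (by linarith)] at h3
  set U := X'.image π with hU
  have h4 : (2 : ℝ) ≤ U.card := by linarith
  have h4' : 2 ≤ U.card := by exact_mod_cast h4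
  have h5 : p ≤ 2 * U.card := by
    have : (p : ℝ) ≤ 2 * U.card := by linarith
    exact_mod_cast this
  have hne : U.Nonempty := Finset.card_pos.1 (by omega)
  have h6 := ZMod.cauchy_davenport hp.out hne hne
  have h7 := ZMod.cauchy_davenport hp.out (hne.add hne) hne
  have h8 : U + U + U = univ := by
    apply Finset.eq_univ_of_card
    rw [ZMod.card]
    have h9 : (U + U + U).card ≤ p := by
      have := Finset.card_le_univ (U + U + U)
      rwa [ZMod.card] at this
    omega
  have key : ∀ x : ZMod p, ∃ y : R, Good B L (3 * lev c k t + 10 * k) y ∧ π y = x := by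
    intro x
    have hx : x ∈ U + U + U := by rw [h8]; exact Finset.mem_univ _
    obtain ⟨u, hu, u3, hu3, rfl⟩ := Finset.mem_add.1 hx
    obtain ⟨u1, hu1, u2, hu2, rfl⟩ := Finset.mem_add.1 hu
    obtain ⟨x1, hx1, rfl⟩ := Finset.mem_image.1 hu1
    obtain ⟨x2, hx2, rfl⟩ := Finset.mem_image.1 hu2
    obtain ⟨x3, hx3, rfl⟩ := Finset.mem_image.1 hu3
    refine ⟨x1 + x2 + x3, ?_, by rw [map_add, map_add]⟩
    exact (((hX' x1 hx1).add hD (hX' x2 hx2)).add hD (hX' x3 hx3)).mono hD.one (by omega)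
  choose f hf using key
  exact ⟨f, hf⟩

/-- separation of two projections -/
theorem separate (hD : Doub B L k) (π ρ : R →+* ZMod p) {f : ZMod p → R} {c : ℕ}
    (hf : ∀ x, Good B L c (f x) ∧ π (f x) = x) {z : R} (hz : Good B L c z)
    (hz0 : ρ z ≠ 0) (hne : π z ≠ ρ z) :
    ∃ u, Good B L (4 * c + 10 * k) u ∧ π u = 0 ∧ ρ u ≠ 0 := by
  by_contra hcon
  push Not at hcon
  have hadd : ∀ x y, ρ (f (x + y)) = ρ (f x) + ρ (f y) := by
    intro x y
    have h1 := hcon (f x + f y - f (x + y))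
      ((((hf x).1.add hD (hf y).1).sub hD (hf (x + y)).1).mono hD.one (by omega))
      (by rw [map_sub, map_add, (hf x).2, (hf y).2, (hf (x + y)).2, sub_self])
    rw [map_sub, map_add, sub_eq_zero] at h1
    exact h1.symm
  have hid : ρ (f 1) * ρ (f 1) = ρ (f 1) := by
    have h1 := hcon (f 1 * f 1 - f 1)
      ((((hf 1).1.mul hD (hf 1).1).sub hD (hf 1).1).mono hD.one (by omega))
      (by rw [map_sub, map_mul, (hf 1).2, mul_one, sub_self])
    rwa [map_sub, map_mul, sub_eq_zero] at h1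
  have hzz : ρ (f (π z)) = ρ z := by
    have h1 := hcon (f (π z) - z) (((hf (π z)).1.sub hD hz).mono hD.one (by omega))
      (by rw [map_sub, (hf (π z)).2, sub_self])
    rwa [map_sub, sub_eq_zero] at h1
  have hnat : ∀ n : ℕ, ρ (f n) = n * ρ (f 1) := by
    intro n
    induction n with
    | zero =>
      have := hadd 0 0
      rw [add_zero] at this
      push_cast
      rw [zero_mul]
      exact (add_eq_left.1 this.symm)
    | succ n ih =>
      push_cast
      rw [hadd, ih]
      ring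
  have hall : ∀ x : ZMod p, ρ (f x) = x * ρ (f 1) := by
    intro x
    have := hnat x.val
    rwa [ZMod.natCast_zmod_val] at this
  rw [hall (π z)] at hzz
  by_cases h0 : ρ (f 1) = 0
  · rw [h0, mul_zero] at hzz
    exact hz0 hzz.symm
  · have : ρ (f 1) = 1 := mul_left_cancel₀ h0 (by rw [hid, mul_one])
    rw [this, mul_one] at hzz
    exact hne hzz

/-- products of good multipliers -/
theorem prod_good (hD : Doub B L k) {α : Type*} [DecidableEq α] (s : Finset α) (u : α → R)
    {c : ℕ} (hu : ∀ i ∈ s, Good B L c (u i)) :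
    Good B L (s.card * (2 * c + 5 * k)) (∏ i ∈ s, u i) := by
  induction s using Finset.induction_on with
  | empty =>
    obtain ⟨b0, hb0⟩ := hD.ne
    refine ⟨{b0}, by simp, fun b hb => ⟨b0, Finset.mem_singleton_self _, b, hb, b0, hb0, ?_⟩⟩
    simp
  | insert a s ha ih =>
    rw [Finset.prod_insert ha, Finset.card_insert_of_notMem ha]
    refine ((hu a (Finset.mem_insert_self a s)).mul hD
      (ih fun i hi => hu i (Finset.mem_insert_of_mem hi))).mono hD.one ?_
    rw [add_mul]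
    omega

/-- the final level -/
def fin (r c k t : ℕ) : ℕ :=
  2 * (r * (2 * (4 * (3 * lev c k t + 10 * k) + 10 * k) + 5 * k)) +
    (3 * lev c k t + 10 * k) + 5 * k

/-- all multiples of the unit vectors are good -/
theorem single_good {r : ℕ} {B : Finset (Fin r → ZMod p)} (hD : Doub B L k)
    {Z : Finset (Fin r → ZMod p)} {c : ℕ} (hZ : ∀ z ∈ Z, Good B L c z)
    (hZ0 : ∀ z ∈ Z, ∀ i, z i ≠ 0) {w : ℝ} (hw : 1 ≤ w)
    (hcard : ∀ i, 2 * w ≤ ((Z.image fun z => z i).card : ℝ))
    (hsep : ∀ i j, i ≠ j → ∃ z ∈ Z, z i ≠ z j)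
    (hp4 : 4 ≤ p) {t : ℕ} (ht : (p : ℝ) ≤ w ^ (2 ^ t)) (i : Fin r) (x : ZMod p) :
    Good B L (fin r c k t) (Pi.single i x) := by
  set π : Fin r → ((Fin r → ZMod p) →+* ZMod p) := fun j => Pi.evalRingHom (fun _ => ZMod p) j
    with hπ
  have hsec : ∀ j, ∃ f : ZMod p → (Fin r → ZMod p), ∀ x,
      Good B L (3 * lev c k t + 10 * k) (f x) ∧ π j (f x) = x := fun j =>
    section_good hD (π j) hZ hw (hcard j) hp4 ht
  choose f hf using hsec
  set c' := 3 * lev c k t + 10 * k with hc'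
  have hcc : c ≤ c' := by
    have := lev_ge c k t
    omega
  have hu : ∀ j, ∃ u : Fin r → ZMod p, j ≠ i → (Good B L (4 * c' + 10 * k) u ∧ u j = 0 ∧
      u i ≠ 0) := by
    intro j
    by_cases hji : j = i
    · exact ⟨0, fun h => absurd hji h⟩
    · obtain ⟨z, hz, hne⟩ := hsep j i hji
      obtain ⟨u, h1, h2, h3⟩ := separate hD (π j) (π i) (hf j) ((hZ z hz).mono hD.one hcc)
        (hZ0 z hz i) hne
      exact ⟨u, fun _ => ⟨h1, h2, h3⟩⟩
  choose u hu using hu
  have h1 := prod_good hD (univ.erase i) u (fun j hj => (hu j (Finset.ne_of_mem_erase hj)).1)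
  set e := ∏ j ∈ univ.erase i, u j with he
  have hei : e i ≠ 0 := by
    rw [he, Finset.prod_apply]
    exact Finset.prod_ne_zero_iff.2 fun j hj => (hu j (Finset.ne_of_mem_erase hj)).2.2
  have hej : ∀ j, j ≠ i → e j = 0 := by
    intro j hj
    rw [he, Finset.prod_apply]
    exact Finset.prod_eq_zero (Finset.mem_erase.2 ⟨hj, Finset.mem_univ _⟩) (hu j hj).2.1
  have h2 : e * f i (x / e i) = Pi.single i x := by
    funext j
    rw [Pi.mul_apply]
    by_cases hj : j = i
    · subst hj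
      have h3 : f j (x / e j) j = x / e j := (hf j (x / e j)).2
      rw [h3, Pi.single_eq_same, mul_div_cancel₀ _ hei]
    · rw [hej j hj, zero_mul, Pi.single_eq_of_ne hj]
  rw [← h2]
  refine (h1.mul hD (hf i _).1).mono hD.one ?_
  have h3 : (univ.erase i).card ≤ r := by
    rw [Finset.card_erase_of_mem (Finset.mem_univ _), Finset.card_univ, Fintype.card_fin]
    omega
  unfold fin
  rw [← hc']
  have := Nat.mul_le_mul_right (2 * (4 * c' + 10 * k) + 5 * k) h3
  omega

end Pool.Agent.Run7.h823.BK
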