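import Pool.Agent.Run7.h823.BK1
import Pool.Agent.Run7.h823.BK4

/-!
# Exponential sums over short geometric progressions: the core estimate
-/

set_option autoImplicit false
open Finset
open scoped Pointwise

namespace Pool.Agent.Run7.h823.BK

variable {p : ℕ} [hp : Fact p.Prime] {r : ℕ}

/-- a set with good multiples of the unit vectors and short fibres has small projections -/
theorem small_proj {B : Finset (Fin r → ZMod p)} {L : ℝ} {k C : ℕ} (hD : Doub B L k)
    (hg : ∀ i x, Good B L C (Pi.single i x)) {Fm : ℝ} (i : Fin r)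
    (hF : ∀ b ∈ B, ∀ D : Finset (Fin r → ZMod p), D ⊆ B →
      (∀ b' ∈ D, ∃ x : ZMod p, b' = b + Pi.single i x) → (D.card : ℝ) ≤ Fm)
    (hFm : 2 * (L ^ (C + 3 * k) * Fm) ≤ p) :
    ((B.image fun b => b i).card : ℝ) ≤ 2 * L ^ (C + 3 * k) := by
  classical
  set U := B.image fun b => b i with hU
  have hB0 : (0 : ℝ) < B.card := by exact_mod_cast hD.ne.card_pos
  have hU0 : (0 : ℝ) < U.card := by exact_mod_cast (hD.ne.image _).card_pos
  have hp0 : (0 : ℝ) < p := by exact_mod_cast hp.out.pos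
  have hsm : ∀ x : ZMod p, (x • (Pi.single i 1 : Fin r → ZMod p)) = Pi.single i x := by
    intro x
    rw [← Pi.single_smul, smul_eq_mul, mul_one]
  have hF0 : 0 ≤ Fm := by
    obtain ⟨b, hb⟩ := hD.ne
    exact le_trans (Nat.cast_nonneg _) (hF b hb ∅ (Finset.empty_subset _) (by simp))
  obtain ⟨t, ht⟩ := avg (p := p) (V := Fin r → ZMod p) (e := Pi.single i 1)
    (by
      intro h
      have := congrFun h i
      rw [Pi.single_eq_same] at this
      exact one_ne_zero this) B U ⌊Fm⌋₊ (fun b hb D hDB hl => by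
      refine Nat.le_floor (hF b hb D hDB fun b' hb' => ?_)
      obtain ⟨x, hx⟩ := hl b' hb'
      exact ⟨x, by rw [hx, hsm]⟩)
  have h1 := (hg i t).card hD
  have h2 : ((B ×ˢ U).image fun x => x.1 + (t * x.2) • (Pi.single i 1 : Fin r → ZMod p)) ⊆
      B + mulImg (Pi.single i t) B := by
    intro x hx
    obtain ⟨⟨b, u⟩, hbu, rfl⟩ := Finset.mem_image.1 hx
    obtain ⟨hb, hu⟩ := Finset.mem_product.1 hbu
    obtain ⟨b', hb', rfl⟩ := Finset.mem_image.1 hu
    refine Finset.mem_add.2 ⟨b, hb, Pi.single i t * b', mem_mulImg.2 ⟨b', hb', rfl⟩, ?_⟩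
    rw [hsm]
    congr 1
    funext j
    rw [Pi.mul_apply]
    by_cases hj : j = i
    · subst hj
      rw [Pi.single_eq_same, Pi.single_eq_same]
    · rw [Pi.single_eq_of_ne hj, Pi.single_eq_of_ne hj, zero_mul]
  have h3 : (((B ×ˢ U).image fun x => x.1 + (t * x.2) •
      (Pi.single i 1 : Fin r → ZMod p)).card : ℝ) ≤ L ^ (C + 3 * k) * B.card :=
    le_trans (by exact_mod_cast Finset.card_le_card h2) h1
  have h4 : (p : ℝ) * (B.card * U.card) ^ 2 ≤
      (((B ×ˢ U).image fun x => x.1 + (t * x.2) • (Pi.single i 1 : Fin r → ZMod p)).card : ℝ) *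
        (p * (B.card * U.card) + B.card * ⌊Fm⌋₊ * (U.card : ℝ) ^ 2) := by exact_mod_cast ht
  have h5 : (⌊Fm⌋₊ : ℝ) ≤ Fm := Nat.floor_le hF0
  set Λ := L ^ (C + 3 * k) with hΛ
  have hΛ0 : 0 ≤ Λ := by
    have := hD.one
    positivity
  have h6 : (p : ℝ) * (B.card * U.card) ^ 2 ≤
      Λ * B.card * (p * (B.card * U.card) + B.card * Fm * (U.card : ℝ) ^ 2) := by
    refine h4.trans (mul_le_mul h3 ?_ (by positivity) (by positivity))
    gcongr
  have h7 : ((B.card : ℝ) ^ 2 * U.card) * (p * U.card) ≤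
      ((B.card : ℝ) ^ 2 * U.card) * (Λ * p + Λ * Fm * U.card) := by
    calc _ = (p : ℝ) * (B.card * U.card) ^ 2 := by ring
      _ ≤ _ := h6
      _ = _ := by ring
  have h8 := le_of_mul_le_mul_left h7 (by positivity)
  have h9 : Λ * Fm * U.card ≤ p / 2 * U.card := by
    refine mul_le_mul_of_nonneg_right ?_ hU0.le
    linarith
  have h10 : (p : ℝ) * U.card ≤ p * (2 * Λ) := by linarith
  exact le_of_mul_le_mul_left h10 hp0

theorem card_le_prod {B : Finset (Fin r → ZMod p)} {x : ℝ} 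
    (h : ∀ i, ((B.image fun b => b i).card : ℝ) ≤ x) : (B.card : ℝ) ≤ x ^ r := by
  classical
  have h1 : B ⊆ Fintype.piFinset fun i => B.image fun b => b i := by
    intro b hb
    rw [Fintype.mem_piFinset]
    exact fun i => Finset.mem_image_of_mem _ hb
  have h2 := Finset.card_le_card h1
  rw [Fintype.card_piFinset] at h2
  calc (B.card : ℝ) ≤ ((∏ i : Fin r, (B.image fun b => b i).card : ℕ) : ℝ) := by exact_mod_cast h2
    _ = ∏ i : Fin r, ((B.image fun b => b i).card : ℝ) := by push_cast; rfl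
    _ ≤ ∏ _i : Fin r, x := Finset.prod_le_prod (fun _ _ => Nat.cast_nonneg _) fun i _ => h i
    _ = x ^ r := by simp

/-- the thresholds -/
noncomputable def thr (ρ : ℝ) : ℕ → ℝ
  | 0 => ρ
  | j + 1 => (thr ρ j) ^ 2 / 2

theorem thr_pos {ρ : ℝ} (h : 0 < ρ) (j : ℕ) : 0 < thr ρ j := by
  induction j with
  | zero => exact h
  | succ j ih => rw [thr]; positivity

theorem thr_le {ρ : ℝ} (h : 0 < ρ) (h1 : ρ ≤ 1) (j : ℕ) : thr ρ j ≤ 1 := by
  induction j with
  | zero => exact h1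
  | succ j ih =>
    rw [thr]
    have := thr_pos h j
    nlinarith

theorem thr_succ {ρ : ℝ} (h : 0 < ρ) (h1 : ρ ≤ 1) (j : ℕ) : thr ρ (j + 1) ≤ thr ρ j / 2 := by
  rw [thr]
  have := thr_pos h j
  have := thr_le h h1 j
  nlinarith

theorem thr_anti {ρ : ℝ} (h : 0 < ρ) (h1 : ρ ≤ 1) {i j : ℕ} (hij : i ≤ j) : thr ρ j ≤ thr ρ i :=
  antitone_nat_of_succ_le (fun m => by
    have := thr_succ h h1 m
    have := thr_pos h m
    linarith) hij

theorem thr_ge {ρ : ℝ} (h : 0 < ρ) (j : ℕ) : (ρ / 2) ^ (2 ^ j) ≤ thr ρ j := by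
  have key : ∀ j, 2 * (ρ / 2) ^ (2 ^ j) ≤ thr ρ j := by
    intro j
    induction j with
    | zero => rw [thr, pow_zero, pow_one]; linarith
    | succ j ih =>
      rw [thr, pow_succ 2 j, pow_mul]
      have h0 : 0 ≤ (ρ / 2) ^ 2 ^ j := by positivity
      nlinarith
  have h0 : 0 ≤ (ρ / 2) ^ 2 ^ j := by positivity
  linarith [key j]

/-- the pigeonhole over the levels -/
theorem pigeon {n : ℕ → ℝ} {Q P : ℝ} {J : ℕ} (hQ : 1 ≤ Q) (h1 : 1 ≤ n 1) (hJ : P ≤ Q ^ J)
    (hJ0 : 0 < J) (hn : n (J + 1) ≤ P) : ∃ j, 1 ≤ j ∧ j ≤ J ∧ n (j + 1) ≤ Q * n j := by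
  by_contra hcon
  push Not at hcon
  have key : ∀ j, 1 ≤ j → j ≤ J → Q ^ j < n (j + 1) := by
    intro j hj
    induction j, hj using Nat.le_induction with
    | base =>
      intro h
      have := hcon 1 le_rfl h
      rw [pow_one]
      nlinarith
    | succ j hj ih =>
      intro h
      have h2 := ih (by omega)
      have h3 := hcon (j + 1) (by omega) h
      rw [pow_succ]
      nlinarith
  have := key J hJ0 le_rfl
  linarith

end Pool.Agent.Run7.h823.BK
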