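import Pool.Agent.Run7.h823.BK5

/-!
# Exponential sums over short geometric progressions: the core theorem
-/

set_option autoImplicit false
open Finset
open scoped Pointwise

namespace Pool.Agent.Run7.h823.BK

variable {p : ℕ} [hp : Fact p.Prime] {r : ℕ} {ι : Type*}

/-- an image is large if the fibres are small -/
theorem image_ge {α β : Type*} [DecidableEq β] (X : Finset α) (f : α → β) {N G : ℝ}
    (hG : 0 < G) (h : ∀ t, ((X.filter fun x => f x = t).card : ℝ) ≤ N / G) :
    (X.card : ℝ) * G ≤ N * (X.image f).card := by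
  have h1 : (X.card : ℝ) ≤ (X.image f).card * (N / G) := by
    have h2 := Finset.card_eq_sum_card_image f X
    have h3 : (X.card : ℝ) = ∑ b ∈ X.image f, ((X.filter fun x => f x = b).card : ℝ) := by
      exact_mod_cast h2
    rw [h3]
    calc _ ≤ ∑ _b ∈ X.image f, N / G := Finset.sum_le_sum fun b _ => h b
      _ = _ := by rw [Finset.sum_const, nsmul_eq_mul]
  calc (X.card : ℝ) * G ≤ ((X.image f).card * (N / G)) * G := by gcongr
    _ = _ := by field_simp

/-- the structural hypotheses on a family of vectors and a set of almost periods -/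
structure Fam (s : Finset ι) (v : ι → Fin r → ZMod p) (H : Finset (Fin r → ZMod p)) (G : ℝ) :
    Prop where
  sne : s.Nonempty
  hne : H.Nonempty
  h1 : ∀ j t, ((s.filter fun i => v i j = t).card : ℝ) ≤ s.card / G
  h2 : ∀ h ∈ H, ∀ j, h j ≠ 0
  h3 : ∀ j t, ((H.filter fun h => h j = t).card : ℝ) ≤ H.card / G
  h4 : ∀ j k, j ≠ k → ∀ t, ((H.filter fun h => h j = t * h k).card : ℝ) ≤ H.card / G
  h5 : ∀ h ∈ H, ∀ a, ‖S s v (h * a) - S s v a‖ ≤ s.card / G

theorem core {s : Finset ι} {v : ι → Fin r → ZMod p} {H : Finset (Fin r → ZMod p)} {G : ℝ}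
    (hF : Fam s v H G) {L : ℝ} (hL : 2 ^ 22 ≤ L) {J t : ℕ} (hJ0 : 0 < J)
    (hJ : (p : ℝ) ^ r ≤ L ^ J) {ρ : ℝ} (hρ : 0 < ρ) (hρ1 : ρ ≤ 1)
    (hthr : 1 ≤ L * thr ρ (J + 1)) (hp4 : 4 ≤ p)
    (hG : L ^ ((fin r 130 31 t + 95) * (r + 1) + 10) < G)
    (ht : (p : ℝ) ≤ (G / (4 * L ^ 5)) ^ (2 ^ t)) {a0 : Fin r → ZMod p} (ha0 : a0 ≠ 0)
    (hS : ρ * s.card ≤ ‖S s v a0‖) : False := by
  classical
  obtain ⟨C, hC⟩ : ∃ C, fin r 130 31 t = C := ⟨_, rfl⟩
  rw [hC] at hG
  have hL1 : 1 ≤ L := le_trans (by norm_num) hL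
  have hL0 : 0 < L := by linarith
  have hpow : ∀ n, n ≤ (C + 95) * (r + 1) + 10 → L ^ n < G := fun n hn =>
    lt_of_le_of_lt (pow_le_pow_right₀ hL1 hn) hG
  have hG6 : L ^ 6 < G := hpow 6 (by omega)
  have hG1 : L < G := by
    have := hpow 1 (by omega)
    rwa [pow_one] at this
  have hG0 : 0 < G := by linarith
  have hs0 : (0 : ℝ) < s.card := by exact_mod_cast hF.sne.card_pos
  have hH0 : (0 : ℝ) < H.card := by exact_mod_cast hF.hne.card_pos
  have hp0 : (0 : ℝ) < p := by exact_mod_cast hp.out.pos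
  set Lam : ℕ → Finset (Fin r → ZMod p) := fun j =>
    univ.filter fun a => thr ρ j * s.card ≤ ‖S s v a‖ with hLam
  have hmem : ∀ j a, a ∈ Lam j ↔ thr ρ j * s.card ≤ ‖S s v a‖ := by
    intro j a
    rw [hLam]
    simp
  have hthr' : ∀ j, j ≤ J + 1 → 1 ≤ L * thr ρ j := fun j hj =>
    hthr.trans (by
      have := thr_anti hρ hρ1 hj
      gcongr)
  have hinv : ∀ j, j ≤ J + 1 → 1 / G ≤ thr ρ j / 2 := by
    intro j hj
    have h1 := hthr' j hj
    have h2 : 2 * L ≤ G := by
      have : L ^ 2 < G := hpow 2 (by omega)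
      have : (2 : ℝ) ^ 22 * L ≤ L ^ 2 := by
        rw [sq]
        gcongr
      norm_num at this
      linarith
    rw [div_le_iff₀ hG0]
    have h3 := thr_pos hρ j
    calc (1 : ℝ) ≤ L * thr ρ j := h1
      _ = thr ρ j / 2 * (2 * L) := by ring
      _ ≤ thr ρ j / 2 * G := by gcongr
  have hmul : ∀ j, j ≤ J + 1 → ∀ h ∈ H, ∀ a ∈ Lam j, h * a ∈ Lam (j + 1) := by
    intro j hj h hh a ha
    rw [hmem] at ha ⊢
    have h1 := hF.h5 h hh a
    have h2 : ‖S s v a‖ - ‖S s v (h * a)‖ ≤ ‖S s v (h * a) - S s v a‖ := by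
      rw [norm_sub_rev]
      exact norm_sub_norm_le _ _
    have h3 := thr_succ hρ hρ1 j
    have h4 := hinv j hj
    have h5 : (s.card : ℝ) / G ≤ thr ρ j / 2 * s.card := by
      calc (s.card : ℝ) / G = 1 / G * s.card := by ring
        _ ≤ _ := by gcongr
    have h6 : thr ρ (j + 1) * s.card ≤ thr ρ j / 2 * s.card := by gcongr
    linarith
  -- the first level
  obtain ⟨i0, hi0⟩ : ∃ i, a0 i ≠ 0 := by
    by_contra hcon
    push Not at hcon
    exact ha0 (funext hcon)
  have hcard1 : G ≤ (Lam 1).card := by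
    have h1 : (H.image fun h => h * a0) ⊆ Lam 1 := by
      intro x hx
      obtain ⟨h, hh, rfl⟩ := Finset.mem_image.1 hx
      exact hmul 0 (by omega) h hh a0 ((hmem 0 a0).2 hS)
    have h2 := image_ge H (fun h => h i0) hG0 (hF.h3 i0)
    have h3 : G ≤ ((H.image fun h => h i0).card : ℝ) := le_of_mul_le_mul_left h2 hH0
    have h4 : (H.image fun h => h i0).card ≤ (H.image fun h => h * a0).card := by
      have h5 : ((H.image fun h => h * a0).image fun x => x i0 / a0 i0) =
          H.image fun h => h i0 := by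
        rw [Finset.image_image]
        refine Finset.image_congr fun h _ => ?_
        show (h * a0) i0 / a0 i0 = h i0
        rw [Pi.mul_apply, mul_div_assoc, div_self hi0, mul_one]
      rw [← h5]
      exact Finset.card_image_le
    calc G ≤ _ := h3
      _ ≤ ((H.image fun h => h * a0).card : ℝ) := by exact_mod_cast h4
      _ ≤ _ := by exact_mod_cast Finset.card_le_card h1
  -- pigeonhole
  obtain ⟨j, hj1, hjJ, hjn⟩ := pigeon (n := fun j => ((Lam j).card : ℝ)) (Q := L)
    (P := (p : ℝ) ^ r) hL1 (by linarith) hJ hJ0 (by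
      have : (Lam (J + 1)).card ≤ Fintype.card (Fin r → ZMod p) := Finset.card_le_univ _
      rw [Fintype.card_fun, ZMod.card, Fintype.card_fin] at this
      exact_mod_cast this)
  have hcardj : G ≤ (Lam j).card := by
    refine hcard1.trans ?_
    have h1 : Lam 1 ⊆ Lam j := by
      intro a ha
      rw [hmem] at ha ⊢
      refine le_trans ?_ ha
      have := thr_anti hρ hρ1 hj1
      gcongr
    exact_mod_cast Finset.card_le_card h1
  have hcj0 : (0 : ℝ) < (Lam j).card := by linarith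
  have hτ0 := thr_pos hρ (j + 1)
  have hτL := hthr' (j + 1) (by omega)
  -- energy
  have hE : ((Lam j).card : ℝ) ^ 3 ≤ L ^ 3 * ((Lam j).addEnergy (Lam j) : ℕ) := by
    have h1 := spec_count s v (Lam j) hF.sne (thr_pos hρ j).le (fun a ha => (hmem j a).1 ha)
    have h2 := energy_of_diff (Lam j) (Lam (j + 1)) (τ := thr ρ (j + 1)) hτ0.le (by
      refine le_trans (le_of_eq ?_) (h1.trans ?_)
      · rw [thr]
      · norm_cast
        refine Finset.card_le_card fun x hx => ?_
        rw [Finset.mem_filter] at hx ⊢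
        refine ⟨hx.1, ?_⟩
        rw [hmem, thr]
        exact hx.2)
    have h3 : (thr ρ (j + 1)) ^ 2 * ((Lam j).card : ℝ) ^ 4 ≤
        L * (Lam j).card * ((Lam j).addEnergy (Lam j) : ℕ) := h2.trans (by gcongr)
    have h4 : (thr ρ (j + 1)) ^ 2 * ((Lam j).card : ℝ) ^ 3 ≤
        L * ((Lam j).addEnergy (Lam j) : ℕ) := by
      refine le_of_mul_le_mul_left ?_ hcj0
      calc _ = (thr ρ (j + 1)) ^ 2 * ((Lam j).card : ℝ) ^ 4 := by ring
        _ ≤ _ := h3
        _ = _ := by ring
    calc ((Lam j).card : ℝ) ^ 3 = 1 ^ 2 * ((Lam j).card : ℝ) ^ 3 := by ring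
      _ ≤ (L * thr ρ (j + 1)) ^ 2 * ((Lam j).card : ℝ) ^ 3 := by gcongr
      _ = L ^ 2 * ((thr ρ (j + 1)) ^ 2 * ((Lam j).card : ℝ) ^ 3) := by ring
      _ ≤ L ^ 2 * (L * ((Lam j).addEnergy (Lam j) : ℕ)) := by gcongr
      _ = _ := by ring
  obtain ⟨A, hAL, hAne, hA1, hA2⟩ := Pool.Agent.H217R3.AK.bsg (Lam j)
    (Finset.card_pos.1 (by exact_mod_cast hcj0)) (L ^ 3) (by positivity) hE
  have hA0 : (0 : ℝ) < A.card := by exact_mod_cast hAne.card_pos
  have hA1' : ((Lam j).card : ℝ) ≤ L ^ 4 * A.card := by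
    refine hA1.trans ?_
    have : (8 : ℝ) ≤ L := le_trans (by norm_num) hL
    calc 8 * L ^ 3 * (A.card : ℝ) ≤ L * L ^ 3 * A.card := by gcongr
      _ = _ := by ring
  have hA2' : ((A - A).card : ℝ) ≤ L ^ 31 * A.card := by
    refine hA2.trans ?_
    calc 2 ^ 22 * (L ^ 3) ^ 10 * (A.card : ℝ) ≤ L * (L ^ 3) ^ 10 * A.card := by gcongr
      _ = _ := by ring
  have hu : ∀ h ∈ H, IsUnit h := by
    intro h hh
    rw [Pi.isUnit_iff]
    exact fun i => (hF.h2 h hh i).isUnit
  have hsub : ∀ h ∈ H, mulImg h A ⊆ Lam (j + 1) := by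
    intro h hh x hx
    obtain ⟨a, ha, rfl⟩ := mem_mulImg.1 hx
    exact hmul j (by omega) h hh a (hAL ha)
  obtain ⟨y, hy, H', hH', hcH, hov⟩ := translates hAne hF.hne hu hsub (M := L ^ 5) (by positivity)
    (hjn.trans (by
      calc L * ((Lam j).card : ℝ) ≤ L * (L ^ 4 * A.card) := by gcongr
        _ = _ := by ring))
  have hH'0 : (0 : ℝ) < H'.card := by
    by_contra hcon
    have h1 : (H'.card : ℝ) = 0 := le_antisymm (not_lt.1 hcon) (Nat.cast_nonneg _)
    rw [h1, mul_zero] at hcH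
    linarith
  set B := mulImg y A with hB
  have hBc : B.card = A.card := card_mulImg (hu y hy) A
  have hD : Doub B L 31 := by
    refine ⟨?_, hL1, ?_⟩
    · rw [← Finset.card_pos, hBc]
      exact hAne.card_pos
    · rw [hB, ← mulImg_sub, card_mulImg (hu y hy), card_mulImg (hu y hy)]
      exact hA2'
  set yi : Fin r → ZMod p := fun i => (y i)⁻¹ with hyi
  have hyy : yi * y = 1 := by
    funext i
    rw [Pi.mul_apply, hyi]
    exact inv_mul_cancel₀ (hF.h2 y hy i)
  set Z := H'.image fun x => x * yi with hZ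
  have hZg : ∀ z ∈ Z, Good B L 130 z := by
    intro z hz
    obtain ⟨x, hx, rfl⟩ := Finset.mem_image.1 hz
    refine good_of_overlap (k := 31) hD (m := 6) ?_
    rw [hB, mulImg_mulImg, mul_assoc, hyy, mul_one, card_mulImg (hu y hy)]
    refine (hov x hx).trans ?_
    have : (2 : ℝ) ≤ L := le_trans (by norm_num) hL
    calc 2 * L ^ 5 * ((mulImg x A ∩ mulImg y A).card : ℝ) ≤
        L * L ^ 5 * (mulImg x A ∩ mulImg y A).card := by gcongr
      _ = _ := by ring
  have hZ0 : ∀ z ∈ Z, ∀ i, z i ≠ 0 := by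
    intro z hz i
    obtain ⟨x, hx, rfl⟩ := Finset.mem_image.1 hz
    exact mul_ne_zero (hF.h2 x (hH' hx) i) (inv_ne_zero (hF.h2 y hy i))
  have hL6 : 4 * L ^ 5 ≤ G := by
    have : (4 : ℝ) ≤ L := le_trans (by norm_num) hL
    calc 4 * L ^ 5 ≤ L * L ^ 5 := by gcongr
      _ = L ^ 6 := by ring
      _ ≤ G := hG6.le
  have hw : 1 ≤ G / (4 * L ^ 5) := by
    rw [le_div_iff₀ (by positivity), one_mul]
    exact hL6
  have hZc : ∀ i, 2 * (G / (4 * L ^ 5)) ≤ ((Z.image fun z => z i).card : ℝ) := by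
    intro i
    have h1 := image_ge H' (fun h => h i) (N := H.card) hG0 (fun t => by
      refine le_trans ?_ (hF.h3 i t)
      exact_mod_cast Finset.card_le_card (Finset.filter_subset_filter _ hH'))
    have h2 : (H'.image fun h => h i).card ≤ (Z.image fun z => z i).card := by
      have h5 : ((Z.image fun z => z i).image fun x => x * y i) = H'.image fun h => h i := by
        rw [Finset.image_image, hZ, Finset.image_image]
        refine Finset.image_congr fun h _ => ?_
        show (h * yi) i * y i = h i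
        rw [Pi.mul_apply, mul_assoc]
        have := congrFun hyy i
        rw [Pi.mul_apply] at this
        rw [this, Pi.one_apply, mul_one]
      rw [← h5]
      exact Finset.card_image_le
    have h3 : (H'.card : ℝ) * G ≤ H'.card * (2 * L ^ 5 * (Z.image fun z => z i).card) := by
      calc (H'.card : ℝ) * G ≤ H.card * (H'.image fun h => h i).card := h1
        _ ≤ (2 * L ^ 5 * H'.card) * (Z.image fun z => z i).card := by
            gcongr
        _ = _ := by ring
    have h4 := le_of_mul_le_mul_left h3 hH'0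
    have h5 : 2 * (G / (4 * L ^ 5)) = G / (2 * L ^ 5) := by
      field_simp
      ring
    rw [h5, div_le_iff₀ (by positivity)]
    linarith
  have hsep : ∀ i j, i ≠ j → ∃ z ∈ Z, z i ≠ z j := by
    intro i j hij
    by_contra hcon
    push Not at hcon
    have h1 : H' ⊆ H.filter fun h => h i = (y i * yi j) * h j := by
      intro x hx
      rw [Finset.mem_filter]
      refine ⟨hH' hx, ?_⟩
      have h2 := hcon (x * yi) (Finset.mem_image_of_mem _ hx)
      rw [Pi.mul_apply, Pi.mul_apply] at h2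
      have h3 : yi i * y i = 1 := by
        have := congrFun hyy i
        rwa [Pi.mul_apply] at this
      calc x i = x i * (yi i * y i) := by rw [h3, mul_one]
        _ = (x i * yi i) * y i := by ring
        _ = (x j * yi j) * y i := by rw [h2]
        _ = _ := by ring
    have h2 : (H'.card : ℝ) ≤ H.card / G := le_trans (by exact_mod_cast Finset.card_le_card h1)
      (hF.h4 i j hij (y i * yi j))
    rw [le_div_iff₀ hG0] at h2
    have h3 : (H'.card : ℝ) * G ≤ H'.card * (2 * L ^ 5) := by linarith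
    have h4 := le_of_mul_le_mul_left h3 hH'0
    have h5 : (0 : ℝ) < L ^ 5 := by positivity
    linarith
  have hgood : ∀ i x, Good B L C (Pi.single i x) := fun i x => by
    rw [← hC]
    exact single_good hD hZg hZ0 hw hZc hsep hp4 ht i x
  -- projections
  have hBL : B ⊆ Lam (j + 1) := hsub y hy
  have hproj : ∀ i, ((B.image fun b => b i).card : ℝ) ≤ 2 * L ^ (C + 3 * 31) := by
    intro i
    refine small_proj hD hgood (Fm := p * L ^ 2 / G) i (fun b hb D hDB hl => ?_) ?_
    · have h1 := line_count s v i (hF.h1 i) b hτ0 hF.sne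
      have h2 : D ⊆ (univ.filter fun t : ZMod p => thr ρ (j + 1) * s.card ≤
          ‖S s v (b + Pi.single i t)‖).image fun t => b + Pi.single i t := by
        intro b' hb'
        obtain ⟨x, hx⟩ := hl b' hb'
        refine Finset.mem_image.2 ⟨x, ?_, hx.symm⟩
        rw [Finset.mem_filter]
        refine ⟨Finset.mem_univ _, ?_⟩
        rw [← hx]
        exact (hmem _ _).1 (hBL (hDB hb'))
      have h3 : (D.card : ℝ) ≤ (univ.filter fun t : ZMod p => thr ρ (j + 1) * s.card ≤
          ‖S s v (b + Pi.single i t)‖).card := by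
        exact_mod_cast (Finset.card_le_card h2).trans Finset.card_image_le
      refine h3.trans (h1.trans ?_)
      rw [div_le_div_iff₀ (by positivity) hG0]
      have h4 : (1 : ℝ) ≤ (L * thr ρ (j + 1)) ^ 2 := by
        have := pow_le_pow_left₀ zero_le_one hτL 2
        rwa [one_pow] at this
      calc (p : ℝ) * (s.card / G) * G = (p * s.card) * 1 := by field_simp
        _ ≤ (p * s.card) * (L * thr ρ (j + 1)) ^ 2 := by gcongr
        _ = _ := by ring
    · have h0 : C + 95 ≤ (C + 95) * (r + 1) := Nat.le_mul_of_pos_right _ (by omega)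
      have h1 : L ^ (C + 96) < G := hpow _ (by omega)
      have h2 : (2 : ℝ) ≤ L := le_trans (by norm_num) hL
      have h3 : 2 * L ^ (C + 95) ≤ G := by
        calc 2 * L ^ (C + 95) ≤ L * L ^ (C + 95) := by gcongr
          _ = L ^ (C + 96) := by ring
          _ ≤ G := h1.le
      calc 2 * (L ^ (C + 3 * 31) * (p * L ^ 2 / G)) = p * (2 * L ^ (C + 95)) / G := by
            rw [show C + 95 = C + 3 * 31 + 2 by omega, pow_add L (C + 3 * 31) 2]
            ring
        _ ≤ p * G / G := by gcongr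
        _ = p := by field_simp
  have hfin := card_le_prod hproj
  have h1 : G ≤ L ^ 4 * (2 * L ^ (C + 3 * 31)) ^ r := by
    calc G ≤ (Lam j).card := hcardj
      _ ≤ L ^ 4 * A.card := hA1'
      _ ≤ _ := by
        rw [← hBc]
        gcongr
  have h2 : L ^ 4 * (2 * L ^ (C + 3 * 31)) ^ r ≤ L ^ 4 * (L ^ (C + 94)) ^ r := by
    have h2 : (2 : ℝ) ≤ L := le_trans (by norm_num) hL
    have h3 : 2 * L ^ (C + 3 * 31) ≤ L ^ (C + 94) := by
      calc 2 * L ^ (C + 3 * 31) ≤ L * L ^ (C + 3 * 31) := by gcongr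
        _ = _ := by rw [show C + 94 = C + 3 * 31 + 1 by omega, pow_succ]; ring
    gcongr
  have h3 : L ^ 4 * (L ^ (C + 94)) ^ r < G := by
    rw [← pow_mul, ← pow_add]
    refine hpow _ ?_
    have h0 : (C + 94) * r ≤ (C + 95) * (r + 1) := Nat.mul_le_mul (by omega) (by omega)
    omega
  linarith

end Pool.Agent.Run7.h823.BK
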