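import Pool.Agent.Run7.h823.BK6

/-!
# Exponential sums over short geometric progressions: the bound with exponents
-/

set_option autoImplicit false
open Finset
open scoped Pointwise

namespace Pool.Agent.Run7.h823.BK

/-- the exponential sum bound of Bourgain and Bourgain, Glibichuk, Konyagin, for families of
vectors with a large set of multiplicative almost periods -/
theorem bound (r : ℕ) {δ : ℝ} (hδ : 0 < δ) : ∃ ε : ℝ, 0 < ε ∧ ∃ P0 : ℕ, ∀ (p : ℕ) [Fact p.Prime],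
    P0 ≤ p → ∀ {ι : Type} {s : Finset ι} {v : ι → Fin r → ZMod p} {H : Finset (Fin r → ZMod p)},
    Fam s v H ((p : ℝ) ^ δ) → ∀ a, a ≠ 0 → ‖S s v a‖ ≤ s.card * (p : ℝ) ^ (-ε) := by
  obtain ⟨t, ht⟩ : ∃ t : ℕ, 1 ≤ δ / 2 * 2 ^ t := by
    obtain ⟨n, hn⟩ := pow_unbounded_of_one_lt (2 / δ) (one_lt_two)
    refine ⟨n, ?_⟩
    rw [div_lt_iff₀ hδ] at hn
    linarith
  obtain ⟨E, hE⟩ : ∃ E, (fin r 130 31 t + 95) * (r + 1) + 10 = E := ⟨_, rfl⟩
  have hE10 : 10 ≤ E := by omega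
  have hE0 : (0 : ℝ) < E := by
    have : 0 < E := by omega
    exact_mod_cast this
  obtain ⟨J, hJ⟩ : ∃ J : ℕ, 2 * E * r / δ ≤ J := exists_nat_ge _
  obtain ⟨J', hJ'⟩ : ∃ J', J + 1 = J' := ⟨_, rfl⟩
  have hJ'0 : 0 < J' := by omega
  have hJ'1 : 2 * E * r / δ ≤ J' := hJ.trans (by exact_mod_cast (by omega : J ≤ J'))
  set κ := δ / (4 * E) with hκ
  have hκ0 : 0 < κ := by positivity
  obtain ⟨M, hM⟩ : ∃ M : ℝ, max ((2 : ℝ) ^ 22) (2 ^ (2 ^ (J' + 1))) = M := ⟨_, rfl⟩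
  have hM1 : (2 : ℝ) ^ 22 ≤ M := hM ▸ le_max_left _ _
  have hM2 : (2 : ℝ) ^ (2 ^ (J' + 1)) ≤ M := hM ▸ le_max_right _ _
  have hM0 : 0 < M := lt_of_lt_of_le (by positivity) hM1
  obtain ⟨N, hN⟩ : ∃ N : ℕ, M ^ (1 / κ) ≤ N := exists_nat_ge _
  refine ⟨κ / 2 ^ (J' + 1), by positivity, N + 4, ?_⟩
  intro p hp hpN ι s v H hF a ha
  by_contra hcon
  push Not at hcon
  have hp4 : 4 ≤ p := by omega
  have hp0 : (0 : ℝ) < p := by exact_mod_cast hp.out.pos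
  have hp1 : (1 : ℝ) ≤ p := by exact_mod_cast hp.out.one_lt.le
  set x := (p : ℝ) ^ κ with hx
  have hx0 : 0 < x := by positivity
  have hxM : M ≤ x := by
    have h1 : M ^ (1 / κ) ≤ p := hN.trans (by exact_mod_cast (by omega : N ≤ p))
    have h2 := Real.rpow_le_rpow (by positivity) h1 hκ0.le
    rwa [← Real.rpow_mul hM0.le, one_div, inv_mul_cancel₀ hκ0.ne', Real.rpow_one] at h2
  have hxpow : ∀ n : ℕ, x ^ n = (p : ℝ) ^ (κ * n) := by
    intro n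
    rw [hx, ← Real.rpow_natCast, ← Real.rpow_mul hp0.le]
  have hxb : (2 : ℝ) ^ 22 ≤ x := hM1.trans hxM
  have hx1 : 1 < x := lt_of_lt_of_le (by norm_num) hxb
  have hGx : (p : ℝ) ^ δ = x ^ (4 * E) := by
    rw [hxpow]
    congr 1
    push_cast
    rw [hκ]
    field_simp
  have hρ0 : 0 < (p : ℝ) ^ (-(κ / 2 ^ (J' + 1))) := by positivity
  refine core hF (L := x ^ 2) (J := J') (t := t) ?_ hJ'0 ?_ hρ0 ?_ ?_ hp4 ?_ ?_ ha
    (by rw [mul_comm]; exact hcon.le)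
  · calc (2 : ℝ) ^ 22 ≤ x := hxb
      _ = x ^ 1 := (pow_one x).symm
      _ ≤ x ^ 2 := pow_le_pow_right₀ hx1.le (by norm_num)
  · rw [← pow_mul, hxpow, ← Real.rpow_natCast]
    refine Real.rpow_le_rpow_of_exponent_le hp1 ?_
    rw [div_le_iff₀ hδ] at hJ'1
    rw [hκ, div_mul_eq_mul_div, le_div_iff₀ (by positivity)]
    push_cast
    linarith
  · exact Real.rpow_le_one_of_one_le_of_nonpos hp1 (by
      have : 0 < κ / 2 ^ (J' + 1) := by positivity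
      linarith)
  · have h1 := thr_ge hρ0 (J' + 1)
    have h2 : ((p : ℝ) ^ (-(κ / 2 ^ (J' + 1)))) ^ (2 ^ (J' + 1)) = x⁻¹ := by
      rw [← Real.rpow_natCast, ← Real.rpow_mul hp0.le, hx, ← Real.rpow_neg hp0.le]
      congr 1
      push_cast
      field_simp
    have h3 : x⁻¹ / M ≤ thr ((p : ℝ) ^ (-(κ / 2 ^ (J' + 1)))) (J' + 1) := by
      refine le_trans ?_ h1
      rw [div_pow, h2]
      gcongr
    calc (1 : ℝ) = x ^ 2 * (x⁻¹ / x) := by field_simp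
      _ ≤ x ^ 2 * (x⁻¹ / M) := by gcongr
      _ ≤ _ := by gcongr
  · rw [hGx, hE, ← pow_mul]
    exact pow_lt_pow_right₀ hx1 (by omega)
  · rw [hGx]
    have h1 : x ^ (2 * E) ≤ x ^ (4 * E) / (4 * (x ^ 2) ^ 5) := by
      rw [le_div_iff₀ (by positivity)]
      have h4 : (4 : ℝ) ≤ x := le_trans (by norm_num) hxb
      calc x ^ (2 * E) * (4 * (x ^ 2) ^ 5) ≤ x ^ (2 * E) * (x * (x ^ 2) ^ 5) := by gcongr
        _ = x ^ (2 * E + 11) := by ring
        _ ≤ x ^ (4 * E) := pow_le_pow_right₀ hx1.le (by omega)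
    calc (p : ℝ) = (p : ℝ) ^ (1 : ℝ) := (Real.rpow_one _).symm
      _ ≤ (p : ℝ) ^ (κ * (2 * E * 2 ^ t : ℕ)) := by
          refine Real.rpow_le_rpow_of_exponent_le hp1 ?_
          push_cast
          have : κ * (2 * E * 2 ^ t) = δ / 2 * 2 ^ t := by
            rw [hκ]
            field_simp
            ring
          rw [this]
          exact ht
      _ = (x ^ (2 * E)) ^ (2 ^ t) := by rw [← pow_mul, hxpow]
      _ ≤ _ := by gcongr

end Pool.Agent.Run7.h823.BK
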