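import Pool.Agent.Run7.h823.BK7

/-!
# Exponential sums over short geometric progressions
-/

set_option autoImplicit false
open Finset

namespace Pool.Agent.Run7.h823.BK

/-- shifting a short sum -/
theorem shift_sum (f : ℕ → ℂ) (hf : ∀ n, ‖f n‖ ≤ 1) (N m : ℕ) :
    ‖∑ n ∈ range N, f (n + m) - ∑ n ∈ range N, f n‖ ≤ 2 * m := by
  induction m with
  | zero => simp
  | succ m ih =>
    have h1 : ∑ n ∈ range N, f (n + (m + 1)) - ∑ n ∈ range N, f (n + m) = f (N + m) - f m := by
      have h2 := Finset.sum_range_succ (fun n => f (n + m)) N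
      have h3 := Finset.sum_range_succ' (fun n => f (n + m)) N
      rw [h2] at h3
      have h4 : ∀ n, f (n + 1 + m) = f (n + (m + 1)) := fun n => by
        congr 1
        ring
      simp only [h4, zero_add] at h3
      linear_combination -h3
    have h2 : ∑ n ∈ range N, f (n + (m + 1)) - ∑ n ∈ range N, f n =
        (f (N + m) - f m) + (∑ n ∈ range N, f (n + m) - ∑ n ∈ range N, f n) := by
      rw [← h1]
      ring
    rw [h2]
    refine (norm_add_le _ _).trans ?_
    have h3 : ‖f (N + m) - f m‖ ≤ 2 := by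
      refine (norm_sub_le _ _).trans ?_
      have := hf (N + m)
      have := hf m
      linarith
    push_cast
    linarith

variable {p : ℕ} [hp : Fact p.Prime] {r : ℕ}

/-- the number of `n < N` with a given power -/
theorem count_pow (g : (ZMod p)ˣ) (N : ℕ) (x t : ZMod p) (hx : x ≠ 0) {Q : ℝ} (hQ : 0 < Q)
    (hg : Q ≤ orderOf g) :
    (((range N).filter fun n => x * ((g ^ n : (ZMod p)ˣ) : ZMod p) = t).card : ℝ) ≤ N / Q + 1 := by
  have ho : 0 < orderOf g := by
    have : (0 : ℝ) < orderOf g := lt_of_lt_of_le hQ hg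
    exact_mod_cast this
  have h1 : ((range N).filter fun n => x * ((g ^ n : (ZMod p)ˣ) : ZMod p) = t).card ≤
      (range (N / orderOf g + 1)).card := by
    refine Finset.card_le_card_of_injOn (fun n => n / orderOf g) ?_ ?_
    · intro n hn
      rw [Finset.mem_coe, Finset.mem_filter, Finset.mem_range] at hn
      rw [Finset.mem_coe, Finset.mem_range]
      exact Nat.lt_succ_of_le (Nat.div_le_div_right hn.1.le)
    · intro n hn n' hn' h
      rw [Finset.mem_coe, Finset.mem_filter] at hn hn'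
      have h2 : ((g ^ n : (ZMod p)ˣ) : ZMod p) = ((g ^ n' : (ZMod p)ˣ) : ZMod p) :=
        mul_left_cancel₀ hx (hn.2.trans hn'.2.symm)
      have h3 : g ^ n = g ^ n' := Units.ext h2
      rw [pow_eq_pow_iff_modEq] at h3
      have h4 : n / orderOf g = n' / orderOf g := h
      have h5 : n % orderOf g = n' % orderOf g := h3
      rw [← Nat.div_add_mod n (orderOf g), ← Nat.div_add_mod n' (orderOf g), h4, h5]
  rw [Finset.card_range] at h1
  calc (((range N).filter fun n => x * ((g ^ n : (ZMod p)ˣ) : ZMod p) = t).card : ℝ) ≤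
      ((N / orderOf g + 1 : ℕ) : ℝ) := by exact_mod_cast h1
    _ ≤ N / orderOf g + 1 := by
        push_cast
        gcongr
        exact Nat.cast_div_le
    _ ≤ _ := by gcongr

theorem pow_inj (g : (ZMod p)ˣ) {m n : ℕ} (hm : m < orderOf g) (hn : n < orderOf g)
    (h : g ^ m = g ^ n) : m = n := by
  rw [pow_eq_pow_iff_modEq] at h
  have h1 : m % orderOf g = n % orderOf g := h
  rwa [Nat.mod_eq_of_lt hm, Nat.mod_eq_of_lt hn] at h1

/-- geometric progressions satisfy the structural hypotheses -/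
theorem fam_prog {δ q : ℝ} (hq : 4 ≤ q) (hqδ : q ^ 3 = (p : ℝ) ^ δ) (x g : Fin r → (ZMod p)ˣ)
    (hg : ∀ j, (p : ℝ) ^ δ ≤ orderOf (g j))
    (hgg : ∀ i j, i ≠ j → (p : ℝ) ^ δ ≤ orderOf (g i / g j)) {N : ℕ} (hN : (p : ℝ) ^ δ ≤ N)
    (hr : 0 < r) :
    Fam (range N) (fun n j => ((x j : ZMod p)) * ((g j ^ n : (ZMod p)ˣ) : ZMod p))
      ((range ⌊q ^ 2 / 2⌋₊).image fun n j => ((g j ^ n : (ZMod p)ˣ) : ZMod p)) q := by
  classical
  have hq0 : 0 < q := by linarith
  have hq3 : q ^ 3 ≤ N := hqδ ▸ hN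
  set N' := ⌊q ^ 2 / 2⌋₊ with hN'
  have hN'1 : (N' : ℝ) ≤ q ^ 2 / 2 := Nat.floor_le (by positivity)
  have hN'2 : q ≤ N' := by
    have := Nat.lt_floor_add_one (q ^ 2 / 2)
    rw [← hN'] at this
    nlinarith
  have hN'3 : (N' : ℝ) < q ^ 3 := by
    refine lt_of_le_of_lt hN'1 ?_
    nlinarith [pow_pos hq0 2]
  have hord : ∀ j, N' < orderOf (g j) := by
    intro j
    have : (N' : ℝ) < orderOf (g j) := lt_of_lt_of_le hN'3 (hqδ ▸ hg j)
    exact_mod_cast this
  have hord2 : ∀ i j, i ≠ j → N' < orderOf (g i / g j) := by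
    intro i j hij
    have : (N' : ℝ) < orderOf (g i / g j) := lt_of_lt_of_le hN'3 (hqδ ▸ hgg i j hij)
    exact_mod_cast this
  have hN0 : 0 < N := by
    have : (0 : ℝ) < N := lt_of_lt_of_le (by positivity) hq3
    exact_mod_cast this
  have hN'0 : 0 < N' := by
    have : (0 : ℝ) < N' := lt_of_lt_of_le hq0 hN'2
    exact_mod_cast this
  have hinj : Set.InjOn (fun (n : ℕ) (j : Fin r) => ((g j ^ n : (ZMod p)ˣ) : ZMod p))
      (range N' : Set ℕ) := by
    intro m hm n hn h
    have h1 := congrFun h ⟨0, hr⟩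
    rw [Finset.mem_coe, Finset.mem_range] at hm hn
    exact pow_inj (g ⟨0, hr⟩) (hm.trans (hord _)) (hn.trans (hord _)) (Units.ext h1)
  have hcard : ((range N').image fun n (j : Fin r) =>
      ((g j ^ n : (ZMod p)ˣ) : ZMod p)).card = N' := by
    rw [Finset.card_image_of_injOn hinj, Finset.card_range]
  have hone : (1 : ℝ) ≤ (((range N').image fun n (j : Fin r) =>
      ((g j ^ n : (ZMod p)ˣ) : ZMod p)).card : ℝ) / q := by
    rw [hcard, le_div_iff₀ hq0, one_mul]
    exact hN'2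
  refine ⟨⟨0, Finset.mem_range.2 hN0⟩, ⟨_, Finset.mem_image_of_mem _ (Finset.mem_range.2 hN'0)⟩,
    ?_, ?_, ?_, ?_, ?_⟩
  · intro j t
    have h1 := count_pow (g j) N (x j) t (x j).ne_zero (Q := q ^ 3) (by positivity) (hqδ ▸ hg j)
    refine h1.trans ?_
    rw [Finset.card_range]
    have h2 : (1 : ℝ) ≤ N / q ^ 3 := by
      rw [le_div_iff₀ (by positivity), one_mul]
      exact hq3
    calc (N : ℝ) / q ^ 3 + 1 ≤ N / q ^ 3 + N / q ^ 3 := by linarith
      _ = N / q * (2 / q ^ 2) := by field_simp; ring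
      _ ≤ N / q * 1 := by
          have : 2 / q ^ 2 ≤ 1 := by
            rw [div_le_one (by positivity)]
            nlinarith
          gcongr
      _ = _ := mul_one _
  · intro h hh j
    obtain ⟨n, -, rfl⟩ := Finset.mem_image.1 hh
    exact Units.ne_zero _
  · intro j t
    refine le_trans ?_ hone
    have : (((range N').image fun n (j : Fin r) => ((g j ^ n : (ZMod p)ˣ) : ZMod p)).filter
        fun h => h j = t).card ≤ 1 := by
      rw [Finset.card_le_one]
      intro a ha b hb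
      rw [Finset.mem_filter, Finset.mem_image] at ha hb
      obtain ⟨⟨m, hm, rfl⟩, h1⟩ := ha
      obtain ⟨⟨n, hn, rfl⟩, h2⟩ := hb
      rw [Finset.mem_range] at hm hn
      have h3 := pow_inj (g j) (hm.trans (hord j)) (hn.trans (hord j))
        (Units.ext (h1.trans h2.symm))
      rw [h3]
    exact_mod_cast this
  · intro j k hjk t
    refine le_trans ?_ hone
    have : (((range N').image fun n (j : Fin r) => ((g j ^ n : (ZMod p)ˣ) : ZMod p)).filter
        fun h => h j = t * h k).card ≤ 1 := by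
      rw [Finset.card_le_one]
      intro a ha b hb
      rw [Finset.mem_filter, Finset.mem_image] at ha hb
      obtain ⟨⟨m, hm, rfl⟩, h1⟩ := ha
      obtain ⟨⟨n, hn, rfl⟩, h2⟩ := hb
      rw [Finset.mem_range] at hm hn
      have hdiv : ∀ n : ℕ, ((g j ^ n : (ZMod p)ˣ) : ZMod p) = t * ((g k ^ n : (ZMod p)ˣ) : ZMod p) →
          (((g j / g k) ^ n : (ZMod p)ˣ) : ZMod p) = t := by
        intro n h
        rw [div_pow, Units.val_div_eq_div_val, h, mul_div_assoc, div_self (Units.ne_zero _),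
          mul_one]
      have h3 := pow_inj (g j / g k) (hm.trans (hord2 j k hjk)) (hn.trans (hord2 j k hjk))
        (Units.ext ((hdiv m h1).trans (hdiv n h2).symm))
      rw [h3]
    exact_mod_cast this
  · intro h hh a
    obtain ⟨m, hm, rfl⟩ := Finset.mem_image.1 hh
    rw [Finset.mem_range] at hm
    set f : ℕ → ℂ := fun n => ZMod.stdAddChar (∑ j, a j *
      (((x j : ZMod p)) * ((g j ^ n : (ZMod p)ˣ) : ZMod p))) with hf
    have h1 : S (range N) (fun n j => ((x j : ZMod p)) * ((g j ^ n : (ZMod p)ˣ) : ZMod p))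
        ((fun j => ((g j ^ m : (ZMod p)ˣ) : ZMod p)) * a) = ∑ n ∈ range N, f (n + m) := by
      unfold S
      refine Finset.sum_congr rfl fun n _ => ?_
      rw [hf]
      show _ = (ZMod.stdAddChar (∑ j, a j *
        (((x j : ZMod p)) * ((g j ^ (n + m) : (ZMod p)ˣ) : ZMod p))) : ℂ)
      congr 1
      refine Finset.sum_congr rfl fun j _ => ?_
      rw [Pi.mul_apply, pow_add, Units.val_mul]
      ring
    have h2 := shift_sum f (fun n => (norm_char _).le) N m
    rw [h1]
    refine h2.trans ?_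
    rw [Finset.card_range, le_div_iff₀ hq0]
    have h3 : (m : ℝ) ≤ q ^ 2 / 2 := le_trans (by exact_mod_cast hm.le) hN'1
    calc 2 * (m : ℝ) * q ≤ 2 * (q ^ 2 / 2) * q := by gcongr
      _ = q ^ 3 := by ring
      _ ≤ N := hq3

/-- **short geometric progressions, jointly** -/
theorem progressions (r : ℕ) {δ : ℝ} (hδ : 0 < δ) : ∃ ε : ℝ, 0 < ε ∧ ∃ P0 : ℕ,
    ∀ (p : ℕ) [Fact p.Prime], P0 ≤ p → ∀ (x g : Fin r → (ZMod p)ˣ) (N : ℕ),
    (∀ j, (p : ℝ) ^ δ ≤ orderOf (g j)) → (∀ i j, i ≠ j → (p : ℝ) ^ δ ≤ orderOf (g i / g j)) →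
    (p : ℝ) ^ δ ≤ N → ∀ a : Fin r → ZMod p, a ≠ 0 →
    ‖∑ n ∈ range N, (ZMod.stdAddChar (∑ j, a j *
      (((x j : ZMod p)) * ((g j ^ n : (ZMod p)ˣ) : ZMod p))) : ℂ)‖ ≤ N * (p : ℝ) ^ (-ε) := by
  obtain ⟨ε, hε, P0, h⟩ := bound r (δ := δ / 3) (by positivity)
  obtain ⟨P1, hP1⟩ : ∃ P1 : ℕ, (4 : ℝ) ^ (3 / δ) ≤ P1 := exists_nat_ge _
  refine ⟨ε, hε, P0 + P1, ?_⟩
  intro p hp hpP x g N hg hgg hN a ha
  have hr : 0 < r := by
    rcases Nat.eq_zero_or_pos r with h0 | h0
    · subst h0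
      exact absurd (Subsingleton.elim a 0) ha
    · exact h0
  have hp0 : (0 : ℝ) < p := by exact_mod_cast hp.out.pos
  have hq : (4 : ℝ) ≤ (p : ℝ) ^ (δ / 3) := by
    have h1 : (4 : ℝ) ^ (3 / δ) ≤ p := hP1.trans (by exact_mod_cast (by omega : P1 ≤ p))
    have h2 := Real.rpow_le_rpow (by positivity) h1 (by positivity : 0 ≤ δ / 3)
    rwa [← Real.rpow_mul (by norm_num), div_mul_div_comm, mul_comm 3 δ,
      div_self (by positivity), Real.rpow_one] at h2
  have hq3 : ((p : ℝ) ^ (δ / 3)) ^ 3 = (p : ℝ) ^ δ := by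
    rw [← Real.rpow_natCast, ← Real.rpow_mul hp0.le]
    congr 1
    push_cast
    ring
  have h1 := h p (by omega) (fam_prog hq hq3 x g hg hgg hN hr) a ha
  rw [Finset.card_range] at h1
  exact h1

end Pool.Agent.Run7.h823.BK
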