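import Pool.Agent.Run7.h823.BK8

/-!
# Exponential sums over short geometric progressions: linear recurrences, monomials, few primes
-/

set_option autoImplicit false
open Finset

namespace Pool.Agent.Run7.h823.BK

/-- values of linear recurrences -/
theorem recurrences (k : ℕ) {δ : ℝ} (hδ : 0 < δ) : ∃ ε : ℝ, 0 < ε ∧ ∃ P0 : ℕ,
    ∀ (p : ℕ) [Fact p.Prime], P0 ≤ p → ∀ (r : ℕ) (c : Fin r → Fin k → ZMod p)
    (g : Fin k → (ZMod p)ˣ) (N : ℕ), LinearIndependent (ZMod p) c →
    (∀ j, (p : ℝ) ^ δ ≤ orderOf (g j)) → (∀ i j, i ≠ j → (p : ℝ) ^ δ ≤ orderOf (g i / g j)) →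
    (p : ℝ) ^ δ ≤ N → ∀ a : Fin r → ZMod p, a ≠ 0 →
    ‖∑ n ∈ range N, (ZMod.stdAddChar (∑ j, a j *
      ∑ i, c j i * (g i : ZMod p) ^ n) : ℂ)‖ ≤ N * (p : ℝ) ^ (-ε) := by
  obtain ⟨ε, hε, P0, h⟩ := progressions k hδ
  refine ⟨ε, hε, P0, ?_⟩
  intro p hp hpP r c g N hc hg hgg hN a ha
  have h0 : (∑ j, a j • c j) ≠ 0 := by
    intro h0
    rw [Fintype.linearIndependent_iff] at hc
    exact ha (funext (hc a h0))
  have h1 := h p hpP (fun _ => 1) g N hg hgg hN _ h0
  refine le_trans (le_of_eq ?_) h1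
  congr 1
  refine Finset.sum_congr rfl fun n _ => ?_
  congr 1
  simp only [Units.val_one, one_mul, Units.val_pow_eq_pow_val]
  rw [Finset.sum_congr rfl fun j _ => Finset.mul_sum _ _ _, Finset.sum_comm]
  refine Finset.sum_congr rfl fun i _ => ?_
  rw [Finset.sum_apply, Finset.sum_mul]
  refine Finset.sum_congr rfl fun j _ => ?_
  rw [Pi.smul_apply, smul_eq_mul]
  ring

/-- the order of an integer power -/
theorem order_zpow {G : Type*} [Group G] (g : G) (k : ℤ) {Q : ℝ}
    (ho : 0 < orderOf (g ^ k)) (ho' : 0 < orderOf g)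
    (h : Q * Int.gcd k (orderOf g) ≤ orderOf g) : Q ≤ orderOf (g ^ k) := by
  set m := orderOf (g ^ k) with hm
  have h1 : (g ^ k) ^ m = 1 := pow_orderOf_eq_one _
  have h2 : g ^ (k * m) = 1 := by
    rw [zpow_mul, zpow_natCast]
    exact h1
  have h3 : (orderOf g : ℤ) ∣ k * m := orderOf_dvd_iff_zpow_eq_one.2 h2
  have h4 : orderOf g ≤ Int.gcd k (orderOf g) * m := by
    have h5 : (orderOf g : ℤ) ∣ (Int.gcd (k * m) (orderOf g * m) : ℕ) :=
      Int.dvd_coe_gcd h3 (Dvd.intro _ rfl)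
    have h6 : Int.gcd (k * m) (orderOf g * m) = Int.gcd k (orderOf g) * m := by
      rw [Int.gcd_mul_right]
      simp
    rw [h6] at h5
    refine Nat.le_of_dvd ?_ (by exact_mod_cast h5)
    refine Nat.mul_pos ?_ ho
    rw [Int.gcd_pos_iff]
    right
    exact_mod_cast ho'.ne'
  have h7 : (orderOf g : ℝ) ≤ Int.gcd k (orderOf g) * m := by exact_mod_cast h4
  have h8 : (0 : ℝ) < Int.gcd k (orderOf g) := by
    have : 0 < Int.gcd k (orderOf g) := by
      rw [Int.gcd_pos_iff]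
      right
      exact_mod_cast ho'.ne'
    exact_mod_cast this
  refine le_of_mul_le_mul_left ?_ h8
  linarith

/-- monomials at the elements of a subgroup -/
theorem monomials (r : ℕ) {δ : ℝ} (hδ : 0 < δ) : ∃ ε : ℝ, 0 < ε ∧ ∃ P0 : ℕ,
    ∀ (p : ℕ) [Fact p.Prime], P0 ≤ p → ∀ (H : Subgroup (ZMod p)ˣ) (s : Finset (ZMod p)ˣ),
    (∀ h, h ∈ s ↔ h ∈ H) → ∀ (x : Fin r → (ZMod p)ˣ) (k : Fin r → ℤ),
    (∀ j, (p : ℝ) ^ δ * Int.gcd (k j) s.card ≤ s.card) →
    (∀ i j, i ≠ j → (p : ℝ) ^ δ * Int.gcd (k i - k j) s.card ≤ s.card) →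
    ∀ a : Fin r → ZMod p, a ≠ 0 →
    ‖∑ h ∈ s, (ZMod.stdAddChar (∑ j, a j *
      ((x j : ZMod p) * ((h ^ k j : (ZMod p)ˣ) : ZMod p))) : ℂ)‖ ≤ s.card * (p : ℝ) ^ (-ε) := by
  classical
  obtain ⟨ε, hε, P0, h⟩ := progressions r hδ
  refine ⟨ε, hε, P0, ?_⟩
  intro p hp hpP H s hs x k hk hkk a ha
  obtain ⟨g, hg⟩ := (inferInstance : IsCyclic H).exists_generator
  have hHs : (s : Set (ZMod p)ˣ) = H := by
    ext u
    exact hs u
  have hgH : ∀ u : (ZMod p)ˣ, u ∈ H ↔ u ∈ Subgroup.zpowers (g : (ZMod p)ˣ) := by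
    intro u
    constructor
    · intro hu
      obtain ⟨n, hn⟩ := Subgroup.mem_zpowers_iff.1 (hg ⟨u, hu⟩)
      refine Subgroup.mem_zpowers_iff.2 ⟨n, ?_⟩
      have := congrArg Subtype.val hn
      simpa using this
    · intro hu
      obtain ⟨n, rfl⟩ := Subgroup.mem_zpowers_iff.1 hu
      exact Subgroup.zpow_mem _ g.2 n
  set u : (ZMod p)ˣ := (g : (ZMod p)ˣ) with hu
  have hord0 : 0 < orderOf u := orderOf_pos u
  have himg : s = (range (orderOf u)).image fun n => u ^ n := by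
    ext y
    rw [hs, hgH, mem_zpowers_iff_mem_range_orderOf]
  have hinj : Set.InjOn (fun n : ℕ => u ^ n) (range (orderOf u) : Set ℕ) := by
    intro m hm n hn hmn
    rw [Finset.mem_coe, Finset.mem_range] at hm hn
    exact pow_inj u hm hn hmn
  have hcard : s.card = orderOf u := by
    rw [himg, Finset.card_image_of_injOn hinj, Finset.card_range]
  have hp0 : (0 : ℝ) < p := by exact_mod_cast hp.out.pos
  rw [hcard] at hk hkk
  have h0 : ∀ k' : ℤ, (p : ℝ) ^ δ * Int.gcd k' (orderOf u) ≤ orderOf u →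
      (p : ℝ) ^ δ ≤ orderOf (u ^ k') := fun k' hk' =>
    order_zpow u k' (orderOf_pos _) hord0 hk'
  have h1 := h p hpP x (fun j => u ^ k j) (orderOf u) (fun j => h0 _ (hk j))
    (fun i j hij => by
      have := h0 _ (hkk i j hij)
      rwa [zpow_sub, ← div_eq_mul_inv] at this)
    (by
      rcases Nat.eq_zero_or_pos r with hr | hr
      · subst hr
        exact absurd (Subsingleton.elim a 0) ha
      · have h2 := hk ⟨0, hr⟩
        have h3 : (1 : ℝ) ≤ Int.gcd (k ⟨0, hr⟩) (orderOf u) := by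
          have : 0 < Int.gcd (k ⟨0, hr⟩) (orderOf u) := by
            rw [Int.gcd_pos_iff]
            right
            exact_mod_cast hord0.ne'
          exact_mod_cast this
        calc (p : ℝ) ^ δ = (p : ℝ) ^ δ * 1 := (mul_one _).symm
          _ ≤ (p : ℝ) ^ δ * Int.gcd (k ⟨0, hr⟩) (orderOf u) := by gcongr
          _ ≤ _ := h2) a ha
  rw [hcard, himg, Finset.sum_image hinj]
  refine le_trans (le_of_eq ?_) h1
  congr 1
  refine Finset.sum_congr rfl fun n _ => ?_
  congr 1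
  refine Finset.sum_congr rfl fun j _ => ?_
  congr 3
  rw [← zpow_natCast, ← zpow_natCast, ← zpow_mul, ← zpow_mul, mul_comm]

/-- few primes divide `a ^ t - b ^ t` for some small `t` -/
theorem card_pf (a b t : ℕ) (hb : 1 ≤ b) (hab : b < a) (ht : 1 ≤ t) :
    (a ^ t - b ^ t).primeFactors.card ≤ a * t := by
  have h0 : b ^ t < a ^ t := Nat.pow_lt_pow_left hab (by omega)
  have h1 : a ^ t - b ^ t ≠ 0 := by omega
  have h2 : 2 ^ (a ^ t - b ^ t).primeFactors.card ≤ a ^ t - b ^ t := by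
    calc 2 ^ (a ^ t - b ^ t).primeFactors.card = ∏ _p ∈ (a ^ t - b ^ t).primeFactors, 2 := by
          rw [prod_const]
      _ ≤ ∏ p ∈ (a ^ t - b ^ t).primeFactors, p :=
          prod_le_prod' fun p hp => (Nat.prime_of_mem_primeFactors hp).two_le
      _ ≤ _ := Nat.le_of_dvd (Nat.pos_of_ne_zero h1) (Nat.prod_primeFactors_dvd _)
  have h3 : a ^ t - b ^ t ≤ 2 ^ (a * t) := by
    calc a ^ t - b ^ t ≤ a ^ t := Nat.sub_le _ _
      _ ≤ (2 ^ a) ^ t := Nat.pow_le_pow_left (Nat.lt_two_pow_self).le t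
      _ = 2 ^ (a * t) := by rw [pow_mul]
  exact (Nat.pow_le_pow_iff_right (by norm_num)).1 (h2.trans h3)

/-- the primes dividing some `a ^ t - b ^ t` -/
def Bad (a b T : ℕ) : Finset ℕ := (Icc 1 T).biUnion fun t => (a ^ t - b ^ t).primeFactors

theorem card_bad (a b T : ℕ) (hb : 1 ≤ b) (hab : b < a) : (Bad a b T).card ≤ a * T ^ 2 := by
  unfold Bad
  refine card_biUnion_le.trans ?_
  calc ∑ t ∈ Icc 1 T, (a ^ t - b ^ t).primeFactors.card ≤ ∑ t ∈ Icc 1 T, a * T := by
        refine sum_le_sum fun t ht => ?_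
        rw [mem_Icc] at ht
        exact (card_pf a b t hb hab ht.1).trans (Nat.mul_le_mul_left _ ht.2)
    _ = a * T ^ 2 := by
        rw [sum_const, Nat.card_Icc, smul_eq_mul]
        simp only [Nat.add_sub_cancel]
        ring

theorem order_gt {p : ℕ} [hp : Fact p.Prime] {a b T : ℕ} (hb : 1 ≤ b) (hab : b < a)
    (hbad : p ∉ Bad a b T) (u w : (ZMod p)ˣ) (hu : (u : ZMod p) = a) (hw : (w : ZMod p) = b) :
    T < orderOf (u / w) := by
  by_contra hle
  rw [not_lt] at hle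
  apply hbad
  have h0 : 0 < orderOf (u / w) := orderOf_pos _
  have h0' : b ^ orderOf (u / w) < a ^ orderOf (u / w) := Nat.pow_lt_pow_left hab (by omega)
  unfold Bad
  rw [mem_biUnion]
  refine ⟨orderOf (u / w), mem_Icc.2 ⟨h0, hle⟩, ?_⟩
  rw [Nat.mem_primeFactors]
  refine ⟨hp.out, ?_, by omega⟩
  rw [← ZMod.natCast_eq_zero_iff, Nat.cast_sub h0'.le, sub_eq_zero]
  have h1 := pow_orderOf_eq_one (u / w)
  rw [div_pow, div_eq_one] at h1
  have h2 := congrArg (fun z : (ZMod p)ˣ => (z : ZMod p)) h1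
  simp only [Units.val_pow_eq_pow_val, hu, hw] at h2
  push_cast
  exact h2

/-- for all but few primes the orders of the bases and of their quotients are large -/
theorem few_primes {r : ℕ} (b : Fin r → ℕ) (hb : ∀ j, 2 ≤ b j) (hinj : Function.Injective b) :
    ∃ C : ℕ, ∀ T : ℕ, 1 ≤ T → ∃ E : Finset ℕ, E.card ≤ C * T ^ 2 ∧
      ∀ (p : ℕ) [Fact p.Prime], p ∉ E → ∃ g : Fin r → (ZMod p)ˣ, (∀ j, (g j : ZMod p) = b j) ∧
        (∀ j, T < orderOf (g j)) ∧ (∀ i j, i ≠ j → T < orderOf (g i / g j)) := by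
  classical
  set A := ∑ j, b j with hA
  have hbA : ∀ j, b j ≤ A := fun j => Finset.single_le_sum (fun _ _ => Nat.zero_le _)
    (Finset.mem_univ j)
  refine ⟨A + 1 + r * A + r * r * A, fun T hT => ?_⟩
  refine ⟨range (A + 1) ∪ (univ.biUnion fun j : Fin r => Bad (b j) 1 T) ∪
    ((univ ×ˢ univ : Finset (Fin r × Fin r)).filter fun x => b x.2 < b x.1).biUnion
      (fun x => Bad (b x.1) (b x.2) T), ?_, ?_⟩
  · have h1 : (univ.biUnion fun j : Fin r => Bad (b j) 1 T).card ≤ r * (A * T ^ 2) := by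
      refine card_biUnion_le.trans ?_
      calc _ ≤ ∑ _j : Fin r, A * T ^ 2 := sum_le_sum fun j _ =>
            (card_bad (b j) 1 T le_rfl (by have := hb j; omega)).trans
              (Nat.mul_le_mul_right _ (hbA j))
        _ = _ := by rw [sum_const, card_univ, Fintype.card_fin, smul_eq_mul]
    have h2 : (((univ ×ˢ univ : Finset (Fin r × Fin r)).filter fun x => b x.2 < b x.1).biUnion
        (fun x => Bad (b x.1) (b x.2) T)).card ≤ (r * r) * (A * T ^ 2) := by
      refine card_biUnion_le.trans ?_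
      calc _ ≤ ∑ _x ∈ (univ ×ˢ univ : Finset (Fin r × Fin r)).filter fun x => b x.2 < b x.1,
            A * T ^ 2 := sum_le_sum fun x hx =>
            (card_bad (b x.1) (b x.2) T (by have := hb x.2; omega) (mem_filter.1 hx).2).trans
              (Nat.mul_le_mul_right _ (hbA x.1))
        _ = ((univ ×ˢ univ : Finset (Fin r × Fin r)).filter fun x => b x.2 < b x.1).card *
            (A * T ^ 2) := by rw [sum_const, smul_eq_mul]
        _ ≤ _ := by
            refine Nat.mul_le_mul_right _ ((card_filter_le _ _).trans ?_)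
            rw [card_product, card_univ, Fintype.card_fin]
    have h3 : 1 ≤ T ^ 2 := Nat.one_le_pow _ _ hT
    calc _ ≤ (A + 1) + r * (A * T ^ 2) + (r * r) * (A * T ^ 2) := by
          refine (card_union_le _ _).trans (Nat.add_le_add ((card_union_le _ _).trans
            (Nat.add_le_add ?_ h1)) h2)
          rw [card_range]
      _ ≤ (A + 1) * T ^ 2 + r * (A * T ^ 2) + (r * r) * (A * T ^ 2) := by
          have : (A + 1) * 1 ≤ (A + 1) * T ^ 2 := Nat.mul_le_mul_left _ h3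
          omega
      _ = _ := by ring
  · intro p hp hpE
    rw [mem_union, mem_union, not_or, not_or, mem_range] at hpE
    obtain ⟨⟨hpA, hE1⟩, hE2⟩ := hpE
    have hpb : ∀ j, (b j : ZMod p) ≠ 0 := by
      intro j h
      rw [ZMod.natCast_eq_zero_iff] at h
      have := Nat.le_of_dvd (by have := hb j; omega) h
      have := hbA j
      omega
    refine ⟨fun j => Units.mk0 (b j : ZMod p) (hpb j), fun j => rfl, fun j => ?_, ?_⟩
    · have h1 : p ∉ Bad (b j) 1 T := fun h =>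
        hE1 (mem_biUnion.2 ⟨j, mem_univ _, h⟩)
      have h2 := order_gt le_rfl (by have := hb j; omega) h1 (Units.mk0 (b j : ZMod p) (hpb j)) 1
        rfl (by simp)
      rwa [div_one] at h2
    · intro i j hij
      rcases Nat.lt_or_ge (b j) (b i) with h | h
      · have h1 : p ∉ Bad (b i) (b j) T := fun h' =>
          hE2 (mem_biUnion.2 ⟨(i, j), mem_filter.2 ⟨by simp, h⟩, h'⟩)
        exact order_gt (by have := hb j; omega) h h1 _ _ rfl rfl
      · have h' : b i < b j := lt_of_le_of_ne h fun he => hij (hinj he)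
        have h1 : p ∉ Bad (b j) (b i) T := fun h'' =>
          hE2 (mem_biUnion.2 ⟨(j, i), mem_filter.2 ⟨by simp, h'⟩, h''⟩)
        have h2 := order_gt (by have := hb i; omega) h' h1 (Units.mk0 (b j : ZMod p) (hpb j))
          (Units.mk0 (b i : ZMod p) (hpb i)) rfl rfl
        rwa [← orderOf_inv, inv_div] at h2

end Pool.Agent.Run7.h823.BK
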