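import Pool.Agent.Run7.h823.BK9
import Pool.Agent.N825.FC.Fin

/-!
# Record prime gaps at short geometric progressions modulo primes
-/

set_option autoImplicit false
open Finset

namespace Pool.Agent.Run7.h823.BK

open Pool.Agent.N825.FC (Many Mid crit)

/-- the criterion, with two exponents -/
theorem crit2 (r : ℕ) (hr : 1 ≤ r) {ε₁ ε : ℝ} (hε₁ : 0 < ε₁) (hε : 0 < ε) :
    ∃ κ : ℝ, 0 < κ ∧ ∃ δ : ℝ, 0 < δ ∧ ∃ P₀ : ℝ, ∀ (P : ℕ) [Fact P.Prime], P₀ ≤ P →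
    ∀ (ι : Type) (s : Finset ι) (v : ι → Fin r → ZMod P), s.Nonempty →
    (∀ h : Fin r → ZMod P, h ≠ 0 →
      ‖∑ i ∈ s, (ZMod.stdAddChar (∑ j, h j * v i j) : ℂ)‖ ≤ s.card * (P : ℝ) ^ (-ε₁)) →
    Many κ ε δ P s v := by
  set ε₂ := min 1 (min ε₁ ε) with hε₂
  have h0 : 0 < ε₂ := lt_min one_pos (lt_min hε₁ hε)
  obtain ⟨κ, hκ, δ, hδ, P₀, h⟩ := crit r hr ε₂ h0 (min_le_left _ _)
  refine ⟨κ, hκ, δ, hδ, P₀, ?_⟩
  intro P hP hPP ι s v hs hv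
  have hP1 : (1 : ℝ) ≤ P := by exact_mod_cast hP.out.one_lt.le
  refine Many.mono hP1 ((min_le_right _ _).trans (min_le_right _ _))
    (h P hPP ι s v hs fun a ha => (hv a ha).trans ?_)
  refine mul_le_mul_of_nonneg_left (Real.rpow_le_rpow_of_exponent_le hP1 ?_) (Nat.cast_nonneg _)
  have : ε₂ ≤ ε₁ := (min_le_right _ _).trans (min_le_left _ _)
  linarith

/-- values of linear recurrences -/
theorem many_recurrences (r k : ℕ) (hr : 1 ≤ r) {ε : ℝ} (hε : 0 < ε) :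
    ∃ κ : ℝ, 0 < κ ∧ ∃ δ : ℝ, 0 < δ ∧ ∃ P₀ : ℝ, ∀ (p : ℕ) [Fact p.Prime], P₀ ≤ p →
    ∀ (c : Fin r → Fin k → ZMod p) (g : Fin k → (ZMod p)ˣ) (N : ℕ),
    LinearIndependent (ZMod p) c → (∀ j, (p : ℝ) ^ ε ≤ orderOf (g j)) →
    (∀ i j, i ≠ j → (p : ℝ) ^ ε ≤ orderOf (g i / g j)) → (p : ℝ) ^ ε ≤ N →
    Many κ ε δ p (range N) (fun n j => ∑ i, c j i * (g i : ZMod p) ^ n) := by
  obtain ⟨ε₁, hε₁, P0, h⟩ := recurrences k hε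
  obtain ⟨κ, hκ, δ, hδ, P₀, h'⟩ := crit2 r hr hε₁ hε
  refine ⟨κ, hκ, δ, hδ, max P₀ P0, ?_⟩
  intro p hp hpP c g N hc hg hgg hN
  have hp0 : (0 : ℝ) < p := by exact_mod_cast hp.out.pos
  refine h' p ((le_max_left _ _).trans hpP) _ _ _ ?_ fun a ha => ?_
  · have : (0 : ℝ) < N := lt_of_lt_of_le (Real.rpow_pos_of_pos hp0 _) hN
    exact ⟨0, mem_range.2 (by exact_mod_cast this)⟩
  · rw [card_range]
    exact h p (by exact_mod_cast (le_max_right _ _).trans hpP) r c g N hc hg hgg hN a ha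

/-- monomials on small subgroups -/
theorem many_monomials (r : ℕ) (hr : 1 ≤ r) {ε : ℝ} (hε : 0 < ε) :
    ∃ κ : ℝ, 0 < κ ∧ ∃ δ : ℝ, 0 < δ ∧ ∃ P₀ : ℝ, ∀ (p : ℕ) [Fact p.Prime], P₀ ≤ p →
    ∀ (H : Subgroup (ZMod p)ˣ) (s : Finset (ZMod p)ˣ), (∀ h, h ∈ s ↔ h ∈ H) →
    ∀ (x : Fin r → (ZMod p)ˣ) (k : Fin r → ℤ),
    (∀ j, (p : ℝ) ^ ε * Int.gcd (k j) s.card ≤ s.card) →
    (∀ i j, i ≠ j → (p : ℝ) ^ ε * Int.gcd (k i - k j) s.card ≤ s.card) →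
    Many κ ε δ p s (fun h j => (x j : ZMod p) * ((h ^ k j : (ZMod p)ˣ) : ZMod p)) := by
  obtain ⟨ε₁, hε₁, P0, h⟩ := monomials r hε
  obtain ⟨κ, hκ, δ, hδ, P₀, h'⟩ := crit2 r hr hε₁ hε
  refine ⟨κ, hκ, δ, hδ, max P₀ P0, ?_⟩
  intro p hp hpP H s hs x k hk hkk
  refine h' p ((le_max_left _ _).trans hpP) _ _ _ ⟨1, (hs 1).2 H.one_mem⟩ fun a ha => ?_
  exact h p (by exact_mod_cast (le_max_right _ _).trans hpP) H s hs x k hk hkk a ha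

/-- all but few primes, fixed bases -/
theorem many_primes (r : ℕ) (hr : 1 ≤ r) {ε : ℝ} (hε : 0 < ε) :
    ∃ κ : ℝ, 0 < κ ∧ ∃ δ : ℝ, 0 < δ ∧ ∀ b : Fin r → ℕ, (∀ j, 2 ≤ b j) → Function.Injective b →
    ∃ C : ℝ, ∀ X : ℕ, 1 ≤ X → ∀ Q : Finset ℕ,
    (∀ p ∈ Q, p.Prime ∧ p ≤ X ∧ ¬ ∀ N : ℕ, (p : ℝ) ^ ε ≤ N → ∀ x : Fin r → ZMod p,
      (∀ j, x j ≠ 0) → Many κ ε δ p (range N) (fun n j => x j * (b j : ZMod p) ^ n)) →
    (Q.card : ℝ) ≤ C * (X : ℝ) ^ ε := by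
  classical
  obtain ⟨ε₁, hε₁, P0, h⟩ := progressions r (δ := ε / 2) (by positivity)
  obtain ⟨κ, hκ, δ, hδ, P₀, h'⟩ := crit2 r hr hε₁ hε
  refine ⟨κ, hκ, δ, hδ, ?_⟩
  intro b hb hinj
  obtain ⟨C, hC⟩ := few_primes b hb hinj
  set N₀ : ℕ := ⌈P₀⌉₊ + P0 with hN₀
  refine ⟨N₀ + 4 * C, ?_⟩
  intro X hX Q hQ
  have hX1 : (1 : ℝ) ≤ X := by exact_mod_cast hX
  have hX0 : (0 : ℝ) < X := by linarith
  set T : ℕ := ⌈(X : ℝ) ^ (ε / 2)⌉₊ with hT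
  have hT1 : (1 : ℝ) ≤ (X : ℝ) ^ (ε / 2) := Real.one_le_rpow hX1 (by positivity)
  have hT2 : (T : ℝ) ≤ 2 * (X : ℝ) ^ (ε / 2) := by
    have := Nat.ceil_lt_add_one (show 0 ≤ (X : ℝ) ^ (ε / 2) by positivity)
    rw [← hT] at this
    linarith
  have hT3 : (X : ℝ) ^ (ε / 2) ≤ T := Nat.le_ceil _
  have hT0 : 1 ≤ T := by
    have : (1 : ℝ) ≤ T := hT1.trans hT3
    exact_mod_cast this
  obtain ⟨E, hE1, hE2⟩ := hC T hT0
  have hsub : Q ⊆ range N₀ ∪ E := by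
    intro p hpQ
    obtain ⟨hpp, hpX, hbad⟩ := hQ p hpQ
    by_contra hcon
    rw [mem_union, not_or, mem_range] at hcon
    obtain ⟨c1, c2⟩ := hcon
    apply hbad
    have : Fact p.Prime := ⟨hpp⟩
    have hp0 : (0 : ℝ) < p := by exact_mod_cast hpp.pos
    obtain ⟨g, hg1, hg2, hg3⟩ := hE2 p c2
    have hpX' : (p : ℝ) ≤ X := by exact_mod_cast hpX
    have hpT : (p : ℝ) ^ (ε / 2) ≤ T :=
      (Real.rpow_le_rpow hp0.le hpX' (by positivity)).trans hT3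
    intro N hN x hx
    have hp1 : (1 : ℝ) ≤ p := by exact_mod_cast hpp.one_lt.le
    have hN' : (p : ℝ) ^ (ε / 2) ≤ N :=
      (Real.rpow_le_rpow_of_exponent_le hp1 (by linarith)).trans hN
    refine h' p ?_ _ _ _ ?_ fun a ha => ?_
    · have : ⌈P₀⌉₊ ≤ p := by omega
      exact (Nat.le_ceil P₀).trans (by exact_mod_cast this)
    · have : (0 : ℝ) < N := lt_of_lt_of_le (Real.rpow_pos_of_pos hp0 _) hN'
      exact ⟨0, mem_range.2 (by exact_mod_cast this)⟩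
    · have h1 := h p (by omega) (fun j => Units.mk0 (x j) (hx j)) g N
        (fun j => hpT.trans (by exact_mod_cast (hg2 j).le))
        (fun i j hij => hpT.trans (by exact_mod_cast (hg3 i j hij).le)) hN' a ha
      simp only [Units.val_mk0, Units.val_pow_eq_pow_val, hg1] at h1
      rw [card_range]
      exact h1
  have h1 : Q.card ≤ N₀ + C * T ^ 2 := by
    refine (card_le_card hsub).trans ((card_union_le _ _).trans ?_)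
    rw [card_range]
    omega
  have h2 : (Q.card : ℝ) ≤ N₀ + C * (T : ℝ) ^ 2 := by exact_mod_cast h1
  have h3 : (T : ℝ) ^ 2 ≤ 4 * (X : ℝ) ^ ε := by
    calc (T : ℝ) ^ 2 ≤ (2 * (X : ℝ) ^ (ε / 2)) ^ 2 :=
          pow_le_pow_left₀ (Nat.cast_nonneg _) hT2 2
      _ = 4 * ((X : ℝ) ^ (ε / 2)) ^ 2 := by ring
      _ = 4 * (X : ℝ) ^ ε := by
          rw [← Real.rpow_natCast, ← Real.rpow_mul hX0.le]
          congr 2
          push_cast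
          ring
  have h4 : (1 : ℝ) ≤ (X : ℝ) ^ ε := Real.one_le_rpow hX1 hε.le
  calc (Q.card : ℝ) ≤ N₀ * 1 + C * (T : ℝ) ^ 2 := by rw [mul_one]; exact h2
    _ ≤ N₀ * (X : ℝ) ^ ε + C * (4 * (X : ℝ) ^ ε) := by gcongr
    _ = _ := by ring

end Pool.Agent.Run7.h823.BK
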