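import Pool.Agent.Run7.h823.BKB
import Pool.Agent.Run7.h246.LP.Apps

/-!
# Large least primes in the classes of families with small exponential sums
-/

set_option autoImplicit false
open Finset

namespace Pool.Agent.Run7.h823.BK

open Pool.Agent.W147.PS (ff)

open scoped Classical in
/-- many members of the family are represented in every large box by classes with a large least prime -/
def ManyCl (κ ε δ : ℝ) (m : ℕ) {ι : Type} {r : ℕ} (s : Finset ι) (v : ι → Fin r → ZMod m) : Prop :=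
  ∀ (M : Fin r → ℤ) (L : Fin r → ℕ),
    (∀ j, (m : ℝ) ^ ε ≤ M j ∧ (m : ℝ) ^ (1 - δ) ≤ L j ∧ M j + L j ≤ m) →
    s.card * (m : ℝ) ^ (-ε) ≤ ((s.filter fun i => ∀ j, ∃ c : ℤ, M j < c ∧ c ≤ M j + L j ∧
      (c : ZMod m) = v i j ∧ ∀ q : ℕ, q.Prime → (q : ℤ) ≡ c [ZMOD m] → κ * m * ff m < q).card : ℝ)

open scoped Classical in
theorem critP (r : ℕ) (hr : 1 ≤ r) {ε₁ ε : ℝ} (hε₁ : 0 < ε₁) (hε : 0 < ε) :
    ∃ κ : ℝ, 0 < κ ∧ ∃ δ : ℝ, 0 < δ ∧ ∃ P₀ : ℕ, ∀ (P : ℕ) [Fact P.Prime], P₀ ≤ P →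
    ∀ (ι : Type) (s : Finset ι) (v : ι → Fin r → ZMod P), s.Nonempty →
    (∀ h : Fin r → ZMod P, h ≠ 0 →
      ‖∑ i ∈ s, (ZMod.stdAddChar (∑ j, h j * v i j) : ℂ)‖ ≤ s.card * (P : ℝ) ^ (-ε₁)) →
    ManyCl κ ε δ P s v := by
  have hrR : (1 : ℝ) ≤ r := by exact_mod_cast hr
  have hr0 : (0 : ℝ) < r := by linarith
  obtain ⟨d, hd⟩ : ∃ d, min (1 / 2) (min (ε₁ / 2) (ε / 2)) = d := ⟨_, rfl⟩
  have hd0 : 0 < d := hd ▸ lt_min (by norm_num) (lt_min (by positivity) (by positivity))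
  have hd1 : d ≤ 1 / 2 := hd ▸ min_le_left _ _
  have hd2 : d ≤ ε₁ / 2 := hd ▸ (min_le_right _ _).trans (min_le_left _ _)
  have hd3 : d ≤ ε / 2 := hd ▸ (min_le_right _ _).trans (min_le_right _ _)
  obtain ⟨κ, hκ, P₀, hm⟩ := Pool.Agent.Run7.h246.LP.mainS_fintype r hr ε₁ d hd0 (by linarith)
  refine ⟨κ, hκ, d / r, by positivity, P₀, ?_⟩
  intro p hp hpP ι s v hs hv M L hML
  have hp0 : (0 : ℝ) < p := by exact_mod_cast hp.out.pos
  have hp1 : (1 : ℝ) ≤ p := by exact_mod_cast hp.out.one_lt.le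
  have hdr : d / r ≤ d := div_le_self hd0.le hrR
  have hLp : ∀ j, L j ≤ p := by
    intro j
    obtain ⟨h1, h2, h3⟩ := hML j
    have h4 : (0 : ℝ) < M j := lt_of_lt_of_le (Real.rpow_pos_of_pos hp0 _) h1
    have h5 : 0 < M j := by exact_mod_cast h4
    have h6 : (L j : ℤ) ≤ p := by omega
    exact_mod_cast h6
  have hLd : ∀ j, (p : ℝ) ^ d ≤ L j := by
    intro j
    refine le_trans (Real.rpow_le_rpow_of_exponent_le hp1 ?_) (hML j).2.1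
    linarith
  have hprod : (p : ℝ) ^ ((r : ℝ) * (1 - d / r)) ≤ ∏ j, (L j : ℝ) := by
    calc (p : ℝ) ^ ((r : ℝ) * (1 - d / r)) = ∏ _j : Fin r, (p : ℝ) ^ (1 - d / r) := by
          rw [prod_const, card_univ, Fintype.card_fin, ← Real.rpow_natCast, ← Real.rpow_mul hp0.le]
          congr 1
          ring
      _ ≤ ∏ j, (L j : ℝ) := Finset.prod_le_prod (fun j _ => by positivity) fun j _ => (hML j).2.1
  have hrd : (r : ℝ) * (1 - d / r) = r - d := by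
    field_simp
  rw [hrd] at hprod
  have h1 := hm p hpP (Fin r) (Fintype.card_fin r) ι s v hs hv (fun _ => (p : ℤ))
    (fun _ => Pool.Agent.Run7.h246.LP.prime_rough hp.out (by linarith)) M L hLp hLd
    ((Real.rpow_le_rpow_of_exponent_le hp1 (by linarith)).trans hprod)
  have h2 : (s.card : ℝ) * (p : ℝ) ^ (-ε) ≤ (p : ℝ) ^ (-d) * (s.card * ∏ j, ((L j : ℝ) / p)) := by
    have h3 : ∏ j, ((L j : ℝ) / p) = (∏ j, (L j : ℝ)) / (p : ℝ) ^ (r : ℝ) := by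
      rw [Finset.prod_div_distrib, prod_const, card_univ, Fintype.card_fin, Real.rpow_natCast]
    have h4 : (p : ℝ) ^ (-d) ≤ ∏ j, ((L j : ℝ) / p) := by
      rw [h3, le_div_iff₀ (Real.rpow_pos_of_pos hp0 _), ← Real.rpow_add hp0]
      refine le_trans (le_of_eq ?_) hprod
      congr 1
      ring
    have h5 : (p : ℝ) ^ (-ε) ≤ (p : ℝ) ^ (-d) * (p : ℝ) ^ (-d) := by
      rw [← Real.rpow_add hp0]
      exact Real.rpow_le_rpow_of_exponent_le hp1 (by linarith)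
    calc (s.card : ℝ) * (p : ℝ) ^ (-ε) ≤ s.card * ((p : ℝ) ^ (-d) * (p : ℝ) ^ (-d)) := by gcongr
      _ ≤ s.card * ((p : ℝ) ^ (-d) * ∏ j, ((L j : ℝ) / p)) := by gcongr
      _ = _ := by ring
  refine h2.trans (h1.trans ?_)
  apply Nat.cast_le.2
  apply Finset.card_le_card
  intro i hi
  simp only [Finset.mem_filter] at hi ⊢
  obtain ⟨hi1, hi2⟩ := hi
  refine ⟨hi1, fun j => ?_⟩
  obtain ⟨z, hz1, hz2, hz3, hz4⟩ := hi2 j
  refine ⟨z, hz1, hz2, hz3, ?_⟩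
  obtain ⟨h6, h7, h8⟩ := hML j
  have h9 : (p : ℝ) ^ d < z := by
    have h10 : (M j : ℝ) < z := by exact_mod_cast hz1
    have h11 : (p : ℝ) ^ d ≤ (p : ℝ) ^ ε := Real.rpow_le_rpow_of_exponent_le hp1 (by linarith)
    linarith
  intro q hq hqz
  have h10 := Pool.Agent.Run7.h246.LP.noprime hp.out h9 (by omega) hz4 q hq hqz
  calc κ * p * ff p = κ * ff p * p := by ring
    _ < q := h10

/-- values of linear recurrences -/
theorem class_recurrences (r k : ℕ) (hr : 1 ≤ r) {ε : ℝ} (hε : 0 < ε) :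
    ∃ κ : ℝ, 0 < κ ∧ ∃ δ : ℝ, 0 < δ ∧ ∃ P₀ : ℕ, ∀ (p : ℕ) [Fact p.Prime], P₀ ≤ p →
    ∀ (c : Fin r → Fin k → ZMod p) (g : Fin k → (ZMod p)ˣ) (N : ℕ),
    LinearIndependent (ZMod p) c → (∀ j, (p : ℝ) ^ ε ≤ orderOf (g j)) →
    (∀ i j, i ≠ j → (p : ℝ) ^ ε ≤ orderOf (g i / g j)) → (p : ℝ) ^ ε ≤ N →
    ManyCl κ ε δ p (range N) (fun n j => ∑ i, c j i * (g i : ZMod p) ^ n) := by
  obtain ⟨ε₁, hε₁, P0, h⟩ := recurrences k hε
  obtain ⟨κ, hκ, δ, hδ, P₀, h'⟩ := critP r hr hε₁ hε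
  refine ⟨κ, hκ, δ, hδ, P₀ + P0, ?_⟩
  intro p hp hpP c g N hc hg hgg hN
  have hp0 : (0 : ℝ) < p := by exact_mod_cast hp.out.pos
  refine h' p (by omega) _ _ _ ?_ fun a ha => ?_
  · have : (0 : ℝ) < N := lt_of_lt_of_le (Real.rpow_pos_of_pos hp0 _) hN
    exact ⟨0, mem_range.2 (by exact_mod_cast this)⟩
  · rw [card_range]
    exact h p (by omega) r c g N hc hg hgg hN a ha

/-- all but few moduli, fixed bases -/
theorem class_primes (r : ℕ) (hr : 1 ≤ r) {ε : ℝ} (hε : 0 < ε) :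
    ∃ κ : ℝ, 0 < κ ∧ ∃ δ : ℝ, 0 < δ ∧ ∀ b : Fin r → ℕ, (∀ j, 2 ≤ b j) → Function.Injective b →
    ∃ C : ℝ, ∀ X : ℕ, 1 ≤ X → ∀ Q : Finset ℕ,
    (∀ p ∈ Q, p.Prime ∧ p ≤ X ∧ ¬ ∀ N : ℕ, (p : ℝ) ^ ε ≤ N → ∀ x : Fin r → ZMod p,
      (∀ j, x j ≠ 0) → ManyCl κ ε δ p (range N) (fun n j => x j * (b j : ZMod p) ^ n)) →
    (Q.card : ℝ) ≤ C * (X : ℝ) ^ ε := by
  classical
  obtain ⟨ε₁, hε₁, P0, h⟩ := progressions r (δ := ε / 2) (by positivity)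
  obtain ⟨κ, hκ, δ, hδ, P₀, h'⟩ := critP r hr hε₁ hε
  refine ⟨κ, hκ, δ, hδ, ?_⟩
  intro b hb hinj
  obtain ⟨C, hC⟩ := few_primes b hb hinj
  set N₀ : ℕ := P₀ + P0 with hN₀
  refine ⟨N₀ + 4 * C, ?_⟩
  intro X hX Q hQ
  have hX1 : (1 : ℝ) ≤ X := by exact_mod_cast hX
  have hX0 : (0 : ℝ) < X := by linarith
  set T : ℕ := ⌈(X : ℝ) ^ (ε / 2)⌉₊ with hT
  have hT1 : (1 : ℝ) ≤ (X : ℝ) ^ (ε / 2) := Real.one_le_rpow hX1 (by positivity)
  have hT2 : (T : ℝ) ≤ 2 * (X : ℝ) ^ (ε / 2) := by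
    have := Nat.ceil_lt_add_one (show 0 ≤ (X : ℝ) ^ (ε / 2) by positivity)
    rw [← hT] at this
    linarith
  have hT3 : (X : ℝ) ^ (ε / 2) ≤ T := Nat.le_ceil _
  have hT0 : 1 ≤ T := by
    have : (1 : ℝ) ≤ T := hT1.trans hT3
    exact_mod_cast this
  obtain ⟨E, hE1, hE2⟩ := hC T hT0
  have hsub : Q ⊆ range N₀ ∪ E := by
    intro p hpQ
    obtain ⟨hpp, hpX, hbad⟩ := hQ p hpQ
    by_contra hcon
    rw [mem_union, not_or, mem_range] at hcon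
    obtain ⟨c1, c2⟩ := hcon
    apply hbad
    have : Fact p.Prime := ⟨hpp⟩
    have hp0 : (0 : ℝ) < p := by exact_mod_cast hpp.pos
    obtain ⟨g, hg1, hg2, hg3⟩ := hE2 p c2
    have hpX' : (p : ℝ) ≤ X := by exact_mod_cast hpX
    have hpT : (p : ℝ) ^ (ε / 2) ≤ T :=
      (Real.rpow_le_rpow hp0.le hpX' (by positivity)).trans hT3
    intro N hN x hx
    have hp1 : (1 : ℝ) ≤ p := by exact_mod_cast hpp.one_lt.le
    have hN' : (p : ℝ) ^ (ε / 2) ≤ N :=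
      (Real.rpow_le_rpow_of_exponent_le hp1 (by linarith)).trans hN
    refine h' p (by omega) _ _ _ ?_ fun a ha => ?_
    · have : (0 : ℝ) < N := lt_of_lt_of_le (Real.rpow_pos_of_pos hp0 _) hN'
      exact ⟨0, mem_range.2 (by exact_mod_cast this)⟩
    · have h1 := h p (by omega) (fun j => Units.mk0 (x j) (hx j)) g N
        (fun j => hpT.trans (by exact_mod_cast (hg2 j).le))
        (fun i j hij => hpT.trans (by exact_mod_cast (hg3 i j hij).le)) hN' a ha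
      simp only [Units.val_mk0, Units.val_pow_eq_pow_val, hg1] at h1
      rw [card_range]
      exact h1
  have h1 : Q.card ≤ N₀ + C * T ^ 2 := by
    refine (card_le_card hsub).trans ((card_union_le _ _).trans ?_)
    rw [card_range]
    omega
  have h2 : (Q.card : ℝ) ≤ N₀ + C * (T : ℝ) ^ 2 := by exact_mod_cast h1
  have h3 : (T : ℝ) ^ 2 ≤ 4 * (X : ℝ) ^ ε := by
    calc (T : ℝ) ^ 2 ≤ (2 * (X : ℝ) ^ (ε / 2)) ^ 2 :=
          pow_le_pow_left₀ (Nat.cast_nonneg _) hT2 2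
      _ = 4 * ((X : ℝ) ^ (ε / 2)) ^ 2 := by ring
      _ = 4 * (X : ℝ) ^ ε := by
          rw [← Real.rpow_natCast, ← Real.rpow_mul hX0.le]
          congr 2
          push_cast
          ring
  have h4 : (1 : ℝ) ≤ (X : ℝ) ^ ε := Real.one_le_rpow hX1 hε.le
  calc (Q.card : ℝ) ≤ N₀ * 1 + C * (T : ℝ) ^ 2 := by rw [mul_one]; exact h2
    _ ≤ N₀ * (X : ℝ) ^ ε + C * (4 * (X : ℝ) ^ ε) := by gcongr
    _ = _ := by ring

open scoped Classical in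
/-- families stable under a small group acting with weights -/
theorem class_stable (r : ℕ) (hr : 1 ≤ r) {ε : ℝ} (hε : 0 < ε) :
    ∃ κ : ℝ, 0 < κ ∧ ∃ δ : ℝ, 0 < δ ∧ ∃ P₀ : ℕ, ∀ (p : ℕ) [Fact p.Prime], P₀ ≤ p →
    ∀ (H : Subgroup (ZMod p)ˣ) (w : Fin r → ℤ),
    (∀ j, (p : ℝ) ^ ε * Int.gcd (w j) (Nat.card H) ≤ Nat.card H) →
    (∀ i j, w i ≠ w j → (p : ℝ) ^ ε * Int.gcd (w i - w j) (Nat.card H) ≤ Nat.card H) →
    ∀ (ι : Type) (S : Finset ι) (R : ι → Fin r → ZMod p) (act : (ZMod p)ˣ → ι → ι), S.Nonempty →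
    (∀ t ∈ H, ∀ i ∈ S, act t i ∈ S) → (∀ t ∈ H, Set.InjOn (act t) S) →
    (∀ t ∈ H, ∀ i ∈ S, ∀ j, R (act t i) j = ((t ^ w j : (ZMod p)ˣ) : ZMod p) * R i j) →
    (∀ a : Fin r → ZMod p, a ≠ 0 →
      ((S.filter fun i => ∀ d : ℤ, ∑ j with w j = d, a j * R i j = 0).card : ℝ) ≤
        S.card * (p : ℝ) ^ (-ε)) →
    ManyCl κ ε δ p S R := by
  obtain ⟨ε₁, hε₁, P0, h⟩ := stable r hε
  obtain ⟨κ, hκ, δ, hδ, P₀, h'⟩ := critP r hr hε₁ hε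
  refine ⟨κ, hκ, δ, hδ, P₀ + P0, ?_⟩
  intro p hp hpP H w hw hww ι S R act hS hact hinj hR hdeg
  exact h' p (by omega) _ _ _ hS fun a ha =>
    h p (by omega) H w hw hww ι S R act hact hinj hR hdeg a ha

end Pool.Agent.Run7.h823.BK
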