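import Mathlib

/-!
# Values of polynomials in the trajectories of the 3x+1 map: dynamics and sizes
-/

set_option autoImplicit false
open Finset

namespace Pool.Agent.Run7.h823.PV

/-- The 3x+1 map on the integers. -/
def T (x : ℤ) : ℤ := if x % 2 = 0 then x / 2 else (3 * x + 1) / 2

/-- the number of odd terms among the first `n` ones -/
def od (n : ℕ) (x : ℤ) : ℕ := ((range n).filter fun i => T^[i] x % 2 = 1).card

theorem od_zero (x : ℤ) : od 0 x = 0 := by simp [od]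

theorem od_succ (n : ℕ) (x : ℤ) :
    od (n + 1) x = od n x + if T^[n] x % 2 = 1 then 1 else 0 := by
  unfold od
  rw [Finset.range_add_one, Finset.filter_insert]
  split_ifs with h
  · rw [Finset.card_insert_of_notMem (by simp)]
  · simp

theorem od_le (n : ℕ) (x : ℤ) : od n x ≤ n := by
  unfold od
  exact (Finset.card_filter_le _ _).trans (by simp)

theorem od_add (m n : ℕ) (x : ℤ) : od (m + n) x = od m x + od n (T^[m] x) := by
  induction n with
  | zero => simp [od_zero]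
  | succ n ih =>
    rw [← add_assoc, od_succ, ih, od_succ, ← Function.iterate_add_apply, add_comm n m]
    ring

theorem T_even {x : ℤ} (h : x % 2 = 0) : 2 * T x = x := by
  unfold T
  rw [if_pos h]
  omega

theorem T_odd {x : ℤ} (h : x % 2 = 1) : 2 * T x = 3 * x + 1 := by
  unfold T
  rw [if_neg (by omega)]
  omega

theorem size_T (x : ℤ) : |x| ≤ 2 * |T x| := by
  have e : 2 * |T x| = |2 * T x| := by rw [abs_mul]; norm_num
  rcases Int.emod_two_eq_zero_or_one x with h | h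
  · rw [e, T_even h]
  · rw [e, T_odd h]
    rcases le_or_gt 0 x with hx | hx
    · rw [abs_of_nonneg hx, abs_of_nonneg (by omega)]
      omega
    · rw [abs_of_neg hx, abs_of_neg (by omega)]
      omega

theorem size_iter (n : ℕ) (x : ℤ) : |x| ≤ 2 ^ n * |T^[n] x| := by
  induction n with
  | zero => simp
  | succ n ih =>
    rw [Function.iterate_succ_apply', pow_succ, mul_assoc]
    exact ih.trans (mul_le_mul_of_nonneg_left (size_T _) (by positivity))

/-- the affine form of the iterates -/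
theorem affine (x : ℤ) (n : ℕ) : ∃ r : ℤ, 0 ≤ r ∧ r ≤ 3 ^ od n x * 2 ^ n ∧
    2 ^ n * T^[n] x = 3 ^ od n x * x + r := by
  induction n with
  | zero => exact ⟨0, le_rfl, by positivity, by simp [od_zero]⟩
  | succ n ih =>
    obtain ⟨c, h0, h1, h2⟩ := ih
    rw [od_succ, Function.iterate_succ_apply']
    set A := T^[n] x with hA
    rcases Int.emod_two_eq_zero_or_one A with hp | hp
    · rw [if_neg (by omega), add_zero]
      refine ⟨c, h0, h1.trans ?_, ?_⟩
      · gcongr <;> norm_num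
      · rw [pow_succ, mul_assoc, T_even hp, h2]
    · rw [if_pos hp]
      refine ⟨3 * c + 2 ^ n, by positivity, ?_, ?_⟩
      · have h3 : (1 : ℤ) ≤ 3 ^ od n x := one_le_pow₀ (by norm_num)
        have h4 : (2 : ℤ) ^ n * 1 ≤ 2 ^ n * (3 ^ od n x) := by gcongr
        rw [pow_succ, pow_succ]
        have h5 : (0 : ℤ) ≤ 2 ^ n * 3 ^ od n x := by positivity
        nlinarith
      · rw [pow_succ, mul_assoc, T_odd hp, pow_succ]
        linear_combination 3 * h2

theorem affine' (x : ℤ) (n : ℕ) : ∃ r : ℤ, 0 ≤ r ∧ r ≤ 6 ^ n ∧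
    2 ^ n * T^[n] x = 3 ^ od n x * x + r := by
  obtain ⟨r, h0, h1, h2⟩ := affine x n
  refine ⟨r, h0, h1.trans ?_, h2⟩
  have h3 : (3 : ℤ) ^ od n x ≤ 3 ^ n := pow_le_pow_right₀ (by norm_num) (od_le n x)
  calc (3 : ℤ) ^ od n x * 2 ^ n ≤ 3 ^ n * 2 ^ n := by gcongr
    _ = 6 ^ n := by rw [← mul_pow]; norm_num

/-- `|x - z| max(x, z)^(d-1) ≤ |x^d - z^d|` -/
theorem pow_sub_ge {x z : ℝ} (hx : 0 ≤ x) (hz : 0 ≤ z) {d : ℕ} (hd : 1 ≤ d) :
    |x - z| * (max x z) ^ (d - 1) ≤ |x ^ d - z ^ d| := by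
  have key : ∀ {x z : ℝ}, 0 ≤ z → z ≤ x → |x - z| * x ^ (d - 1) ≤ |x ^ d - z ^ d| := by
    intro x z hz hzx
    have hx : 0 ≤ x := hz.trans hzx
    rw [abs_of_nonneg (sub_nonneg.2 hzx), abs_of_nonneg (sub_nonneg.2 (pow_le_pow_left₀ hz hzx d))]
    obtain ⟨e, rfl⟩ : ∃ e, d = e + 1 := ⟨d - 1, by omega⟩
    have h1 : z * z ^ e ≤ z * x ^ e := mul_le_mul_of_nonneg_left (pow_le_pow_left₀ hz hzx e) hz
    rw [Nat.add_sub_cancel, pow_succ, pow_succ]
    linarith
  rcases le_total z x with h | h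
  · rw [max_eq_left h]
    exact key hz h
  · rw [max_eq_right h, abs_sub_comm, abs_sub_comm (x ^ d)]
    exact key hx h

/-- the error in the comparison of the main terms -/
theorem main_terms {n o : ℕ} (hon : o ≤ n) {y0 y1 r : ℤ} (h0 : 0 ≤ r) (hr : r ≤ 6 ^ n)
    (hrel : 2 ^ n * y1 = 3 ^ o * y0 + r) {v0 v1 A M : ℝ} {e : ℕ} (hA : 0 ≤ A) (hM : 1 ≤ M)
    (e0 : |(y0 : ℝ) - v0| ≤ A * M ^ e) (e1 : |(y1 : ℝ) - v1| ≤ A * M ^ e) :
    |(2 ^ n * |v1| - 3 ^ o * |v0|)| ≤ (2 * A + 1) * 6 ^ n * M ^ e := by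
  have hrelR : (2 : ℝ) ^ n * y1 = 3 ^ o * y0 + r := by exact_mod_cast hrel
  have h0R : (0 : ℝ) ≤ r := by exact_mod_cast h0
  have hrR : (r : ℝ) ≤ 6 ^ n := by exact_mod_cast hr
  have e2 : (2 : ℝ) ^ n * |v1| = |2 ^ n * v1| := by
    rw [abs_mul, abs_of_pos (by positivity : (0 : ℝ) < 2 ^ n)]
  have e3 : (3 : ℝ) ^ o * |v0| = |3 ^ o * v0| := by
    rw [abs_mul, abs_of_pos (by positivity : (0 : ℝ) < 3 ^ o)]
  have h1 : |(2 ^ n * |v1| - 3 ^ o * |v0|)| ≤ |2 ^ n * v1 - 3 ^ o * v0| := by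
    rw [e2, e3]
    exact abs_abs_sub_abs_le_abs_sub _ _
  have h2 : 2 ^ n * v1 - 3 ^ o * v0 = (r : ℝ) + 3 ^ o * (y0 - v0) - 2 ^ n * (y1 - v1) := by
    linear_combination hrelR
  have h3 : |2 ^ n * v1 - 3 ^ o * v0| ≤ r + 3 ^ o * |(y0 : ℝ) - v0| + 2 ^ n * |(y1 : ℝ) - v1| := by
    rw [h2]
    refine (abs_sub _ _).trans ?_
    refine add_le_add ((abs_add_le _ _).trans ?_) ?_
    · rw [abs_mul, abs_of_nonneg h0R, abs_of_pos (by positivity : (0 : ℝ) < 3 ^ o)]
    · rw [abs_mul, abs_of_pos (by positivity : (0 : ℝ) < 2 ^ n)]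
  have h4 : (3 : ℝ) ^ o ≤ 6 ^ n := (pow_le_pow_right₀ (by norm_num) hon).trans
    (pow_le_pow_left₀ (by norm_num) (by norm_num) n)
  have h5 : (2 : ℝ) ^ n ≤ 6 ^ n := pow_le_pow_left₀ (by norm_num) (by norm_num) n
  have hMe : (1 : ℝ) ≤ M ^ e := one_le_pow₀ hM
  have hAM : 0 ≤ A * M ^ e := by positivity
  calc |(2 ^ n * |v1| - 3 ^ o * |v0|)| ≤ r + 3 ^ o * |(y0 : ℝ) - v0| + 2 ^ n * |(y1 : ℝ) - v1| :=
        h1.trans h3
    _ ≤ 6 ^ n * M ^ e + 6 ^ n * (A * M ^ e) + 6 ^ n * (A * M ^ e) := by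
        refine add_le_add (add_le_add ?_ ?_) ?_
        · calc (r : ℝ) ≤ 6 ^ n * 1 := by rw [mul_one]; exact hrR
            _ ≤ 6 ^ n * M ^ e := by gcongr
        · exact mul_le_mul h4 e0 (abs_nonneg _) (by positivity)
        · exact mul_le_mul h5 e1 (abs_nonneg _) (by positivity)
    _ = _ := by ring

/-- the approximation of `β` -/
theorem approx {d e t : ℕ} (hd : e + t + 1 = d) {n o : ℕ}
    {a0 a1 l0 l1 β B lam Lam M : ℝ} (ha0 : 0 ≤ a0) (ha1 : 0 ≤ a1) (hlam : 0 < lam) (hB : 0 ≤ B)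
    (hl0 : lam ≤ l0) (hl1 : lam ≤ l1) (hL1 : l1 ≤ Lam) (hM1 : 1 ≤ M)
    (hM : M = max 1 (max a0 a1)) (hβ : 0 < β) (hβd : β ^ d * (2 ^ n * l1) = 3 ^ o * l0)
    (h : |2 ^ n * (l1 * a1 ^ d) - 3 ^ o * (l0 * a0 ^ d)| ≤ B * M ^ e) :
    |a1 - β * a0| * M ^ t ≤ (B / lam + 1) * (2 ^ n * (Lam / lam)) ^ d := by
  have hd1 : 1 ≤ d := by omega
  have h2n : (1 : ℝ) ≤ 2 ^ n := one_le_pow₀ (by norm_num)
  have hLl : 1 ≤ Lam / lam := by rw [le_div_iff₀ hlam]; linarith
  set W : ℝ := 2 ^ n * (Lam / lam) with hW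
  have hW1 : 1 ≤ W := one_le_mul_of_one_le_of_one_le h2n hLl
  have hW0 : 0 < W := by linarith
  -- `1 / β ≤ W`
  have hWβ : 1 ≤ W * β := by
    by_contra hcon
    push Not at hcon
    have h1 : (W * β) ^ d < 1 := pow_lt_one₀ (by positivity) hcon (by omega)
    have h3 : (1 : ℝ) ≤ 3 ^ o := one_le_pow₀ (by norm_num)
    have h4 : W ≤ W ^ d := le_self_pow₀ hW1 (by omega)
    have h5 : (W * β) ^ d * (2 ^ n * l1) = W ^ d * (3 ^ o * l0) := by
      rw [mul_pow, mul_assoc, hβd]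
    have h6 : 2 ^ n * l1 ≤ W * l0 := by
      rw [hW, mul_assoc]
      refine mul_le_mul_of_nonneg_left ?_ (by positivity)
      have : Lam / lam * lam ≤ Lam / lam * l0 := mul_le_mul_of_nonneg_left hl0 (by positivity)
      rw [div_mul_cancel₀ _ hlam.ne'] at this
      linarith
    have h7 : 0 < 2 ^ n * l1 := by have := hlam.trans_le hl1; positivity
    have h8 : (W * β) ^ d * (2 ^ n * l1) < 2 ^ n * l1 := by nlinarith
    have h9 : W * l0 ≤ W ^ d * (3 ^ o * l0) := by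
      have hl0' : 0 < l0 := hlam.trans_le hl0
      calc W * l0 ≤ W ^ d * l0 := by gcongr
        _ = W ^ d * (1 * l0) := by ring
        _ ≤ W ^ d * (3 ^ o * l0) := by gcongr
    rw [h5] at h8
    linarith
  set z : ℝ := β * a0 with hz
  have hz0 : 0 ≤ z := by positivity
  have ha0z : a0 ≤ W * z := by
    calc a0 = 1 * a0 := by ring
      _ ≤ (W * β) * a0 := by gcongr
      _ = W * z := by rw [hz]; ring
  have hMW : M ≤ W * max 1 (max a1 z) := by
    rw [hM]
    refine max_le ?_ (max_le ?_ ?_)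
    · calc (1 : ℝ) = 1 * 1 := by ring
        _ ≤ W * max 1 (max a1 z) := mul_le_mul hW1 (le_max_left _ _) (by norm_num) (by linarith)
    · refine ha0z.trans (mul_le_mul_of_nonneg_left ?_ hW0.le)
      exact (le_max_right _ _).trans (le_max_right _ _)
    · calc a1 = 1 * a1 := by ring
        _ ≤ W * max 1 (max a1 z) := mul_le_mul hW1 ((le_max_left _ _).trans (le_max_right _ _)) ha1
            (by linarith)
  have hBl : 0 ≤ B / lam := by positivity
  rcases le_or_gt (max a1 z) 1 with hs | hs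
  · -- small case
    have h1 : |a1 - z| ≤ 1 := by
      rw [abs_le]
      have := (le_max_left a1 z).trans hs
      have := (le_max_right a1 z).trans hs
      constructor <;> linarith
    rw [max_eq_left hs, mul_one] at hMW
    calc |a1 - z| * M ^ t ≤ 1 * W ^ t := by gcongr
      _ ≤ 1 * W ^ d := by
          have : W ^ t ≤ W ^ d := pow_le_pow_right₀ hW1 (by omega)
          linarith
      _ ≤ (B / lam + 1) * W ^ d := by
          refine mul_le_mul_of_nonneg_right ?_ (by positivity)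
          linarith
  · rw [max_eq_right hs.le] at hMW
    have h1 := pow_sub_ge ha1 hz0 hd1
    have h2 : a1 ^ d - z ^ d = (2 ^ n * (l1 * a1 ^ d) - 3 ^ o * (l0 * a0 ^ d)) / (2 ^ n * l1) := by
      have hl1' : 0 < l1 := hlam.trans_le hl1
      rw [eq_div_iff (by positivity), hz, mul_pow]
      linear_combination (-(a0 ^ d)) * hβd
    have h3 : |a1 ^ d - z ^ d| ≤ B * M ^ e / lam := by
      have hl1' : 0 < l1 := hlam.trans_le hl1
      rw [h2, abs_div, abs_of_pos (by positivity : (0 : ℝ) < 2 ^ n * l1)]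
      have : lam ≤ 2 ^ n * l1 := by nlinarith
      exact div_le_div₀ (by positivity) h hlam this
    set m : ℝ := max a1 z with hm
    have hm0 : 0 < m := by linarith
    have h4 : M ^ (d - 1) ≤ W ^ (d - 1) * m ^ (d - 1) := by
      rw [← mul_pow]
      exact pow_le_pow_left₀ (by linarith) hMW _
    have hMe : 0 < M ^ e := by positivity
    have h5 : M ^ (d - 1) = M ^ e * M ^ t := by rw [← pow_add]; congr 1; omega
    have h6 : |a1 - z| * M ^ t * M ^ e ≤ (B / lam * W ^ (d - 1)) * M ^ e := by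
      calc |a1 - z| * M ^ t * M ^ e = |a1 - z| * M ^ (d - 1) := by rw [h5]; ring
        _ ≤ |a1 - z| * (W ^ (d - 1) * m ^ (d - 1)) := by gcongr
        _ = W ^ (d - 1) * (|a1 - z| * m ^ (d - 1)) := by ring
        _ ≤ W ^ (d - 1) * (B * M ^ e / lam) := by
            refine mul_le_mul_of_nonneg_left (h1.trans h3) (by positivity)
        _ = _ := by ring
    have h7 := le_of_mul_le_mul_right h6 hMe
    refine h7.trans ?_
    refine mul_le_mul (by linarith) (pow_le_pow_right₀ hW1 (by omega)) (by positivity) (by linarith)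

end Pool.Agent.Run7.h823.PV
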