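import Pool.Agent.N965.LN.Sch
import Pool.Agent.Run7.h659.UL2

/-!
# Values of polynomials in the trajectories of the 3x+1 map: the approximation theorems
-/

set_option autoImplicit false
open Finset

namespace Pool.Agent.Run7.h823.PV

open Pool.Agent.N965.LN (dn Indep Sch)

theorem pow_inj {d : ℕ} (hd : 1 ≤ d) {x y : ℝ} (hx : 0 ≤ x) (hy : 0 ≤ y) (h : x ^ d = y ^ d) :
    x = y := (pow_left_inj₀ hx hy (by omega)).1 h

/-- the ratio of the bases of two terms -/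
noncomputable def beta (d n o : ℕ) (l0 l1 : ℝ) : ℝ := ((3 ^ o * l0) / (2 ^ n * l1)) ^ ((1 : ℝ) / d)

theorem beta_pos (d n o : ℕ) {l0 l1 : ℝ} (h0 : 0 < l0) (h1 : 0 < l1) : 0 < beta d n o l0 l1 := by
  unfold beta
  positivity

theorem beta_pow {d : ℕ} (hd : 1 ≤ d) (n o : ℕ) {l0 l1 : ℝ} (h0 : 0 < l0) (h1 : 0 < l1) :
    beta d n o l0 l1 ^ d = (3 ^ o * l0) / (2 ^ n * l1) := by
  unfold beta
  rw [← Real.rpow_natCast, ← Real.rpow_mul (by positivity), one_div_mul_cancel (by positivity),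
    Real.rpow_one]

theorem beta_pow' {d : ℕ} (hd : 1 ≤ d) (n o : ℕ) {l0 l1 : ℝ} (h0 : 0 < l0) (h1 : 0 < l1) :
    beta d n o l0 l1 ^ d * (2 ^ n * l1) = 3 ^ o * l0 := by
  rw [beta_pow hd n o h0 h1, div_mul_cancel₀ _ (by positivity)]

theorem beta_split {d : ℕ} (hd : 1 ≤ d) (n o : ℕ) {l0 l1 : ℝ} (h0 : 0 < l0) (h1 : 0 < l1) :
    beta d n o l0 l1 = 3 ^ (o / d) / 2 ^ (n / d) * beta d (n % d) (o % d) l0 l1 := by
  have hb := beta_pos d (n % d) (o % d) h0 h1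
  apply pow_inj hd (beta_pos d n o h0 h1).le (by positivity)
  rw [mul_pow, div_pow, beta_pow hd _ _ h0 h1, beta_pow hd _ _ h0 h1, ← pow_mul, ← pow_mul]
  have e1 : (3 : ℝ) ^ o = 3 ^ (o / d * d) * 3 ^ (o % d) := by
    rw [← pow_add]; congr 1; rw [mul_comm]; exact (Nat.div_add_mod o d).symm
  have e2 : (2 : ℝ) ^ n = 2 ^ (n / d * d) * 2 ^ (n % d) := by
    rw [← pow_add]; congr 1; rw [mul_comm]; exact (Nat.div_add_mod n d).symm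
  rw [e1, e2]
  field_simp

theorem beta_mul {d : ℕ} (hd : 1 ≤ d) (n1 n2 o1 o2 : ℕ) {l0 l1 l2 : ℝ} (h0 : 0 < l0) (h1 : 0 < l1)
    (h2 : 0 < l2) : beta d (n1 + n2) (o1 + o2) l0 l2 = beta d n1 o1 l0 l1 * beta d n2 o2 l1 l2 := by
  have hb1 := beta_pos d n1 o1 h0 h1
  have hb2 := beta_pos d n2 o2 h1 h2
  apply pow_inj hd (beta_pos d _ _ h0 h2).le (by positivity)
  rw [mul_pow, beta_pow hd _ _ h0 h1, beta_pow hd _ _ h1 h2, beta_pow hd _ _ h0 h2]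
  rw [pow_add, pow_add]
  field_simp

theorem beta_alg {d : ℕ} (hd : 1 ≤ d) (n o : ℕ) {l0 l1 : ℚ} (h0 : 0 < l0) (h1 : 0 < l1) :
    IsAlgebraic ℚ (beta d n o l0 l1) := by
  have h0' : (0 : ℝ) < l0 := by exact_mod_cast h0
  have h1' : (0 : ℝ) < l1 := by exact_mod_cast h1
  have h2 : beta d n o l0 l1 ^ d = (((3 ^ o * l0) / (2 ^ n * l1) : ℚ) : ℝ) := by
    rw [beta_pow hd _ _ h0' h1']
    push_cast
    rfl
  have h3 : IsAlgebraic ℚ (beta d n o l0 l1 ^ d) := by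
    rw [h2]
    exact isAlgebraic_algebraMap _
  exact IsAlgebraic.of_pow (by omega) h3

theorem fin_min {ι : Type*} [Finite ι] (Q : ι → ℝ → Prop) (h : ∀ i, ∃ c : ℝ, 0 < c ∧ Q i c)
    (hm : ∀ i (c c' : ℝ), c' ≤ c → Q i c → Q i c') : ∃ c : ℝ, 0 < c ∧ ∀ i, Q i c := by
  choose c hc hQ using h
  rcases isEmpty_or_nonempty ι with hE | hE
  · exact ⟨1, one_pos, fun i => hE.elim i⟩
  · obtain ⟨i₀, hi₀⟩ := Finite.exists_min c
    exact ⟨c i₀, hc i₀, fun i => hm i _ _ (hi₀ i) (hQ i)⟩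

theorem dn_le_int (x : ℝ) (p : ℤ) : dn x ≤ |x - p| := round_le x p

theorem dn_nonneg (x : ℝ) : 0 ≤ dn x := abs_nonneg _

/-- linear independence -/
theorem indep_two {x y : ℝ} (hx : 0 < x) (hy : 0 < y) {N : ℕ} (hN : 1 ≤ N)
    (hxN : ∃ r : ℚ, x ^ N = r) (hyN : ∃ r : ℚ, y ^ N = r) (ix : Irrational x) (iy : Irrational y)
    (ixy : Irrational (y / x)) : Indep ![x, y] := by
  intro a a₀ h
  by_contra hne
  have hsum : ∑ i : Fin 3, (![(a₀ : ℝ), (a 0 : ℝ), (a 1 : ℝ)] i) * (![1, x, y] i) = 0 := by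
    rw [Fin.sum_univ_three]
    rw [Fin.sum_univ_two] at h
    simpa [add_assoc] using h
  have hpos : ∀ i : Fin 3, 0 < (![1, x, y] : Fin 3 → ℝ) i := by
    intro i; fin_cases i <;> simp [hx, hy]
  have hF : ∀ i : Fin 3, ∃ N : ℕ, 1 ≤ N ∧
      (![1, x, y] : Fin 3 → ℝ) i ^ N ∈ (⊥ : IntermediateField ℚ ℝ) := by
    intro i
    fin_cases i
    · exact ⟨1, le_rfl, by simp [one_mem]⟩
    · obtain ⟨r, hr⟩ := hxN
      exact ⟨N, hN, IntermediateField.mem_bot.2 ⟨r, by simp [hr]⟩⟩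
    · obtain ⟨r, hr⟩ := hyN
      exact ⟨N, hN, IntermediateField.mem_bot.2 ⟨r, by simp [hr]⟩⟩
  have hc : ∀ i : Fin 3, (![(a₀ : ℝ), (a 0 : ℝ), (a 1 : ℝ)] : Fin 3 → ℝ) i ∈
      (⊥ : IntermediateField ℚ ℝ) := by
    intro i
    fin_cases i
    · exact IntermediateField.mem_bot.2 ⟨(a₀ : ℚ), by simp⟩
    · exact IntermediateField.mem_bot.2 ⟨(a 0 : ℚ), by simp⟩
    · exact IntermediateField.mem_bot.2 ⟨(a 1 : ℚ), by simp⟩
  have rat : ∀ {z : ℝ}, z ∈ (⊥ : IntermediateField ℚ ℝ) → ¬ Irrational z := by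
    intro z hz hirr
    obtain ⟨r, hr⟩ := IntermediateField.mem_bot.1 hz
    exact hirr ⟨r, by simpa using hr⟩
  have hinv : ∀ {z : ℝ}, Irrational z → Irrational (1 / z) := by
    intro z hz
    rw [one_div]
    exact hz.inv
  have ixy' : Irrational (x / y) := by
    have := ixy.inv
    rwa [inv_div] at this
  have key : ∀ i₀ : Fin 3, i₀ ≠ 0 →
      (![(a₀ : ℝ), (a 0 : ℝ), (a 1 : ℝ)] : Fin 3 → ℝ) i₀ ≠ 0 → False := by
    intro i₀ hi h1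
    obtain ⟨j, hj, hj2⟩ := Run7.h659.UL.radicals (⊥ : IntermediateField ℚ ℝ) ![1, x, y]
      ![(a₀ : ℝ), (a 0 : ℝ), (a 1 : ℝ)] hpos hF hc hsum i₀ h1
    apply rat hj2
    fin_cases i₀
    · exact absurd rfl hi
    · fin_cases j
      · simpa using ix
      · exact absurd rfl hj
      · simpa using ixy
    · fin_cases j
      · simpa using iy
      · simpa using ixy'
      · exact absurd rfl hj
  apply hne
  funext i
  by_contra hi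
  fin_cases i
  · refine key 1 (by decide) ?_
    simpa using hi
  · refine key 2 (by decide) ?_
    simpa using hi

/-- the constant of Schmidt's theorem in squared form -/
theorem sch_sq {x y : ℝ} (h : Sch ![x, y]) : ∃ c : ℝ, 0 < c ∧ ∀ q : ℕ, 1 ≤ q →
    c ≤ (dn (q * x) * dn (q * y)) ^ 2 * (q : ℝ) ^ 3 := by
  obtain ⟨c, hc, h1⟩ := h (1 / 2) (by norm_num)
  refine ⟨c ^ 2, by positivity, fun q hq => ?_⟩
  have h2 := h1 q hq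
  rw [Fin.prod_univ_two] at h2
  simp only [Matrix.cons_val_zero, Matrix.cons_val_one] at h2
  have hq0 : (0 : ℝ) < q := by exact_mod_cast hq
  have h3 : (c * (q : ℝ) ^ (-(1 + 1 / 2 : ℝ))) ^ 2 * (q : ℝ) ^ 3 = c ^ 2 := by
    rw [mul_pow, mul_assoc, ← Real.rpow_natCast (((q : ℝ) ^ (-(1 + 1 / 2 : ℝ)))) 2,
      ← Real.rpow_mul hq0.le, ← Real.rpow_natCast (q : ℝ) 3, ← Real.rpow_add hq0]
    norm_num
  rw [← h3]
  have h4 : 0 ≤ c * (q : ℝ) ^ (-(1 + 1 / 2 : ℝ)) := by positivity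
  gcongr

theorem sch_sq1 {x : ℝ} (h : Sch ![x]) : ∃ c : ℝ, 0 < c ∧ ∀ q : ℕ, 1 ≤ q →
    c ≤ (dn (q * x)) ^ 2 * (q : ℝ) ^ 3 := by
  obtain ⟨c, hc, h1⟩ := h (1 / 2) (by norm_num)
  refine ⟨c ^ 2, by positivity, fun q hq => ?_⟩
  have h2 := h1 q hq
  rw [Fin.prod_univ_one] at h2
  simp only [Matrix.cons_val_zero] at h2
  have hq0 : (0 : ℝ) < q := by exact_mod_cast hq
  have h3 : (c * (q : ℝ) ^ (-(1 + 1 / 2 : ℝ))) ^ 2 * (q : ℝ) ^ 3 = c ^ 2 := by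
    rw [mul_pow, mul_assoc, ← Real.rpow_natCast (((q : ℝ) ^ (-(1 + 1 / 2 : ℝ)))) 2,
      ← Real.rpow_mul hq0.le, ← Real.rpow_natCast (q : ℝ) 3, ← Real.rpow_add hq0]
    norm_num
  rw [← h3]
  have h4 : 0 ≤ c * (q : ℝ) ^ (-(1 + 1 / 2 : ℝ)) := by positivity
  gcongr

theorem sch_two {d : ℕ} (hd : 1 ≤ d) (𝓛 : Finset ℚ) (hpos : ∀ l ∈ 𝓛, 0 < l) :
    ∃ c : ℝ, 0 < c ∧ ∀ (n1 n2 o1 o2 : ℕ) (l0 l1 l2 : ℚ), n1 < d → n2 < d → o1 < d → o2 < d →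
      l0 ∈ 𝓛 → l1 ∈ 𝓛 → l2 ∈ 𝓛 → Irrational (beta d n1 o1 l0 l1) →
      Irrational (beta d n2 o2 l0 l2) → Irrational (beta d n2 o2 l0 l2 / beta d n1 o1 l0 l1) →
      ∀ q : ℕ, 1 ≤ q →
        c ≤ (dn (q * beta d n1 o1 l0 l1) * dn (q * beta d n2 o2 l0 l2)) ^ 2 * (q : ℝ) ^ 3 := by
  let Q : Fin d × Fin d × Fin d × Fin d × 𝓛 × 𝓛 × 𝓛 → ℝ → Prop :=
    fun i c => Irrational (beta d i.1 i.2.2.1 (i.2.2.2.2.1 : ℚ) (i.2.2.2.2.2.1 : ℚ)) →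
      Irrational (beta d i.2.1 i.2.2.2.1 (i.2.2.2.2.1 : ℚ) (i.2.2.2.2.2.2 : ℚ)) →
      Irrational (beta d i.2.1 i.2.2.2.1 (i.2.2.2.2.1 : ℚ) (i.2.2.2.2.2.2 : ℚ) /
        beta d i.1 i.2.2.1 (i.2.2.2.2.1 : ℚ) (i.2.2.2.2.2.1 : ℚ)) →
      ∀ q : ℕ, 1 ≤ q →
        c ≤ (dn (q * beta d i.1 i.2.2.1 (i.2.2.2.2.1 : ℚ) (i.2.2.2.2.2.1 : ℚ)) *
          dn (q * beta d i.2.1 i.2.2.2.1 (i.2.2.2.2.1 : ℚ) (i.2.2.2.2.2.2 : ℚ))) ^ 2 *
            (q : ℝ) ^ 3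
  have hQ1 : ∀ i, ∃ c : ℝ, 0 < c ∧ Q i c := by
    rintro ⟨n1, n2, o1, o2, ⟨l0, g0⟩, ⟨l1, g1⟩, ⟨l2, g2⟩⟩
    simp only [Q]
    have p0 := hpos l0 g0
    have p1 := hpos l1 g1
    have p2 := hpos l2 g2
    have p0' : (0 : ℝ) < l0 := by exact_mod_cast p0
    have p1' : (0 : ℝ) < l1 := by exact_mod_cast p1
    have p2' : (0 : ℝ) < l2 := by exact_mod_cast p2
    by_cases hi : Irrational (beta d n1 o1 l0 l1) ∧ Irrational (beta d n2 o2 l0 l2) ∧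
        Irrational (beta d n2 o2 l0 l2 / beta d n1 o1 l0 l1)
    · have hind : Indep ![beta d n1 o1 l0 l1, beta d n2 o2 l0 l2] := by
        refine indep_two (beta_pos _ _ _ p0' p1') (beta_pos _ _ _ p0' p2') hd
          ⟨(3 ^ (o1 : ℕ) * l0) / (2 ^ (n1 : ℕ) * l1), ?_⟩
          ⟨(3 ^ (o2 : ℕ) * l0) / (2 ^ (n2 : ℕ) * l2), ?_⟩ hi.1 hi.2.1 hi.2.2
        · rw [beta_pow hd _ _ p0' p1']
          push_cast
          rfl
        · rw [beta_pow hd _ _ p0' p2']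
          push_cast
          rfl
      have hs : Sch ![beta d n1 o1 l0 l1, beta d n2 o2 l0 l2] := by
        refine Pool.Agent.N965.LN.t_SCH 2 _ (by norm_num) ?_ hind
        intro i
        fin_cases i
        · exact beta_alg hd _ _ p0 p1
        · exact beta_alg hd _ _ p0 p2
      obtain ⟨c, hc, h⟩ := sch_sq hs
      exact ⟨c, hc, fun _ _ _ => h⟩
    · exact ⟨1, one_pos, fun a b c => absurd ⟨a, b, c⟩ hi⟩
  have hQ2 : ∀ i (c c' : ℝ), c' ≤ c → Q i c → Q i c' :=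
    fun i c c' hcc h i1 i2 i3 q hq => hcc.trans (h i1 i2 i3 q hq)
  obtain ⟨c, hc, h⟩ := fin_min Q hQ1 hQ2
  exact ⟨c, hc, fun n1 n2 o1 o2 l0 l1 l2 h1 h2 h3 h4 g0 g1 g2 i1 i2 i3 q hq =>
    h (⟨n1, h1⟩, ⟨n2, h2⟩, ⟨o1, h3⟩, ⟨o2, h4⟩, ⟨l0, g0⟩, ⟨l1, g1⟩, ⟨l2, g2⟩) i1 i2 i3 q hq⟩

theorem sch_one {d : ℕ} (hd : 1 ≤ d) (𝓛 : Finset ℚ) (hpos : ∀ l ∈ 𝓛, 0 < l) :
    ∃ c : ℝ, 0 < c ∧ ∀ (n1 o1 : ℕ) (l0 l1 : ℚ), n1 < d → o1 < d →
      l0 ∈ 𝓛 → l1 ∈ 𝓛 → Irrational (beta d n1 o1 l0 l1) →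
      ∀ q : ℕ, 1 ≤ q → c ≤ (dn (q * beta d n1 o1 l0 l1)) ^ 2 * (q : ℝ) ^ 3 := by
  let Q : Fin d × Fin d × 𝓛 × 𝓛 → ℝ → Prop :=
    fun i c => Irrational (beta d i.1 i.2.1 (i.2.2.1 : ℚ) (i.2.2.2 : ℚ)) →
      ∀ q : ℕ, 1 ≤ q →
        c ≤ (dn (q * beta d i.1 i.2.1 (i.2.2.1 : ℚ) (i.2.2.2 : ℚ))) ^ 2 * (q : ℝ) ^ 3
  have hQ1 : ∀ i, ∃ c : ℝ, 0 < c ∧ Q i c := by
    rintro ⟨n1, o1, ⟨l0, g0⟩, ⟨l1, g1⟩⟩
    simp only [Q]
    have p0 := hpos l0 g0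
    have p1 := hpos l1 g1
    by_cases hi : Irrational (beta d n1 o1 l0 l1)
    · have hind : Indep ![beta d n1 o1 l0 l1] := by
        intro a a₀ h
        rw [Fin.sum_univ_one] at h
        simp only [Matrix.cons_val_zero] at h
        funext i
        fin_cases i
        by_contra hne
        have hne' : (a 0 : ℝ) ≠ 0 := by
          intro h0
          exact hne (by simpa using h0)
        apply hi
        refine ⟨-(a₀ : ℚ) / (a 0 : ℚ), ?_⟩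
        push_cast
        rw [div_eq_iff hne']
        linear_combination -h
      have hs : Sch ![beta d n1 o1 l0 l1] := by
        refine Pool.Agent.N965.LN.t_SCH 1 _ (by norm_num) ?_ hind
        intro i
        fin_cases i
        exact beta_alg hd _ _ p0 p1
      obtain ⟨c, hc, h⟩ := sch_sq1 hs
      exact ⟨c, hc, fun _ => h⟩
    · exact ⟨1, one_pos, fun a => absurd a hi⟩
  have hQ2 : ∀ i (c c' : ℝ), c' ≤ c → Q i c → Q i c' :=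
    fun i c c' hcc h i1 q hq => hcc.trans (h i1 q hq)
  obtain ⟨c, hc, h⟩ := fin_min Q hQ1 hQ2
  exact ⟨c, hc, fun n1 o1 l0 l1 h1 h3 g0 g1 i1 q hq =>
    h (⟨n1, h1⟩, ⟨o1, h3⟩, ⟨l0, g0⟩, ⟨l1, g1⟩) i1 q hq⟩

end Pool.Agent.Run7.h823.PV
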