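import Pool.Agent.Run7.h823.PV2

/-!
# Values of polynomials in the trajectories of the 3x+1 map: gaps
-/

set_option autoImplicit false
open Finset

namespace Pool.Agent.Run7.h823.PV

open Pool.Agent.N965.LN (dn Indep Sch)

theorem irr_rem {d : ℕ} (hd : 1 ≤ d) (n o : ℕ) {l0 l1 : ℝ} (h0 : 0 < l0) (h1 : 0 < l1)
    (h : Irrational (beta d n o l0 l1)) : Irrational (beta d (n % d) (o % d) l0 l1) := by
  rw [beta_split hd n o h0 h1] at h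
  intro ⟨r, hr⟩
  apply h
  refine ⟨3 ^ (o / d) / 2 ^ (n / d) * r, ?_⟩
  push_cast
  rw [hr]

theorem irr_rem2 {d : ℕ} (hd : 1 ≤ d) (n o n' o' : ℕ) {l0 l1 l2 : ℝ} (h0 : 0 < l0) (h1 : 0 < l1)
    (h2 : 0 < l2) (h : Irrational (beta d n' o' l0 l2 / beta d n o l0 l1)) :
    Irrational (beta d (n' % d) (o' % d) l0 l2 / beta d (n % d) (o % d) l0 l1) := by
  rw [beta_split hd n o h0 h1, beta_split hd n' o' h0 h2] at h
  intro ⟨r, hr⟩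
  apply h
  refine ⟨(3 ^ (o' / d) / 2 ^ (n' / d)) / (3 ^ (o / d) / 2 ^ (n / d)) * r, ?_⟩
  push_cast
  rw [hr, mul_div_mul_comm]

/-- a rational approximation with a common denominator -/
theorem dn_bound {d : ℕ} (hd : 1 ≤ d) {N n o o' A0 A1 D : ℕ} (hD : 1 ≤ D) {l0 l1 : ℝ} (h0 : 0 < l0)
    (h1 : 0 < l1) (hn : n ≤ N) (ho' : o' ≤ N) {Z E : ℝ} (hZ : 0 ≤ Z)
    (h : |(A1 : ℝ) / D - beta d n o l0 l1 * (A0 / D)| * Z ≤ E) :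
    dn (((A0 * 3 ^ (o / d + o' / d) : ℕ) : ℝ) * beta d (n % d) (o % d) l0 l1) * Z ≤
      6 ^ N * D * E := by
  have hD0 : (0 : ℝ) < D := by exact_mod_cast hD
  have e := beta_split hd n o h0 h1
  set b := beta d (n % d) (o % d) l0 l1 with hb
  have h2 : ((A0 * 3 ^ (o / d + o' / d) : ℕ) : ℝ) * b - ((A1 * 2 ^ (n / d) * 3 ^ (o' / d) : ℕ) : ℤ) =
      -(3 ^ (o' / d) * 2 ^ (n / d) * D * ((A1 : ℝ) / D - beta d n o l0 l1 * (A0 / D))) := by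
    rw [e]
    push_cast
    rw [pow_add]
    field_simp
    ring
  have h3 := dn_le_int (((A0 * 3 ^ (o / d + o' / d) : ℕ) : ℝ) * b)
    ((A1 * 2 ^ (n / d) * 3 ^ (o' / d) : ℕ) : ℤ)
  rw [h2, abs_neg, abs_mul, abs_of_pos (by positivity : (0 : ℝ) < 3 ^ (o' / d) * 2 ^ (n / d) * D)]
    at h3
  have h4 : (3 : ℝ) ^ (o' / d) * 2 ^ (n / d) * D ≤ 6 ^ N * D := by
    have g1 : (3 : ℝ) ^ (o' / d) ≤ 3 ^ N :=
      pow_le_pow_right₀ (by norm_num) ((Nat.div_le_self _ _).trans ho')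
    have g2 : (2 : ℝ) ^ (n / d) ≤ 2 ^ N :=
      pow_le_pow_right₀ (by norm_num) ((Nat.div_le_self _ _).trans hn)
    have g3 : (6 : ℝ) ^ N = 3 ^ N * 2 ^ N := by rw [← mul_pow]; norm_num
    rw [g3]
    gcongr
  calc dn (((A0 * 3 ^ (o / d + o' / d) : ℕ) : ℝ) * b) * Z ≤
        (3 ^ (o' / d) * 2 ^ (n / d) * D * |(A1 : ℝ) / D - beta d n o l0 l1 * (A0 / D)|) * Z :=
        mul_le_mul_of_nonneg_right h3 hZ
    _ = (3 ^ (o' / d) * 2 ^ (n / d) * D) *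
        (|(A1 : ℝ) / D - beta d n o l0 l1 * (A0 / D)| * Z) := by ring
    _ ≤ (6 ^ N * D) * E := mul_le_mul h4 h (by positivity) (by positivity)

/-- three terms with irrational ratios -/
theorem three_irr {d : ℕ} (hd : 1 ≤ d) (𝓛 : Finset ℚ) (hpos : ∀ l ∈ 𝓛, 0 < l) {D : ℕ}
    (hD : 1 ≤ D) : ∃ C : ℝ, 1 ≤ C ∧ ∀ (N n1 n2 o1 o2 A0 A1 A2 : ℕ) (l0 l1 l2 : ℚ) (E : ℝ),
      n1 ≤ N → n2 ≤ N → o1 ≤ N → o2 ≤ N → l0 ∈ 𝓛 → l1 ∈ 𝓛 → l2 ∈ 𝓛 → 0 ≤ E →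
      |(A1 : ℝ) / D - beta d n1 o1 l0 l1 * (A0 / D)| * (A0 / D) ≤ E →
      |(A2 : ℝ) / D - beta d n2 o2 l0 l2 * (A0 / D)| * (A0 / D) ≤ E →
      Irrational (beta d n1 o1 l0 l1) → Irrational (beta d n2 o2 l0 l2) →
      Irrational (beta d n2 o2 l0 l2 / beta d n1 o1 l0 l1) →
      (A0 : ℝ) / D ≤ C * 944784 ^ N * E ^ 4 := by
  obtain ⟨c, hc, hs⟩ := sch_two hd 𝓛 hpos
  have hD0 : (0 : ℝ) < D := by exact_mod_cast hD
  refine ⟨max 1 (D ^ 7 / c), le_max_left _ _, ?_⟩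
  intro N n1 n2 o1 o2 A0 A1 A2 l0 l1 l2 E hn1 hn2 ho1 ho2 g0 g1 g2 hE h1 h2 i1 i2 i3
  have p0 : (0 : ℝ) < l0 := by exact_mod_cast hpos l0 g0
  have p1 : (0 : ℝ) < l1 := by exact_mod_cast hpos l1 g1
  have p2 : (0 : ℝ) < l2 := by exact_mod_cast hpos l2 g2
  rcases Nat.eq_zero_or_pos A0 with hA | hA
  · rw [hA]
    simp only [Nat.cast_zero, zero_div]
    positivity
  have hA0 : (0 : ℝ) < A0 := by exact_mod_cast hA
  set a0 : ℝ := A0 / D with ha0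
  have ha0p : 0 < a0 := by positivity
  have hd1 : 0 < d := hd
  have k1 := dn_bound hd (o' := o2) hD p0 p1 hn1 ho2 ha0p.le h1
  have k2 := dn_bound hd (o' := o1) hD p0 p2 hn2 ho1 ha0p.le h2
  rw [add_comm (o2 / d)] at k2
  have k3 := hs (n1 % d) (n2 % d) (o1 % d) (o2 % d) l0 l1 l2 (Nat.mod_lt _ hd1) (Nat.mod_lt _ hd1)
    (Nat.mod_lt _ hd1) (Nat.mod_lt _ hd1) g0 g1 g2 (irr_rem hd _ _ p0 p1 i1)
    (irr_rem hd _ _ p0 p2 i2) (irr_rem2 hd _ _ _ _ p0 p1 p2 i3) (A0 * 3 ^ (o1 / d + o2 / d))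
    (Nat.mul_pos hA (by positivity))
  set u := dn (((A0 * 3 ^ (o1 / d + o2 / d) : ℕ) : ℝ) * beta d (n1 % d) (o1 % d) l0 l1) with hu
  set v := dn (((A0 * 3 ^ (o1 / d + o2 / d) : ℕ) : ℝ) * beta d (n2 % d) (o2 % d) l0 l2) with hv
  have hu0 : 0 ≤ u := dn_nonneg _
  have hv0 : 0 ≤ v := dn_nonneg _
  have hq : ((A0 * 3 ^ (o1 / d + o2 / d) : ℕ) : ℝ) ≤ a0 * (D * 9 ^ N) := by
    push_cast
    have e1 : (A0 : ℝ) = a0 * D := by rw [ha0]; field_simp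
    have e2 : (3 : ℝ) ^ (o1 / d + o2 / d) ≤ 9 ^ N := by
      have : (9 : ℝ) ^ N = 3 ^ (2 * N) := by rw [pow_mul]; norm_num
      rw [this]
      refine pow_le_pow_right₀ (by norm_num) ?_
      have := Nat.div_le_self o1 d
      have := Nat.div_le_self o2 d
      omega
    rw [e1, mul_assoc]
    gcongr
  have hF : 0 ≤ 6 ^ N * (D : ℝ) * E := by positivity
  have k4 : c * a0 * a0 ^ 3 ≤ (D ^ 7 * 944784 ^ N * E ^ 4) * a0 ^ 3 := by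
    calc c * a0 * a0 ^ 3 = c * a0 ^ 4 := by ring
      _ ≤ ((u * v) ^ 2 * ((A0 * 3 ^ (o1 / d + o2 / d) : ℕ) : ℝ) ^ 3) * a0 ^ 4 := by gcongr
      _ = (u * a0) ^ 2 * (v * a0) ^ 2 * ((A0 * 3 ^ (o1 / d + o2 / d) : ℕ) : ℝ) ^ 3 := by ring
      _ ≤ (6 ^ N * D * E) ^ 2 * (6 ^ N * D * E) ^ 2 * (a0 * (D * 9 ^ N)) ^ 3 := by
          have : 0 ≤ u * a0 := by positivity
          have : 0 ≤ v * a0 := by positivity
          gcongr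
      _ = (D ^ 7 * ((6 ^ N) ^ 4 * (9 ^ N) ^ 3) * E ^ 4) * a0 ^ 3 := by ring
      _ = _ := by
          congr 3
          rw [← pow_mul, ← pow_mul, mul_comm N 4, mul_comm N 3, pow_mul, pow_mul, ← mul_pow]
          norm_num
  have k5 := le_of_mul_le_mul_right k4 (by positivity)
  calc a0 ≤ (D ^ 7 * 944784 ^ N * E ^ 4) / c := by
        rw [le_div_iff₀ hc]
        linarith
    _ = (D ^ 7 / c) * 944784 ^ N * E ^ 4 := by ring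
    _ ≤ _ := by gcongr; exact le_max_right _ _

/-- two terms with an irrational ratio, better approximation -/
theorem two_irr {d : ℕ} (hd : 1 ≤ d) (𝓛 : Finset ℚ) (hpos : ∀ l ∈ 𝓛, 0 < l) {D : ℕ}
    (hD : 1 ≤ D) : ∃ C : ℝ, 1 ≤ C ∧ ∀ (N n o A0 A1 : ℕ) (l0 l1 : ℚ) (E : ℝ),
      n ≤ N → o ≤ N → l0 ∈ 𝓛 → l1 ∈ 𝓛 → 0 ≤ E →
      |(A1 : ℝ) / D - beta d n o l0 l1 * (A0 / D)| * (A0 / D) ^ 2 ≤ E →
      Irrational (beta d n o l0 l1) → (A0 : ℝ) / D ≤ C * 26244 ^ N * E ^ 2 := by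
  obtain ⟨c, hc, hs⟩ := sch_one hd 𝓛 hpos
  have hD0 : (0 : ℝ) < D := by exact_mod_cast hD
  refine ⟨max 1 (D ^ 5 / c), le_max_left _ _, ?_⟩
  intro N n1 o1 A0 A1 l0 l1 E hn1 ho1 g0 g1 hE h1 i1
  have p0 : (0 : ℝ) < l0 := by exact_mod_cast hpos l0 g0
  have p1 : (0 : ℝ) < l1 := by exact_mod_cast hpos l1 g1
  rcases Nat.eq_zero_or_pos A0 with hA | hA
  · rw [hA]
    simp only [Nat.cast_zero, zero_div]
    positivity
  have hA0 : (0 : ℝ) < A0 := by exact_mod_cast hA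
  set a0 : ℝ := A0 / D with ha0
  have ha0p : 0 < a0 := by positivity
  have hd1 : 0 < d := hd
  have k1 := dn_bound hd (o' := o1) hD p0 p1 hn1 ho1 (sq_nonneg a0) h1
  have k3 := hs (n1 % d) (o1 % d) l0 l1 (Nat.mod_lt _ hd1) (Nat.mod_lt _ hd1)
    g0 g1 (irr_rem hd _ _ p0 p1 i1) (A0 * 3 ^ (o1 / d + o1 / d))
    (Nat.mul_pos hA (by positivity))
  set u := dn (((A0 * 3 ^ (o1 / d + o1 / d) : ℕ) : ℝ) * beta d (n1 % d) (o1 % d) l0 l1) with hu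
  have hu0 : 0 ≤ u := dn_nonneg _
  have hq : ((A0 * 3 ^ (o1 / d + o1 / d) : ℕ) : ℝ) ≤ a0 * (D * 9 ^ N) := by
    push_cast
    have e1 : (A0 : ℝ) = a0 * D := by rw [ha0]; field_simp
    have e2 : (3 : ℝ) ^ (o1 / d + o1 / d) ≤ 9 ^ N := by
      have : (9 : ℝ) ^ N = 3 ^ (2 * N) := by rw [pow_mul]; norm_num
      rw [this]
      refine pow_le_pow_right₀ (by norm_num) ?_
      have := Nat.div_le_self o1 d
      omega
    rw [e1, mul_assoc]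
    gcongr
  have hF : 0 ≤ 6 ^ N * (D : ℝ) * E := by positivity
  have k4 : c * a0 * a0 ^ 3 ≤ (D ^ 5 * 26244 ^ N * E ^ 2) * a0 ^ 3 := by
    calc c * a0 * a0 ^ 3 = c * a0 ^ 4 := by ring
      _ ≤ (u ^ 2 * ((A0 * 3 ^ (o1 / d + o1 / d) : ℕ) : ℝ) ^ 3) * a0 ^ 4 := by gcongr
      _ = (u * a0 ^ 2) ^ 2 * ((A0 * 3 ^ (o1 / d + o1 / d) : ℕ) : ℝ) ^ 3 := by ring
      _ ≤ (6 ^ N * D * E) ^ 2 * (a0 * (D * 9 ^ N)) ^ 3 := by
          have : 0 ≤ u * a0 ^ 2 := by positivity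
          gcongr
      _ = (D ^ 5 * ((6 ^ N) ^ 2 * (9 ^ N) ^ 3) * E ^ 2) * a0 ^ 3 := by ring
      _ = _ := by
          congr 3
          rw [← pow_mul, ← pow_mul, mul_comm N 2, mul_comm N 3, pow_mul, pow_mul, ← mul_pow]
          norm_num
  have k5 := le_of_mul_le_mul_right k4 (by positivity)
  calc a0 ≤ (D ^ 5 * 26244 ^ N * E ^ 2) / c := by
        rw [le_div_iff₀ hc]
        linarith
    _ = (D ^ 5 / c) * 26244 ^ N * E ^ 2 := by ring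
    _ ≤ _ := by gcongr; exact le_max_right _ _

/-- a rational number whose power is an integer -/
theorem int_of_pow {d : ℕ} (hd : 1 ≤ d) {r : ℚ} {z : ℤ} (h : r ^ d = z) : ∃ m : ℤ, r = m := by
  have h1 : (r ^ d).den = 1 := by rw [h]; rfl
  rw [Rat.den_pow] at h1
  have h2 : r.den = 1 := by
    rcases Nat.pow_eq_one.1 h1 with h | h
    · exact h
    · omega
  exact ⟨r.num, (Rat.coe_int_num_of_den_eq_one h2).symm⟩

theorem common_den (𝓛 : Finset ℚ) : ∃ E0 : ℕ, 1 ≤ E0 ∧ ∀ l0 ∈ 𝓛, ∀ l1 ∈ 𝓛, ∃ k : ℤ,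
    (E0 : ℚ) * (l0 / l1) = k := by
  refine ⟨∏ l0 ∈ 𝓛, ∏ l1 ∈ 𝓛, (l0 / l1).den, ?_, ?_⟩
  · exact Nat.one_le_iff_ne_zero.2 (Finset.prod_ne_zero_iff.2 fun a _ =>
      Finset.prod_ne_zero_iff.2 fun b _ => (a / b).den_nz)
  · intro l0 h0 l1 h1
    have h2 : (l0 / l1).den ∣ ∏ l0 ∈ 𝓛, ∏ l1 ∈ 𝓛, (l0 / l1).den :=
      (Finset.dvd_prod_of_mem (fun l1 => (l0 / l1).den) h1).trans
        (Finset.dvd_prod_of_mem (fun l0 => ∏ l1 ∈ 𝓛, (l0 / l1).den) h0)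
    obtain ⟨m, hm⟩ := h2
    refine ⟨m * (l0 / l1).num, ?_⟩
    rw [hm]
    push_cast
    have h3 := Rat.den_mul_eq_num (l0 / l1)
    rw [← h3]
    ring

/-- a rational ratio -/
theorem rat_case {d : ℕ} (hd : 1 ≤ d) (𝓛 : Finset ℚ) (hpos : ∀ l ∈ 𝓛, 0 < l) {D : ℕ}
    (hD : 1 ≤ D) : ∃ C : ℝ, 1 ≤ C ∧ ∀ (n o A0 A1 : ℕ) (l0 l1 : ℚ) (E M : ℝ),
      l0 ∈ 𝓛 → l1 ∈ 𝓛 → 0 ≤ M →
      |(A1 : ℝ) / D - beta d n o l0 l1 * (A0 / D)| * M ≤ E →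
      ¬ Irrational (beta d n o l0 l1) →
      (A1 : ℝ) / D = beta d n o l0 l1 * (A0 / D) ∨ M ≤ C * 2 ^ n * E := by
  obtain ⟨E0, hE0, hk⟩ := common_den 𝓛
  have hD0 : (0 : ℝ) < D := by exact_mod_cast hD
  have hE0' : (1 : ℝ) ≤ E0 := by exact_mod_cast hE0
  have hD1 : (1 : ℝ) ≤ D := by exact_mod_cast hD
  refine ⟨D * E0, one_le_mul_of_one_le_of_one_le hD1 hE0', ?_⟩
  intro n o A0 A1 l0 l1 E M g0 g1 hM h hirr
  have p0 : (0 : ℝ) < l0 := by exact_mod_cast hpos l0 g0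
  have p1 : (0 : ℝ) < l1 := by exact_mod_cast hpos l1 g1
  have p1q : (0 : ℚ) < l1 := hpos l1 g1
  obtain ⟨r, hr⟩ : ∃ r : ℚ, (r : ℝ) = beta d n o l0 l1 := by
    unfold Irrational at hirr
    push Not at hirr
    exact hirr
  obtain ⟨k, hk⟩ := hk l0 g0 l1 g1
  have hpow := beta_pow hd n o p0 p1
  rw [← hr] at hpow
  have hpowq : r ^ d = (3 ^ o * l0) / (2 ^ n * l1) := by
    have : ((r ^ d : ℚ) : ℝ) = (((3 ^ o * l0) / (2 ^ n * l1) : ℚ) : ℝ) := by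
      push_cast
      exact hpow
    exact_mod_cast this
  have h1 : ((2 ^ n * E0 : ℕ) * r) ^ d = (((2 ^ n * E0 : ℕ) : ℤ) ^ (d - 1) * (3 ^ o * k) : ℤ) := by
    obtain ⟨e, rfl⟩ : ∃ e, d = e + 1 := ⟨d - 1, by omega⟩
    rw [mul_pow, hpowq, Nat.add_sub_cancel]
    push_cast
    rw [← hk, pow_succ]
    field_simp
  obtain ⟨m, hm⟩ := int_of_pow hd h1
  have hmR : ((2 ^ n * E0 : ℕ) : ℝ) * beta d n o l0 l1 = m := by
    rw [← hr]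
    exact_mod_cast hm
  by_cases heq : (A1 : ℝ) / D = beta d n o l0 l1 * (A0 / D)
  · exact Or.inl heq
  right
  have h2 : (D : ℝ) * (2 ^ n * E0 : ℕ) * ((A1 : ℝ) / D - beta d n o l0 l1 * (A0 / D)) =
      (((2 ^ n * E0 : ℕ) : ℤ) * A1 - m * A0 : ℤ) := by
    have : (D : ℝ) * (2 ^ n * E0 : ℕ) * ((A1 : ℝ) / D - beta d n o l0 l1 * (A0 / D)) =
        (2 ^ n * E0 : ℕ) * A1 - ((2 ^ n * E0 : ℕ) * beta d n o l0 l1) * A0 := by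
      field_simp
    rw [this, hmR]
    push_cast
    ring
  have hN0 : (0 : ℝ) < (2 ^ n * E0 : ℕ) := by
    have : 0 < 2 ^ n * E0 := by positivity
    exact_mod_cast this
  have h3 : (((2 ^ n * E0 : ℕ) : ℤ) * A1 - m * A0 : ℤ) ≠ 0 := by
    intro h0
    rw [h0, Int.cast_zero] at h2
    rcases mul_eq_zero.1 h2 with h | h
    · exact (mul_pos hD0 hN0).ne' h
    · exact heq (sub_eq_zero.1 h)
  have h4 : (1 : ℝ) ≤ (D : ℝ) * (2 ^ n * E0 : ℕ) *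
      |(A1 : ℝ) / D - beta d n o l0 l1 * (A0 / D)| := by
    have h5 : (1 : ℤ) ≤ |((2 ^ n * E0 : ℕ) : ℤ) * A1 - m * A0| := Int.one_le_abs h3
    have h6 : (1 : ℝ) ≤ |((((2 ^ n * E0 : ℕ) : ℤ) * A1 - m * A0 : ℤ) : ℝ)| := by
      exact_mod_cast h5
    rw [← h2, abs_mul, abs_of_pos (mul_pos hD0 hN0)] at h6
    exact h6
  calc M = 1 * M := (one_mul M).symm
    _ ≤ ((D : ℝ) * (2 ^ n * E0 : ℕ) * |(A1 : ℝ) / D - beta d n o l0 l1 * (A0 / D)|) * M :=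
        mul_le_mul_of_nonneg_right h4 hM
    _ = (D : ℝ) * (2 ^ n * E0 : ℕ) * (|(A1 : ℝ) / D - beta d n o l0 l1 * (A0 / D)| * M) := by ring
    _ ≤ (D : ℝ) * (2 ^ n * E0 : ℕ) * E := mul_le_mul_of_nonneg_left h (by positivity)
    _ = D * E0 * 2 ^ n * E := by push_cast; ring

end Pool.Agent.Run7.h823.PV
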