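import Pool.Agent.Run7.h823.PV1
import Pool.Agent.Run7.h823.PV3

/-!
# Values of polynomials in the trajectories of the 3x+1 map: the gap theorems
-/

set_option autoImplicit false
open Finset

namespace Pool.Agent.Run7.h823.PV

/-- `y` is close to `v`, and `|v|` is `l a ^ d` with `l` in a finite set and `a = A₀ / D` -/
def Tm (d e : ℕ) (𝓛 : Finset ℚ) (D : ℕ) (A : ℝ) (y : ℤ) (A0 : ℕ) (l : ℚ) (v : ℝ) : Prop :=
  l ∈ 𝓛 ∧ |v| = l * ((A0 : ℝ) / D) ^ d ∧ |(y : ℝ) - v| ≤ A * (max 1 ((A0 : ℝ) / D)) ^ e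

theorem bounds (𝓛 : Finset ℚ) (hpos : ∀ l ∈ 𝓛, 0 < l) : ∃ lam Lam : ℝ, 0 < lam ∧ lam ≤ Lam ∧
    1 ≤ Lam ∧ ∀ l ∈ 𝓛, lam ≤ (l : ℝ) ∧ (l : ℝ) ≤ Lam := by
  obtain ⟨c, hc, h⟩ := fin_min (ι := 𝓛) (fun l c => c ≤ ((l : ℚ) : ℝ))
    (fun l => ⟨((l : ℚ) : ℝ), by exact_mod_cast hpos l l.2, le_rfl⟩)
    (fun l c c' h1 h2 => h1.trans h2)
  have hs : ∀ l ∈ 𝓛, (l : ℝ) ≤ ∑ l ∈ 𝓛, (l : ℝ) := fun l hl =>
    Finset.single_le_sum (f := fun l : ℚ => (l : ℝ))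
      (fun a ha => by exact_mod_cast (hpos a ha).le) hl
  have hs0 : (0 : ℝ) ≤ ∑ l ∈ 𝓛, (l : ℝ) := Finset.sum_nonneg fun a ha => by
    exact_mod_cast (hpos a ha).le
  refine ⟨c, c + 1 + ∑ l ∈ 𝓛, (l : ℝ), hc, by linarith, by linarith, fun l hl =>
    ⟨h ⟨l, hl⟩, (hs l hl).trans (by linarith)⟩⟩

/-- the basic approximation -/
theorem pair {d e t : ℕ} (hd : e + t + 1 = d) (𝓛 : Finset ℚ) (hpos : ∀ l ∈ 𝓛, 0 < l) {D : ℕ}
    {A : ℝ} (hA : 0 ≤ A) : ∃ C K : ℝ, 1 ≤ C ∧ 1 ≤ K ∧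
      ∀ (n o : ℕ) (y0 y1 r : ℤ) (A0 A1 : ℕ) (l0 l1 : ℚ) (v0 v1 : ℝ), o ≤ n → 0 ≤ r → r ≤ 6 ^ n →
      2 ^ n * y1 = 3 ^ o * y0 + r → Tm d e 𝓛 D A y0 A0 l0 v0 → Tm d e 𝓛 D A y1 A1 l1 v1 →
      |(A1 : ℝ) / D - beta d n o l0 l1 * (A0 / D)| * (max 1 (max ((A0 : ℝ) / D) (A1 / D))) ^ t ≤
        C * K ^ n := by
  obtain ⟨lam, Lam, hlam, hLl, hLam, hb⟩ := bounds 𝓛 hpos
  have hd1 : 1 ≤ d := by omega
  have hq : 1 ≤ Lam / lam := by rw [le_div_iff₀ hlam]; linarith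
  refine ⟨((2 * A + 1) / lam + 1) * (Lam / lam) ^ d, 6 * 2 ^ d, ?_, ?_, ?_⟩
  · have h1 : 0 ≤ (2 * A + 1) / lam := by positivity
    exact one_le_mul_of_one_le_of_one_le (by linarith) (one_le_pow₀ hq)
  · have h1 : (1 : ℝ) ≤ 2 ^ d := one_le_pow₀ (by norm_num)
    linarith
  intro n o y0 y1 r A0 A1 l0 l1 v0 v1 hon hr0 hr hrel h0 h1
  obtain ⟨g0, hv0, e0⟩ := h0
  obtain ⟨g1, hv1, e1⟩ := h1
  have p0 : (0 : ℝ) < l0 := by exact_mod_cast hpos l0 g0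
  have p1 : (0 : ℝ) < l1 := by exact_mod_cast hpos l1 g1
  set a0 : ℝ := (A0 : ℝ) / D with ha0
  set a1 : ℝ := (A1 : ℝ) / D with ha1
  have ha0n : 0 ≤ a0 := by positivity
  have ha1n : 0 ≤ a1 := by positivity
  set M : ℝ := max 1 (max a0 a1) with hM
  have hM1 : 1 ≤ M := le_max_left _ _
  have f0 : |(y0 : ℝ) - v0| ≤ A * M ^ e := e0.trans (by
    refine mul_le_mul_of_nonneg_left (pow_le_pow_left₀ (by positivity) ?_ e) hA
    exact max_le (le_max_left _ _) ((le_max_left _ _).trans (le_max_right _ _)))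
  have f1 : |(y1 : ℝ) - v1| ≤ A * M ^ e := e1.trans (by
    refine mul_le_mul_of_nonneg_left (pow_le_pow_left₀ (by positivity) ?_ e) hA
    exact max_le (le_max_left _ _) ((le_max_right _ _).trans (le_max_right _ _)))
  have h3 := main_terms hon hr0 hr hrel hA hM1 f0 f1
  rw [hv0, hv1] at h3
  have h4 := approx (d := d) (e := e) (t := t) hd (n := n) (o := o) (a0 := a0) (a1 := a1)
    (l0 := l0) (l1 := l1) (β := beta d n o l0 l1) (B := (2 * A + 1) * 6 ^ n) (lam := lam)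
    (Lam := Lam) (M := M) ha0n ha1n hlam (by positivity) (hb l0 g0).1 (hb l1 g1).1 (hb l1 g1).2
    hM1 hM (beta_pos _ _ _ p0 p1) (beta_pow' hd1 _ _ p0 p1) h3
  refine h4.trans ?_
  have h6 : (1 : ℝ) ≤ 6 ^ n := one_le_pow₀ (by norm_num)
  have h7 : (2 * A + 1) * 6 ^ n / lam + 1 ≤ ((2 * A + 1) / lam + 1) * 6 ^ n := by
    have : (2 * A + 1) * 6 ^ n / lam = (2 * A + 1) / lam * 6 ^ n := by ring
    rw [this]
    linarith
  have h8 : (2 ^ n * (Lam / lam)) ^ d = (2 ^ d) ^ n * (Lam / lam) ^ d := by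
    rw [mul_pow, ← pow_mul, ← pow_mul, mul_comm n d]
  rw [h8]
  calc ((2 * A + 1) * 6 ^ n / lam + 1) * ((2 ^ d) ^ n * (Lam / lam) ^ d) ≤
        (((2 * A + 1) / lam + 1) * 6 ^ n) * ((2 ^ d) ^ n * (Lam / lam) ^ d) := by gcongr
    _ = ((2 * A + 1) / lam + 1) * (Lam / lam) ^ d * (6 * 2 ^ d) ^ n := by
        rw [mul_pow]; ring

/-- the ratio is rational and the bases are proportional -/
def RatPair (d n o : ℕ) (a0 a1 : ℝ) (l0 l1 : ℚ) : Prop :=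
  ¬ Irrational (beta d n o l0 l1) ∧ a1 = beta d n o l0 l1 * a0

/-- from a bound of the base to a bound of the term -/
theorem size_of {d e : ℕ} (hed : e ≤ d) (𝓛 : Finset ℚ) (hpos : ∀ l ∈ 𝓛, 0 < l) {D : ℕ}
    {A : ℝ} (hA : 0 ≤ A) : ∃ B : ℝ, 1 ≤ B ∧ ∀ (y : ℤ) (A0 : ℕ) (l : ℚ) (v X : ℝ),
      Tm d e 𝓛 D A y A0 l v → 1 ≤ X → (A0 : ℝ) / D ≤ X → |(y : ℝ)| ≤ B * X ^ d := by
  obtain ⟨lam, Lam, hlam, hLl, hLam, hb⟩ := bounds 𝓛 hpos
  refine ⟨Lam + A, by linarith, ?_⟩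
  intro y A0 l v X h hX hAX
  obtain ⟨g, hv, e0⟩ := h
  have ha : 0 ≤ (A0 : ℝ) / D := by positivity
  have h1 : |(y : ℝ)| ≤ |v| + |(y : ℝ) - v| := by
    have := abs_add_le v ((y : ℝ) - v)
    rwa [add_sub_cancel] at this
  have hl0 : (0 : ℝ) < l := by exact_mod_cast hpos l g
  have h2 : |v| ≤ Lam * X ^ d := by
    rw [hv]
    exact mul_le_mul (hb l g).2 (pow_le_pow_left₀ ha hAX d) (by positivity) (by linarith)
  have h3 : |(y : ℝ) - v| ≤ A * X ^ d := by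
    refine e0.trans (mul_le_mul_of_nonneg_left ?_ hA)
    exact (pow_le_pow_left₀ (by positivity) (max_le hX hAX) e).trans (pow_le_pow_right₀ hX hed)
  linarith

theorem nat_const {C K : ℝ} (hC : 1 ≤ C) (hK : 1 ≤ K) : ∃ k : ℕ, ∀ (n : ℕ) (y : ℤ), 1 ≤ n →
    |(y : ℝ)| ≤ C * K ^ n → |y| ≤ (k : ℤ) ^ n := by
  refine ⟨⌈C⌉₊ * ⌈K⌉₊, fun n y hn h => ?_⟩
  have hC' : C ≤ ⌈C⌉₊ := Nat.le_ceil C
  have hK' : K ≤ ⌈K⌉₊ := Nat.le_ceil K
  have h1 : (1 : ℝ) ≤ (⌈C⌉₊ : ℝ) := hC.trans hC'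
  have h2 : |(y : ℝ)| ≤ (((⌈C⌉₊ * ⌈K⌉₊ : ℕ) : ℤ) : ℝ) ^ n := by
    push_cast
    rw [mul_pow]
    refine h.trans (mul_le_mul (hC'.trans (le_self_pow₀ h1 (by omega)))
      (pow_le_pow_left₀ (by linarith) hK' n) (by positivity) (by positivity))
  exact_mod_cast h2

/-- **Three terms.** -/
theorem main3 {d e : ℕ} (hd : e + 2 = d) (𝓛 : Finset ℚ) (hpos : ∀ l ∈ 𝓛, 0 < l) {D : ℕ}
    (hD : 1 ≤ D) {A : ℝ} (hA : 0 ≤ A) {ι : Type*} (V : ι → ℤ → Prop) (α : ι → ℕ) (l : ι → ℚ)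
    (v : ι → ℝ) (hT : ∀ u y, V u y → Tm d e 𝓛 D A y (α u) (l u) (v u))
    (hR : ∃ C K : ℝ, 1 ≤ C ∧ 1 ≤ K ∧ ∀ (y : ℤ) (n : ℕ) (u u' : ι), 0 < n → V u y →
      V u' (T^[n] y) → RatPair d n (od n y) ((α u : ℝ) / D) ((α u' : ℝ) / D) (l u) (l u') →
      (α u : ℝ) / D ≤ C * K ^ n) :
    ∃ k : ℕ, ∀ (y : ℤ) (m n : ℕ), 0 < m → m < n → (∃ u, V u y) → (∃ u, V u (T^[m] y)) →
      (∃ u, V u (T^[n] y)) → |y| ≤ (k : ℤ) ^ n := by
  have hd1 : 1 ≤ d := by omega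
  obtain ⟨C1, K1, hC1, hK1, hpair⟩ := pair (d := d) (e := e) (t := 1) (by omega) 𝓛 hpos (D := D) hA
  obtain ⟨C2, hC2, hirr⟩ := three_irr hd1 𝓛 hpos hD
  obtain ⟨C3, hC3, hrat⟩ := rat_case hd1 𝓛 hpos hD
  obtain ⟨C4, K4, hC4, hK4, hRR⟩ := hR
  obtain ⟨B, hB, hsize⟩ := size_of (e := e) (d := d) (by omega) 𝓛 hpos (D := D) hA
  -- the constants
  set C : ℝ := C1 * C3 + C4 + C2 * C1 ^ 4 with hC
  set K : ℝ := (944784 * K1 ^ 4) * (2 * K1) * K4 with hK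
  have hk1 : (1 : ℝ) ≤ 944784 * K1 ^ 4 := by
    have := one_le_pow₀ hK1 (n := 4)
    linarith
  have hk2 : (1 : ℝ) ≤ 2 * K1 := by linarith
  have hKA : 944784 * K1 ^ 4 ≤ K := by
    calc 944784 * K1 ^ 4 = (944784 * K1 ^ 4) * 1 * 1 := by ring
      _ ≤ K := by rw [hK]; gcongr
  have hKB : 2 * K1 ≤ K := by
    calc 2 * K1 = 1 * (2 * K1) * 1 := by ring
      _ ≤ K := by rw [hK]; gcongr
  have hKC : K4 ≤ K := by
    calc K4 = 1 * 1 * K4 := by ring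
      _ ≤ K := by rw [hK]; gcongr
  have hK0 : 1 ≤ K := hK4.trans hKC
  have hCA : C1 * C3 ≤ C := by
    have : 0 ≤ C2 * C1 ^ 4 := by positivity
    rw [hC]; linarith
  have hCB : C4 ≤ C := by
    have : 0 ≤ C2 * C1 ^ 4 := by positivity
    have : 0 ≤ C1 * C3 := by positivity
    rw [hC]; linarith
  have hCC : C2 * C1 ^ 4 ≤ C := by
    have : 0 ≤ C1 * C3 := by positivity
    rw [hC]; linarith
  have hC0 : 1 ≤ C := hC4.trans hCB
  clear_value C K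
  -- the rational case
  have hratP : ∀ (y : ℤ) (n : ℕ) (u u' : ι), 0 < n → V u y → V u' (T^[n] y) →
      ¬ Irrational (beta d n (od n y) (l u) (l u')) → (α u : ℝ) / D ≤ C * K ^ n := by
    intro y n u u' hn hu hu' hni
    obtain ⟨r, hr0, hr, hrel⟩ := affine' y n
    have h1 := hpair n (od n y) y (T^[n] y) r (α u) (α u') (l u) (l u') (v u) (v u') (od_le n y)
      hr0 hr hrel (hT u y hu) (hT u' _ hu')
    rw [pow_one] at h1
    rcases hrat n (od n y) (α u) (α u') (l u) (l u') (C1 * K1 ^ n) _ (hT u y hu).1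
      (hT u' _ hu').1 (by positivity) h1 hni with h2 | h2
    · refine (hRR y n u u' hn hu hu' ⟨hni, h2⟩).trans ?_
      gcongr
    · have h3 : (α u : ℝ) / D ≤ max 1 (max ((α u : ℝ) / D) ((α u' : ℝ) / D)) :=
        (le_max_left _ _).trans (le_max_right _ _)
      calc (α u : ℝ) / D ≤ C3 * 2 ^ n * (C1 * K1 ^ n) := h3.trans h2
        _ = (C1 * C3) * (2 * K1) ^ n := by rw [mul_pow]; ring
        _ ≤ C * K ^ n := by gcongr
  -- the conclusion from a bound of a base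
  have hfin : ∀ (y : ℤ) (j n : ℕ) (u : ι), j ≤ n → V u (T^[j] y) → (α u : ℝ) / D ≤ C * K ^ n →
      |(y : ℝ)| ≤ (B * C ^ d) * (2 * K ^ d) ^ n := by
    intro y j n u hj hu h
    have hX : 1 ≤ C * K ^ n := one_le_mul_of_one_le_of_one_le hC0 (one_le_pow₀ hK0)
    have h1 := hsize (T^[j] y) (α u) (l u) (v u) (C * K ^ n) (hT u _ hu) hX h
    have h2 : |(y : ℝ)| ≤ 2 ^ j * |((T^[j] y : ℤ) : ℝ)| := by exact_mod_cast size_iter j y
    have h3 : (2 : ℝ) ^ j ≤ 2 ^ n := pow_le_pow_right₀ (by norm_num) hj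
    calc |(y : ℝ)| ≤ 2 ^ j * |((T^[j] y : ℤ) : ℝ)| := h2
      _ ≤ 2 ^ n * (B * (C * K ^ n) ^ d) := mul_le_mul h3 h1 (abs_nonneg _) (by positivity)
      _ = (B * C ^ d) * (2 * K ^ d) ^ n := by
          rw [mul_pow, mul_pow, ← pow_mul, ← pow_mul, mul_comm n d]; ring
  have hBC : 1 ≤ B * C ^ d := one_le_mul_of_one_le_of_one_le hB (one_le_pow₀ hC0)
  have h2K : 1 ≤ 2 * K ^ d := by
    have := one_le_pow₀ hK0 (n := d)
    linarith
  obtain ⟨k, hk⟩ := nat_const hBC h2K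
  refine ⟨k, ?_⟩
  rintro y m n hm hmn ⟨u0, hu0⟩ ⟨u1, hu1⟩ ⟨u2, hu2⟩
  apply hk n y (by omega)
  have hKmn : K ^ m ≤ K ^ n := pow_le_pow_right₀ hK0 hmn.le
  by_cases i1 : Irrational (beta d m (od m y) (l u0) (l u1))
  swap
  · refine hfin y 0 n u0 (by omega) hu0 ((hratP y m u0 u1 hm hu0 hu1 i1).trans ?_)
    gcongr
  by_cases i2 : Irrational (beta d n (od n y) (l u0) (l u2))
  swap
  · exact hfin y 0 n u0 (by omega) hu0 (hratP y n u0 u2 (by omega) hu0 hu2 i2)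
  -- the pair of the second and the third term
  obtain ⟨s, hs⟩ : ∃ s, n = m + s := ⟨n - m, by omega⟩
  have hs0 : 0 < s := by omega
  have hiter : T^[n] y = T^[s] (T^[m] y) := by
    rw [hs, add_comm, Function.iterate_add_apply]
  rw [hiter] at hu2
  have q0 : (0 : ℝ) < l u0 := by exact_mod_cast hpos _ (hT u0 _ hu0).1
  have q1 : (0 : ℝ) < l u1 := by exact_mod_cast hpos _ (hT u1 _ hu1).1
  have q2 : (0 : ℝ) < l u2 := by exact_mod_cast hpos _ (hT u2 _ hu2).1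
  have hmul : beta d n (od n y) (l u0) (l u2) =
      beta d m (od m y) (l u0) (l u1) * beta d s (od s (T^[m] y)) (l u1) (l u2) := by
    rw [hs, od_add]
    exact beta_mul hd1 _ _ _ _ q0 q1 q2
  by_cases i3 : Irrational (beta d s (od s (T^[m] y)) (l u1) (l u2))
  swap
  · have h1 := hratP (T^[m] y) s u1 u2 hs0 hu1 hu2 i3
    refine hfin y m n u1 hmn.le hu1 (h1.trans ?_)
    have : K ^ s ≤ K ^ n := pow_le_pow_right₀ hK0 (by omega)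
    gcongr
  -- all ratios are irrational
  have hdiv : beta d n (od n y) (l u0) (l u2) / beta d m (od m y) (l u0) (l u1) =
      beta d s (od s (T^[m] y)) (l u1) (l u2) := by
    rw [hmul, mul_div_assoc, mul_div_cancel₀ _ (beta_pos d m (od m y) q0 q1).ne']
  obtain ⟨r1, hr10, hr1, hrel1⟩ := affine' y m
  obtain ⟨r2, hr20, hr2, hrel2⟩ := affine' y n
  have h1 := hpair m (od m y) y (T^[m] y) r1 (α u0) (α u1) (l u0) (l u1) (v u0) (v u1) (od_le m y)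
      hr10 hr1 hrel1 (hT u0 y hu0) (hT u1 _ hu1)
  have h2 := hpair n (od n y) y (T^[n] y) r2 (α u0) (α u2) (l u0) (l u2) (v u0) (v u2) (od_le n y)
      hr20 hr2 hrel2 (hT u0 y hu0) (by rw [hiter]; exact hT u2 _ hu2)
  rw [pow_one] at h1 h2
  have hK1mn : K1 ^ m ≤ K1 ^ n := pow_le_pow_right₀ hK1 hmn.le
  have h3 : |(α u1 : ℝ) / D - beta d m (od m y) (l u0) (l u1) * (α u0 / D)| * (α u0 / D) ≤
      C1 * K1 ^ n := by
    refine (mul_le_mul_of_nonneg_left ?_ (abs_nonneg _)).trans (h1.trans (by gcongr))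
    exact (le_max_left _ _).trans (le_max_right _ _)
  have h4 : |(α u2 : ℝ) / D - beta d n (od n y) (l u0) (l u2) * (α u0 / D)| * (α u0 / D) ≤
      C1 * K1 ^ n := by
    refine (mul_le_mul_of_nonneg_left ?_ (abs_nonneg _)).trans h2
    exact (le_max_left _ _).trans (le_max_right _ _)
  have h5 := hirr n m n (od m y) (od n y) (α u0) (α u1) (α u2) (l u0) (l u1) (l u2) (C1 * K1 ^ n)
    hmn.le le_rfl ((od_le m y).trans hmn.le) (od_le n y) (hT u0 _ hu0).1 (hT u1 _ hu1).1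
    (hT u2 _ hu2).1 (by positivity) h3 h4 i1 i2 (by rw [hdiv]; exact i3)
  refine hfin y 0 n u0 (by omega) hu0 (h5.trans ?_)
  calc C2 * 944784 ^ n * (C1 * K1 ^ n) ^ 4 = (C2 * C1 ^ 4) * (944784 * K1 ^ 4) ^ n := by
        rw [mul_pow, mul_pow, ← pow_mul, ← pow_mul, mul_comm n 4]; ring
    _ ≤ C * K ^ n := by gcongr

/-- **Two terms.** -/
theorem main2 {d e : ℕ} (hd : e + 3 = d) (𝓛 : Finset ℚ) (hpos : ∀ l ∈ 𝓛, 0 < l) {D : ℕ}
    (hD : 1 ≤ D) {A : ℝ} (hA : 0 ≤ A) {ι : Type*} (V : ι → ℤ → Prop) (α : ι → ℕ) (l : ι → ℚ)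
    (v : ι → ℝ) (hT : ∀ u y, V u y → Tm d e 𝓛 D A y (α u) (l u) (v u))
    (hR : ∃ C K : ℝ, 1 ≤ C ∧ 1 ≤ K ∧ ∀ (y : ℤ) (n : ℕ) (u u' : ι), 0 < n → V u y →
      V u' (T^[n] y) → RatPair d n (od n y) ((α u : ℝ) / D) ((α u' : ℝ) / D) (l u) (l u') →
      (α u : ℝ) / D ≤ C * K ^ n) :
    ∃ k : ℕ, ∀ (y : ℤ) (n : ℕ), 0 < n → (∃ u, V u y) → (∃ u, V u (T^[n] y)) →
      |y| ≤ (k : ℤ) ^ n := by
  have hd1 : 1 ≤ d := by omega
  obtain ⟨C1, K1, hC1, hK1, hpair⟩ := pair (d := d) (e := e) (t := 2) (by omega) 𝓛 hpos (D := D) hA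
  obtain ⟨C2, hC2, hirr⟩ := two_irr hd1 𝓛 hpos hD
  obtain ⟨C3, hC3, hrat⟩ := rat_case hd1 𝓛 hpos hD
  obtain ⟨C4, K4, hC4, hK4, hRR⟩ := hR
  obtain ⟨B, hB, hsize⟩ := size_of (e := e) (d := d) (by omega) 𝓛 hpos (D := D) hA
  set C : ℝ := C1 * C3 + C4 + C2 * C1 ^ 2 with hC
  set K : ℝ := (26244 * K1 ^ 2) * (2 * K1) * K4 with hK
  have hk1 : (1 : ℝ) ≤ 26244 * K1 ^ 2 := by
    have := one_le_pow₀ hK1 (n := 2)
    linarith
  have hk2 : (1 : ℝ) ≤ 2 * K1 := by linarith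
  have hKA : 26244 * K1 ^ 2 ≤ K := by
    calc 26244 * K1 ^ 2 = (26244 * K1 ^ 2) * 1 * 1 := by ring
      _ ≤ K := by rw [hK]; gcongr
  have hKB : 2 * K1 ≤ K := by
    calc 2 * K1 = 1 * (2 * K1) * 1 := by ring
      _ ≤ K := by rw [hK]; gcongr
  have hKC : K4 ≤ K := by
    calc K4 = 1 * 1 * K4 := by ring
      _ ≤ K := by rw [hK]; gcongr
  have hK0 : 1 ≤ K := hK4.trans hKC
  have hCA : C1 * C3 ≤ C := by
    have : 0 ≤ C2 * C1 ^ 2 := by positivity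
    rw [hC]; linarith
  have hCB : C4 ≤ C := by
    have : 0 ≤ C2 * C1 ^ 2 := by positivity
    have : 0 ≤ C1 * C3 := by positivity
    rw [hC]; linarith
  have hCC : C2 * C1 ^ 2 ≤ C := by
    have : 0 ≤ C1 * C3 := by positivity
    rw [hC]; linarith
  have hC0 : 1 ≤ C := hC4.trans hCB
  clear_value C K
  have key : ∀ (y : ℤ) (n : ℕ) (u u' : ι), 0 < n → V u y → V u' (T^[n] y) →
      (α u : ℝ) / D ≤ C * K ^ n := by
    intro y n u u' hn hu hu'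
    obtain ⟨r, hr0, hr, hrel⟩ := affine' y n
    have h1 := hpair n (od n y) y (T^[n] y) r (α u) (α u') (l u) (l u') (v u) (v u') (od_le n y)
      hr0 hr hrel (hT u y hu) (hT u' _ hu')
    set M : ℝ := max 1 (max ((α u : ℝ) / D) ((α u' : ℝ) / D)) with hM
    have hM1 : 1 ≤ M := le_max_left _ _
    have h3 : (α u : ℝ) / D ≤ M := (le_max_left _ _).trans (le_max_right _ _)
    by_cases i1 : Irrational (beta d n (od n y) (l u) (l u'))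
    · have h4 : |(α u' : ℝ) / D - beta d n (od n y) (l u) (l u') * (α u / D)| *
          ((α u : ℝ) / D) ^ 2 ≤ C1 * K1 ^ n := by
        refine (mul_le_mul_of_nonneg_left ?_ (abs_nonneg _)).trans h1
        exact pow_le_pow_left₀ (by positivity) h3 2
      have h5 := hirr n n (od n y) (α u) (α u') (l u) (l u') (C1 * K1 ^ n) le_rfl (od_le n y)
        (hT u _ hu).1 (hT u' _ hu').1 (by positivity) h4 i1
      refine h5.trans ?_
      calc C2 * 26244 ^ n * (C1 * K1 ^ n) ^ 2 = (C2 * C1 ^ 2) * (26244 * K1 ^ 2) ^ n := by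
            rw [mul_pow, mul_pow, ← pow_mul, ← pow_mul, mul_comm n 2]; ring
        _ ≤ C * K ^ n := by gcongr
    · have h4 : |(α u' : ℝ) / D - beta d n (od n y) (l u) (l u') * (α u / D)| * M ≤
          C1 * K1 ^ n := by
        refine (mul_le_mul_of_nonneg_left ?_ (abs_nonneg _)).trans h1
        exact le_self_pow₀ hM1 (by norm_num)
      rcases hrat n (od n y) (α u) (α u') (l u) (l u') (C1 * K1 ^ n) _ (hT u y hu).1
        (hT u' _ hu').1 (by positivity) h4 i1 with h2 | h2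
      · refine (hRR y n u u' hn hu hu' ⟨i1, h2⟩).trans ?_
        gcongr
      · calc (α u : ℝ) / D ≤ C3 * 2 ^ n * (C1 * K1 ^ n) := h3.trans h2
          _ = (C1 * C3) * (2 * K1) ^ n := by rw [mul_pow]; ring
          _ ≤ C * K ^ n := by gcongr
  have hBC : 1 ≤ B * C ^ d := one_le_mul_of_one_le_of_one_le hB (one_le_pow₀ hC0)
  obtain ⟨k, hk⟩ := nat_const hBC (one_le_pow₀ hK0 (n := d))
  refine ⟨k, ?_⟩
  rintro y n hn ⟨u0, hu0⟩ ⟨u1, hu1⟩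
  apply hk n y (by omega)
  have hX : 1 ≤ C * K ^ n := one_le_mul_of_one_le_of_one_le hC0 (one_le_pow₀ hK0)
  have h1 := hsize y (α u0) (l u0) (v u0) (C * K ^ n) (hT u0 _ hu0) hX (key y n u0 u1 hn hu0 hu1)
  calc |(y : ℝ)| ≤ B * (C * K ^ n) ^ d := h1
    _ = (B * C ^ d) * (K ^ d) ^ n := by
        rw [mul_pow, ← pow_mul, ← pow_mul, mul_comm n d]; ring

end Pool.Agent.Run7.h823.PV
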