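import Pool.Agent.Run7.h823.PV4

/-!
# Values of polynomials in the trajectories of the 3x+1 map: the three kinds of polynomials
-/

set_option autoImplicit false
open Finset Polynomial

namespace Pool.Agent.Run7.h823.PV

/-- two terms with the property `P` are far apart -/
def Sparse1 (P : ℤ → Prop) : Prop :=
  ∃ k : ℕ, ∀ (y : ℤ) (n : ℕ), 0 < n → P y → P (T^[n] y) → |y| ≤ (k : ℤ) ^ n

/-- three terms with the property `P` are far apart -/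
def Sparse2 (P : ℤ → Prop) : Prop :=
  ∃ k : ℕ, ∀ (y : ℤ) (m n : ℕ), 0 < m → m < n → P y → P (T^[m] y) → P (T^[n] y) →
    |y| ≤ (k : ℤ) ^ n

theorem Sparse1.two {P : ℤ → Prop} (h : Sparse1 P) : Sparse2 P := by
  obtain ⟨k, hk⟩ := h
  refine ⟨k + 1, fun y m n hm hmn h1 h2 _ => (hk y m hm h1 h2).trans ?_⟩
  push_cast
  calc (k : ℤ) ^ m ≤ ((k : ℤ) + 1) ^ m := pow_le_pow_left₀ (by positivity) (by linarith) m
    _ ≤ ((k : ℤ) + 1) ^ n := pow_le_pow_right₀ (by linarith [Int.natCast_nonneg k]) hmn.le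

/-- a rational ratio of equal bases -/
theorem rat_dvd {d : ℕ} (hd : 1 ≤ d) {n o : ℕ} {l : ℚ} (hl : 0 < l)
    (h : ¬ Irrational (beta d n o l l)) : ∃ n' o' : ℕ, n = d * n' ∧ o = d * o' ∧
      beta d n o l l = 3 ^ o' / 2 ^ n' := by
  have hlR : (0 : ℝ) < l := by exact_mod_cast hl
  obtain ⟨r, hr⟩ : ∃ r : ℚ, (r : ℝ) = beta d n o l l := by
    unfold Irrational at h
    push Not at h
    exact h
  have hpow : (r : ℝ) ^ d = 3 ^ o / 2 ^ n := by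
    rw [hr, beta_pow hd n o hlR hlR, mul_div_mul_right _ _ hlR.ne']
  have hpowq : r ^ d = 3 ^ o / 2 ^ n := by
    have h1 : ((r ^ d : ℚ) : ℝ) = ((3 ^ o / 2 ^ n : ℚ) : ℝ) := by
      push_cast
      exact hpow
    exact_mod_cast h1
  have hr0 : r ≠ 0 := by
    intro h0
    rw [h0, zero_pow (by omega)] at hpowq
    have : (0 : ℚ) < 3 ^ o / 2 ^ n := by positivity
    linarith
  have : Fact (Nat.Prime 2) := ⟨Nat.prime_two⟩
  have : Fact (Nat.Prime 3) := ⟨Nat.prime_three⟩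
  have v22 : padicValRat 2 (2 : ℚ) = 1 := by
    have := padicValRat.self (p := 2) (by norm_num)
    simpa using this
  have v33 : padicValRat 3 (3 : ℚ) = 1 := by
    have := padicValRat.self (p := 3) (by norm_num)
    simpa using this
  have v23 : padicValRat 2 (3 : ℚ) = 0 := by
    have : padicValRat 2 ((3 : ℕ) : ℚ) = 0 := by
      rw [padicValRat.of_nat]
      exact_mod_cast padicValNat.eq_zero_of_not_dvd (by norm_num)
    simpa using this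
  have v32 : padicValRat 3 (2 : ℚ) = 0 := by
    have : padicValRat 3 ((2 : ℕ) : ℚ) = 0 := by
      rw [padicValRat.of_nat]
      exact_mod_cast padicValNat.eq_zero_of_not_dvd (by norm_num)
    simpa using this
  have h2 := congrArg (padicValRat 2) hpowq
  have h3 := congrArg (padicValRat 3) hpowq
  rw [padicValRat.pow, padicValRat.div (by positivity) (by positivity),
    padicValRat.pow, padicValRat.pow, v22, v23] at h2
  rw [padicValRat.pow, padicValRat.div (by positivity) (by positivity),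
    padicValRat.pow, padicValRat.pow, v33, v32] at h3
  simp only [mul_zero, mul_one, zero_sub, sub_zero] at h2 h3
  have hd2 : (d : ℤ) ∣ (n : ℤ) := ⟨-(padicValRat 2 r), by linarith⟩
  have hd3 : (d : ℤ) ∣ (o : ℤ) := ⟨padicValRat 3 r, by linarith⟩
  obtain ⟨n', hn'⟩ := Int.natCast_dvd_natCast.1 hd2
  obtain ⟨o', ho'⟩ := Int.natCast_dvd_natCast.1 hd3
  refine ⟨n', o', hn', ho', ?_⟩
  apply pow_inj hd (beta_pos d n o hlR hlR).le (by positivity)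
  rw [beta_pow hd n o hlR hlR, mul_div_mul_right _ _ hlR.ne', hn', ho', div_pow, ← pow_mul,
    ← pow_mul, mul_comm n' d, mul_comm o' d]

/-- the data of `u - h` -/
theorem base_eq (h : ℚ) (u : ℤ) :
    (((h.den * u - h.num : ℤ).natAbs : ℕ) : ℝ) / (h.den : ℕ) = |(u : ℝ) - h| := by
  have hd : (0 : ℝ) < h.den := by exact_mod_cast h.den_pos
  have h1 : (((h.den * u - h.num : ℤ).natAbs : ℕ) : ℝ) = |((h.den * u - h.num : ℤ) : ℝ)| := by
    rw [Nat.cast_natAbs]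
    push_cast
    rfl
  have h2 : ((h.den * u - h.num : ℤ) : ℝ) = h.den * ((u : ℝ) - h) := by
    push_cast
    have h3 : (h : ℝ) * h.den = h.num := by exact_mod_cast Rat.mul_den_eq_num h
    rw [mul_sub, mul_comm (h.den : ℝ) h, h3]
  rw [h1, h2, abs_mul, abs_of_pos hd, mul_div_cancel_left₀ _ hd.ne']

/-- values of `c (X - h) ^ d + g` which are not near `g` in the sense of the prime two -/
def PureVal (d : ℕ) (c h g : ℚ) (y : ℤ) : Prop :=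
  (∃ u : ℤ, (y : ℚ) = c * (u - h) ^ d + g) ∧ ¬ (2 : ℤ) ^ d ∣ g.den * y - g.num

theorem pure_rat {d : ℕ} (hd : 1 ≤ d) {c h g : ℚ} (hc : c ≠ 0) {y y' : ℤ} {n o : ℕ} {u u' : ℤ}
    (hn : 0 < n) (hu : (y : ℚ) = c * (u - h) ^ d + g) (hu' : (y' : ℚ) = c * (u' - h) ^ d + g)
    (hP : ¬ (2 : ℤ) ^ d ∣ g.den * y - g.num)
    (hr : RatPair d n o |(u : ℝ) - h| |(u' : ℝ) - h| |c| |c|) : False := by
  obtain ⟨h1, h2⟩ := hr
  have hc0 : (0 : ℚ) < |c| := abs_pos.2 hc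
  have hcR : (0 : ℝ) < ((|c| : ℚ) : ℝ) := by exact_mod_cast hc0
  obtain ⟨n', o', hn', ho', hb⟩ := rat_dvd hd hc0 h1
  have hpow := beta_pow' hd n o hcR hcR
  have h3 : |(u' : ℝ) - h| ^ d * (2 ^ n * ((|c| : ℚ) : ℝ)) =
      3 ^ o * ((|c| : ℚ) : ℝ) * |(u : ℝ) - h| ^ d := by
    rw [h2, mul_pow]
    linear_combination (|(u : ℝ) - h| ^ d) * hpow
  have h4 : |(2 : ℝ) ^ n * ((y' : ℝ) - g)| = |(3 : ℝ) ^ o * ((y : ℝ) - g)| := by
    have e1 : (y' : ℝ) - g = c * ((u' : ℝ) - h) ^ d := by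
      have : ((y' : ℚ) : ℝ) = ((c * (u' - h) ^ d + g : ℚ) : ℝ) := by rw [hu']
      push_cast at this
      linarith
    have e2 : (y : ℝ) - g = c * ((u : ℝ) - h) ^ d := by
      have : ((y : ℚ) : ℝ) = ((c * (u - h) ^ d + g : ℚ) : ℝ) := by rw [hu]
      push_cast at this
      linarith
    rw [e1, e2, abs_mul, abs_mul, abs_mul, abs_mul, abs_pow, abs_pow, abs_pow, abs_pow,
      abs_of_pos (by norm_num : (0 : ℝ) < 2), abs_of_pos (by norm_num : (0 : ℝ) < 3)]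
    rw [Rat.cast_abs] at h3
    linear_combination h3
  -- integers
  have h5 : |(2 : ℤ) ^ n * (g.den * y' - g.num)| = |3 ^ o * (g.den * y - g.num)| := by
    have hgd : (0 : ℝ) < g.den := by exact_mod_cast g.den_pos
    have h6 : (g : ℝ) * g.den = g.num := by exact_mod_cast Rat.mul_den_eq_num g
    have h7 : |(2 : ℝ) ^ n * (g.den * y' - g.num)| = |(3 : ℝ) ^ o * ((g.den : ℝ) * y - g.num)| := by
      have e1 : (2 : ℝ) ^ n * (g.den * y' - g.num) = g.den * (2 ^ n * (y' - g)) := by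
        rw [← h6]; ring
      have e2 : (3 : ℝ) ^ o * (g.den * y - g.num) = g.den * (3 ^ o * (y - g)) := by
        rw [← h6]; ring
      rw [e1, e2, abs_mul, abs_mul (g.den : ℝ), h4]
    exact_mod_cast h7
  have h8 : (2 : ℤ) ^ n ∣ 3 ^ o * (g.den * y - g.num) := by
    rw [← dvd_abs, ← h5, dvd_abs]
    exact Dvd.intro _ rfl
  have h9 : (2 : ℤ) ^ n ∣ g.den * y - g.num := by
    refine IsCoprime.dvd_of_dvd_mul_left ?_ h8
    exact IsCoprime.pow (by norm_num)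
  apply hP
  refine dvd_trans (pow_dvd_pow 2 ?_) h9
  have : 1 ≤ n' := by
    by_contra h0
    have : n' = 0 := by omega
    rw [this, mul_zero] at hn'
    omega
  calc d = d * 1 := (mul_one d).symm
    _ ≤ d * n' := Nat.mul_le_mul_left d this
    _ = n := hn'.symm

theorem pure_term {d e : ℕ} {c h g : ℚ} (u y : ℤ)
    (hu : (y : ℚ) = c * (u - h) ^ d + g) :
    Tm d e {|c|} h.den |(g : ℝ)| y (h.den * u - h.num : ℤ).natAbs |c| (c * ((u : ℝ) - h) ^ d) := by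
  refine ⟨by simp, ?_, ?_⟩
  · rw [base_eq, abs_mul, abs_pow]
    push_cast
    rfl
  · have e1 : (y : ℝ) - c * ((u : ℝ) - h) ^ d = g := by
      have : ((y : ℚ) : ℝ) = ((c * (u - h) ^ d + g : ℚ) : ℝ) := by rw [hu]
      push_cast at this
      linarith
    rw [e1]
    exact le_mul_of_one_le_right (abs_nonneg _) (one_le_pow₀ (le_max_left _ _))

theorem pure_two {c h g : ℚ} (hc : c ≠ 0) : Sparse2 (PureVal 2 c h g) := by
  have hc0 : (0 : ℚ) < |c| := abs_pos.2 hc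
  obtain ⟨k, hk⟩ := main3 (d := 2) (e := 0) rfl {|c|}
    (by intro l hl; rw [Finset.mem_singleton] at hl; rw [hl]; exact hc0) (D := h.den)
    h.den_pos (A := |(g : ℝ)|) (abs_nonneg _)
    (fun (u : ℤ) (y : ℤ) => (y : ℚ) = c * (u - h) ^ 2 + g ∧ ¬ (2 : ℤ) ^ 2 ∣ g.den * y - g.num)
    (fun u => (h.den * u - h.num : ℤ).natAbs) (fun _ => |c|) (fun u => c * ((u : ℝ) - h) ^ 2)
    (fun u y hu => pure_term u y hu.1)
    ⟨1, 1, le_rfl, le_rfl, fun y n u u' hn hu hu' hr => by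
      rw [base_eq, base_eq] at hr
      exact (pure_rat (by norm_num) hc hn hu.1 hu'.1 hu.2 hr).elim⟩
  refine ⟨k, fun y m n hm hmn h1 h2 h3 => hk y m n hm hmn ?_ ?_ ?_⟩
  · obtain ⟨⟨u, hu⟩, h⟩ := h1
    exact ⟨u, hu, h⟩
  · obtain ⟨⟨u, hu⟩, h⟩ := h2
    exact ⟨u, hu, h⟩
  · obtain ⟨⟨u, hu⟩, h⟩ := h3
    exact ⟨u, hu, h⟩

theorem pure_three {d : ℕ} (hd : 3 ≤ d) {c h g : ℚ} (hc : c ≠ 0) :
    Sparse1 (PureVal d c h g) := by
  have hc0 : (0 : ℚ) < |c| := abs_pos.2 hc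
  obtain ⟨e, rfl⟩ : ∃ e, d = e + 3 := ⟨d - 3, by omega⟩
  obtain ⟨k, hk⟩ := main2 (d := e + 3) (e := e) rfl {|c|}
    (by intro l hl; rw [Finset.mem_singleton] at hl; rw [hl]; exact hc0) (D := h.den)
    h.den_pos (A := |(g : ℝ)|) (abs_nonneg _)
    (fun (u : ℤ) (y : ℤ) => (y : ℚ) = c * (u - h) ^ (e + 3) + g ∧
      ¬ (2 : ℤ) ^ (e + 3) ∣ g.den * y - g.num)
    (fun u => (h.den * u - h.num : ℤ).natAbs) (fun _ => |c|)
    (fun u => c * ((u : ℝ) - h) ^ (e + 3))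
    (fun u y hu => pure_term u y hu.1)
    ⟨1, 1, le_rfl, le_rfl, fun y n u u' hn hu hu' hr => by
      rw [base_eq, base_eq] at hr
      exact (pure_rat (by omega) hc hn hu.1 hu'.1 hu.2 hr).elim⟩
  refine ⟨k, fun y n hn h1 h2 => hk y n hn ?_ ?_⟩
  · obtain ⟨⟨u, hu⟩, h⟩ := h1
    exact ⟨u, hu, h⟩
  · obtain ⟨⟨u, hu⟩, h⟩ := h2
    exact ⟨u, hu, h⟩

/-- odd numbers `c u ^ d` with `|c| ≤ M` -/
def NearPower (d M : ℕ) (y : ℤ) : Prop := y % 2 = 1 ∧ ∃ c u : ℤ, |c| ≤ M ∧ y = c * u ^ d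

theorem np_rat {d : ℕ} (hd : 1 ≤ d) {y y' c c' u u' : ℤ} {n o : ℕ} (hn : 0 < n)
    (hc : 0 < |c|) (hc' : 0 < |c'|)
    (hu : y = c * u ^ d) (hu' : y' = c' * u' ^ d) (hy : y % 2 = 1)
    (hr : RatPair d n o |(u : ℝ)| |(u' : ℝ)| ((|c| : ℤ) : ℚ) ((|c'| : ℤ) : ℚ)) : False := by
  obtain ⟨-, h2⟩ := hr
  have hcR : (0 : ℝ) < (((|c| : ℤ) : ℚ) : ℝ) := by exact_mod_cast hc
  have hcR' : (0 : ℝ) < (((|c'| : ℤ) : ℚ) : ℝ) := by exact_mod_cast hc'
  have hpow := beta_pow' hd n o hcR hcR'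
  have h3 : |(u' : ℝ)| ^ d * (2 ^ n * (((|c'| : ℤ) : ℚ) : ℝ)) =
      3 ^ o * (((|c| : ℤ) : ℚ) : ℝ) * |(u : ℝ)| ^ d := by
    rw [h2, mul_pow]
    linear_combination (|(u : ℝ)| ^ d) * hpow
  have h4 : (2 : ℝ) ^ n * |(y' : ℝ)| = 3 ^ o * |(y : ℝ)| := by
    rw [hu, hu']
    push_cast at h3 ⊢
    rw [abs_mul, abs_mul, abs_pow, abs_pow]
    linear_combination h3
  have h5 : (2 : ℤ) ^ n * |y'| = 3 ^ o * |y| := by exact_mod_cast h4
  have h6 : (2 : ℤ) ∣ 3 ^ o * |y| := by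
    rw [← h5]
    exact Dvd.dvd.mul_right (dvd_pow_self 2 (by omega)) _
  have h7 : (2 : ℤ) ∣ |y| := by
    refine IsCoprime.dvd_of_dvd_mul_left ?_ h6
    exact IsCoprime.pow_right (by norm_num)
  rw [dvd_abs] at h7
  omega

theorem np_term {d e M : ℕ} {c u y : ℤ} (hy : y % 2 = 1) (hc : |c| ≤ M) (h : y = c * u ^ d) :
    Tm d e ((Icc 1 M).image fun m : ℕ => (m : ℚ)) 1 0 y u.natAbs ((|c| : ℤ) : ℚ) (y : ℝ) := by
  have hc0 : c ≠ 0 := by
    rintro rfl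
    rw [zero_mul] at h
    omega
  refine ⟨?_, ?_, ?_⟩
  · rw [Finset.mem_image]
    refine ⟨c.natAbs, Finset.mem_Icc.2 ⟨Int.natAbs_pos.2 hc0, ?_⟩, ?_⟩
    · have : ((c.natAbs : ℕ) : ℤ) ≤ (M : ℤ) := by rw [Int.natCast_natAbs]; exact hc
      exact_mod_cast this
    · rw [Nat.cast_natAbs]
  · have e1 : ((u.natAbs : ℕ) : ℝ) = |(u : ℝ)| := by rw [Nat.cast_natAbs]; push_cast; rfl
    rw [h, e1]
    push_cast
    rw [abs_mul, abs_pow, div_one]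
  · simp

theorem np_pos {M : ℕ} : ∀ l ∈ (Icc 1 M).image (fun m : ℕ => (m : ℚ)), 0 < l := by
  intro l hl
  obtain ⟨m, hm, rfl⟩ := Finset.mem_image.1 hl
  have := (Finset.mem_Icc.1 hm).1
  exact_mod_cast this

theorem np_base (u : ℤ) : ((u.natAbs : ℕ) : ℝ) / (1 : ℕ) = |(u : ℝ)| := by
  rw [Nat.cast_natAbs]; push_cast; rw [div_one]

theorem np_two (M : ℕ) : Sparse2 (NearPower 2 M) := by
  obtain ⟨k, hk⟩ := main3 (d := 2) (e := 0) rfl ((Icc 1 M).image fun m : ℕ => (m : ℚ)) np_pos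
    (D := 1) le_rfl (A := 0) le_rfl
    (fun (i : ℤ × ℤ × ℤ) (y : ℤ) => i.2.2 = y ∧ y % 2 = 1 ∧ |i.1| ≤ M ∧ y = i.1 * i.2.1 ^ 2)
    (fun i => i.2.1.natAbs) (fun i => ((|i.1| : ℤ) : ℚ)) (fun i => (i.2.2 : ℝ))
    (fun i y hi => by
      obtain ⟨rfl, h2, h3, h4⟩ := hi
      exact np_term h2 h3 h4)
    ⟨1, 1, le_rfl, le_rfl, fun y n i i' hn hi hi' hr => by
      obtain ⟨-, h2, h3, h4⟩ := hi
      obtain ⟨-, h2', h3', h4'⟩ := hi'
      rw [np_base, np_base] at hr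
      have hc : 0 < |i.1| := abs_pos.2 (by rintro h0; rw [h0, zero_mul] at h4; omega)
      have hc' : 0 < |i'.1| := abs_pos.2 (by rintro h0; rw [h0, zero_mul] at h4'; omega)
      exact (np_rat (by norm_num) hn hc hc' h4 h4' h2 hr).elim⟩
  refine ⟨k, fun y m n hm hmn h1 h2 h3 => hk y m n hm hmn ?_ ?_ ?_⟩
  · obtain ⟨h, c, u, hc, hu⟩ := h1
    exact ⟨(c, u, _), rfl, h, hc, hu⟩
  · obtain ⟨h, c, u, hc, hu⟩ := h2
    exact ⟨(c, u, _), rfl, h, hc, hu⟩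
  · obtain ⟨h, c, u, hc, hu⟩ := h3
    exact ⟨(c, u, _), rfl, h, hc, hu⟩

theorem np_three {d : ℕ} (hd : 3 ≤ d) (M : ℕ) : Sparse1 (NearPower d M) := by
  obtain ⟨e, rfl⟩ : ∃ e, d = e + 3 := ⟨d - 3, by omega⟩
  obtain ⟨k, hk⟩ := main2 (d := e + 3) (e := e) rfl ((Icc 1 M).image fun m : ℕ => (m : ℚ)) np_pos
    (D := 1) le_rfl (A := 0) le_rfl
    (fun (i : ℤ × ℤ × ℤ) (y : ℤ) => i.2.2 = y ∧ y % 2 = 1 ∧ |i.1| ≤ M ∧
      y = i.1 * i.2.1 ^ (e + 3))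
    (fun i => i.2.1.natAbs) (fun i => ((|i.1| : ℤ) : ℚ)) (fun i => (i.2.2 : ℝ))
    (fun i y hi => by
      obtain ⟨rfl, h2, h3, h4⟩ := hi
      exact np_term h2 h3 h4)
    ⟨1, 1, le_rfl, le_rfl, fun y n i i' hn hi hi' hr => by
      obtain ⟨-, h2, h3, h4⟩ := hi
      obtain ⟨-, h2', h3', h4'⟩ := hi'
      rw [np_base, np_base] at hr
      have hc : 0 < |i.1| := abs_pos.2 (by rintro h0; rw [h0, zero_mul] at h4; omega)
      have hc' : 0 < |i'.1| := abs_pos.2 (by rintro h0; rw [h0, zero_mul] at h4'; omega)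
      exact (np_rat (by omega) hn hc hc' h4 h4' h2 hr).elim⟩
  refine ⟨k, fun y n hn h1 h2 => hk y n hn ?_ ?_⟩
  · obtain ⟨h, c, u, hc, hu⟩ := h1
    exact ⟨(c, u, _), rfl, h, hc, hu⟩
  · obtain ⟨h, c, u, hc, hu⟩ := h2
    exact ⟨(c, u, _), rfl, h, hc, hu⟩

end Pool.Agent.Run7.h823.PV
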