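import Pool.Agent.Run7.h823.PV5

/-!
# Values of polynomials in the trajectories of the 3x+1 map: general polynomials
-/

set_option autoImplicit false
open Finset Polynomial

namespace Pool.Agent.Run7.h823.PV

theorem cauchy {m : ℕ} {H : ℕ → ℝ} {x B γ : ℝ} (hx : 1 ≤ |x|) (hγ : 0 < γ) (hB0 : 0 ≤ B)
    (hB : ∀ k ≤ m, |H k| ≤ B) (hlow : ∀ k ≤ m, 1 ≤ k → H k ≠ 0 → γ ≤ |H k|)
    (hex : ∃ k, 1 ≤ k ∧ k ≤ m ∧ H k ≠ 0) (hsum : ∑ k ∈ range (m + 1), H k * x ^ k = 0) :
    |x| ≤ m * B / γ := by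
  classical
  set S := (Icc 1 m).filter fun k => H k ≠ 0 with hS
  have hSn : S.Nonempty := by
    obtain ⟨k, h1, h2, h3⟩ := hex
    exact ⟨k, Finset.mem_filter.2 ⟨Finset.mem_Icc.2 ⟨h1, h2⟩, h3⟩⟩
  obtain ⟨K, hK⟩ : ∃ K, K = S.max' hSn := ⟨_, rfl⟩
  have hKS : K ∈ S := hK ▸ S.max'_mem hSn
  obtain ⟨hK1, hK2⟩ := Finset.mem_filter.1 hKS
  obtain ⟨hK3, hK4⟩ := Finset.mem_Icc.1 hK1
  have hz : ∀ k, K < k → k ≤ m → H k = 0 := by
    intro k h1 h2
    by_contra h3
    have h4 : k ∈ S := Finset.mem_filter.2 ⟨Finset.mem_Icc.2 ⟨by omega, h2⟩, h3⟩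
    have h5 := S.le_max' k h4
    rw [← hK] at h5
    omega
  have h1 : ∑ k ∈ range (K + 1), H k * x ^ k = 0 := by
    rw [← hsum]
    refine Finset.sum_subset (Finset.range_subset_range.2 (by omega)) fun k hk hk' => ?_
    rw [Finset.mem_range] at hk hk'
    rw [hz k (by omega) (by omega), zero_mul]
  rw [Finset.sum_range_succ] at h1
  have hx0 : 0 < |x| := by linarith
  obtain ⟨J, hJ⟩ : ∃ J, K = J + 1 := ⟨K - 1, by omega⟩
  have h2 : |H K| * |x| ^ K ≤ K * (B * |x| ^ J) := by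
    have h3 : |H K| * |x| ^ K = |∑ k ∈ range K, H k * x ^ k| := by
      rw [← abs_pow, ← abs_mul]
      have : H K * x ^ K = -∑ k ∈ range K, H k * x ^ k := by linarith
      rw [this, abs_neg]
    rw [h3]
    refine (Finset.abs_sum_le_sum_abs _ _).trans ?_
    have h4 : ∀ k ∈ range K, |H k * x ^ k| ≤ B * |x| ^ J := by
      intro k hk
      rw [Finset.mem_range] at hk
      rw [abs_mul, abs_pow]
      exact mul_le_mul (hB k (by omega)) (pow_le_pow_right₀ hx (by omega)) (by positivity) hB0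
    refine (Finset.sum_le_sum h4).trans ?_
    rw [Finset.sum_const, Finset.card_range, nsmul_eq_mul]
  have h5 : γ * |x| * |x| ^ J ≤ (m * B) * |x| ^ J := by
    calc γ * |x| * |x| ^ J = γ * |x| ^ K := by rw [hJ, pow_succ]; ring
      _ ≤ |H K| * |x| ^ K := by
          have := hlow K hK4 hK3 hK2
          gcongr
      _ ≤ K * (B * |x| ^ J) := h2
      _ ≤ m * (B * |x| ^ J) := by
          have : (K : ℝ) ≤ m := by exact_mod_cast hK4
          gcongr
      _ = _ := by ring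
  have h6 := le_of_mul_le_mul_right h5 (by positivity)
  rw [le_div_iff₀ hγ]
  linarith

/-- the coefficients around the centre -/
theorem centre {f : ℚ[X]} {e : ℕ} (he : f.natDegree = e + 2) : ∃ (h : ℚ) (G : ℕ → ℚ),
    G (e + 2) = f.leadingCoeff ∧ G (e + 1) = 0 ∧
    (∀ u : ℚ, f.eval u = ∑ k ∈ range (e + 3), G k * (u - h) ^ k) ∧
    ((∀ k, 1 ≤ k → k ≤ e → G k = 0) →
      f = C f.leadingCoeff * (X - C h) ^ (e + 2) + C (G 0)) := by
  have hf0 : f ≠ 0 := by
    rintro rfl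
    simp at he
  have hc : f.leadingCoeff ≠ 0 := leadingCoeff_ne_zero.2 hf0
  have hlc : f.coeff (e + 2) = f.leadingCoeff := by rw [leadingCoeff, he]
  set c := f.leadingCoeff with hcdef
  set h : ℚ := -f.coeff (e + 1) / ((e + 2 : ℕ) * c) with hh
  have hG2 : (taylor h f).coeff (e + 2) = c := by
    rw [taylor_coeff]
    have h1 : (hasseDeriv (e + 2) f).natDegree ≤ 0 :=
      (natDegree_hasseDeriv_le f (e + 2)).trans (by omega)
    rw [eq_C_of_natDegree_le_zero h1, eval_C, hasseDeriv_coeff, zero_add, Nat.choose_self, hlc]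
    simp
  have hG1 : (taylor h f).coeff (e + 1) = 0 := by
    rw [taylor_coeff]
    have h1 : (hasseDeriv (e + 1) f).natDegree < 2 :=
      (natDegree_hasseDeriv_le f (e + 1)).trans_lt (by omega)
    rw [eval_eq_sum_range' h1, Finset.sum_range_succ, Finset.sum_range_one, hasseDeriv_coeff,
      hasseDeriv_coeff, zero_add, Nat.choose_self, show 1 + (e + 1) = e + 2 by ring, hlc,
      Nat.choose_succ_self_right, pow_zero, pow_one, hh]
    have h2 : (((e + 2 : ℕ) : ℚ)) ≠ 0 := by positivity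
    push_cast at h2 ⊢
    field_simp
    ring
  refine ⟨h, fun k => (taylor h f).coeff k, hG2, hG1, ?_, ?_⟩
  · intro u
    have h1 : f.eval u = (taylor h f).eval (u - h) := by rw [taylor_eval, sub_add_cancel]
    have h2 : (taylor h f).natDegree < e + 3 := by rw [natDegree_taylor]; omega
    rw [h1, eval_eq_sum_range' h2]
  · intro hz
    have h1 : taylor h f = C c * X ^ (e + 2) + C ((taylor h f).coeff 0) := by
      ext k
      rw [coeff_add, coeff_C_mul, coeff_X_pow, coeff_C]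
      rcases Nat.lt_trichotomy k (e + 2) with hk | hk | hk
      · rw [if_neg (by omega), mul_zero, zero_add]
        rcases Nat.eq_zero_or_pos k with hk0 | hk0
        · rw [if_pos hk0, hk0]
        · rw [if_neg (by omega)]
          rcases Nat.lt_or_ge e k with hk2 | hk2
          · rw [show k = e + 1 by omega]
            exact hG1
          · exact hz k hk0 hk2
      · rw [if_pos hk, if_neg (by omega), hk, hG2]
        ring
      · rw [if_neg (by omega), if_neg (by omega), mul_zero, add_zero]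
        apply coeff_eq_zero_of_natDegree_lt
        rw [natDegree_taylor]
        omega
    have h2 : f = (taylor h f).comp (X - C h) := by
      rw [taylor_apply, comp_assoc]
      simp
    have h3 : (C c * X ^ (e + 2) + C ((taylor h f).coeff 0)).comp (X - C h) =
        C c * (X - C h) ^ (e + 2) + C ((taylor h f).coeff 0) := by simp
    rw [← h3, ← h1]
    exact h2

theorem gen_term {e : ℕ} {c h : ℚ} {G : ℕ → ℚ} (hG2 : G (e + 2) = c) (hG1 : G (e + 1) = 0) (u y : ℤ)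
    (hu : ∑ k ∈ range (e + 3), G k * ((u : ℚ) - h) ^ k = y) :
    Tm (e + 2) e {|c|} h.den (∑ k ∈ range (e + 1), |(G k : ℝ)|) y (h.den * u - h.num : ℤ).natAbs |c|
      (c * ((u : ℝ) - h) ^ (e + 2)) := by
  refine ⟨by simp, ?_, ?_⟩
  · rw [base_eq, abs_mul, abs_pow]
    push_cast
    rfl
  · rw [base_eq]
    have e1 : (y : ℝ) - c * ((u : ℝ) - h) ^ (e + 2) =
        ∑ k ∈ range (e + 1), (G k : ℝ) * ((u : ℝ) - h) ^ k := by
      have h1 : ((y : ℚ) : ℝ) = ((∑ k ∈ range (e + 3), G k * ((u : ℚ) - h) ^ k : ℚ) : ℝ) := by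
        rw [hu]
      rw [Finset.sum_range_succ, Finset.sum_range_succ, hG2, hG1] at h1
      push_cast at h1
      rw [h1]
      ring
    rw [e1, Finset.sum_mul]
    refine (Finset.abs_sum_le_sum_abs _ _).trans (Finset.sum_le_sum fun k hk => ?_)
    rw [Finset.mem_range] at hk
    rw [abs_mul, abs_pow]
    refine mul_le_mul_of_nonneg_left ?_ (abs_nonneg _)
    exact (pow_le_pow_left₀ (abs_nonneg _) (le_max_right _ _) k).trans
      (pow_le_pow_right₀ (le_max_left _ _) (by omega))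

/-- the rational case for general polynomials -/
theorem gen_rat {e : ℕ} {c h : ℚ} (hc : c ≠ 0) {G : ℕ → ℚ}
    (hex : ∃ k, 1 ≤ k ∧ k ≤ e ∧ G k ≠ 0) :
    ∃ C : ℝ, 1 ≤ C ∧ ∀ (y y' r : ℤ) (n o : ℕ) (u u' : ℤ), 0 < n → o ≤ n → 0 ≤ r → r ≤ 6 ^ n →
      2 ^ n * y' = 3 ^ o * y + r →
      ∑ k ∈ range (e + 3), G k * ((u : ℚ) - h) ^ k = y →
      ∑ k ∈ range (e + 3), G k * ((u' : ℚ) - h) ^ k = y' →
      RatPair (e + 2) n o |(u : ℝ) - h| |(u' : ℝ) - h| |c| |c| →
      |(u : ℝ) - h| ≤ C * 6 ^ n := by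
  obtain ⟨γ, hγ, hlow⟩ := fin_min (ι := Fin (e + 3))
    (fun k γ => G k ≠ 0 → γ ≤ |(G k : ℝ)|)
    (fun k => by
      by_cases hk : G k = 0
      · exact ⟨1, one_pos, fun h => absurd hk h⟩
      · exact ⟨|(G k : ℝ)|, abs_pos.2 (by exact_mod_cast hk), fun _ => le_rfl⟩)
    (fun k c c' h1 h2 h3 => h1.trans (h2 h3))
  set Gs : ℝ := ∑ k ∈ range (e + 3), |(G k : ℝ)| with hGs
  have hGs0 : 0 ≤ Gs := Finset.sum_nonneg fun _ _ => abs_nonneg _
  refine ⟨1 + ((e + 2 : ℕ) * (2 * Gs + 1)) / γ, by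
    have : 0 ≤ ((e + 2 : ℕ) * (2 * Gs + 1)) / γ := by positivity
    linarith, ?_⟩
  intro y y' r n o u u' hn hon hr0 hr hrel hy hy' hRP
  obtain ⟨hni, heq⟩ := hRP
  have hc0 : (0 : ℚ) < |c| := abs_pos.2 hc
  obtain ⟨n', o', hn', ho', hb⟩ := rat_dvd (by omega) hc0 hni
  have hn1 : 1 ≤ n' := by
    by_contra h0
    have : n' = 0 := by omega
    rw [this, mul_zero] at hn'
    omega
  rw [hb] at heq
  set U : ℝ := (u : ℝ) - h with hU
  set U' : ℝ := (u' : ℝ) - h with hU'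
  have h6n : (1 : ℝ) ≤ 6 ^ n := one_le_pow₀ (by norm_num)
  rcases lt_or_ge |U| 1 with hU1 | hU1
  · calc |U| ≤ 1 * 1 := by linarith
      _ ≤ _ := by
          refine mul_le_mul ?_ h6n (by norm_num) ?_
          · have : 0 ≤ ((e + 2 : ℕ) * (2 * Gs + 1)) / γ := by positivity
            linarith
          · positivity
  -- the sign
  obtain ⟨ε, hε, hUU⟩ : ∃ ε : ℤ, (ε = 1 ∨ ε = -1) ∧ U' = ε * (3 ^ o' / 2 ^ n' * U) := by
    have h1 : |U'| = |3 ^ o' / 2 ^ n' * U| := by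
      rw [heq, abs_mul, abs_of_pos (by positivity : (0 : ℝ) < 3 ^ o' / 2 ^ n')]
    rcases abs_eq_abs.1 h1 with h2 | h2
    · exact ⟨1, Or.inl rfl, by rw [h2]; push_cast; ring⟩
    · exact ⟨-1, Or.inr rfl, by rw [h2]; push_cast; ring⟩
  have hε1 : ∀ k : ℕ, |(ε : ℝ) ^ k| = 1 := by
    intro k
    rw [abs_pow]
    rcases hε with h | h <;> rw [h] <;> simp
  -- the coefficients
  set z : ℕ → ℤ := fun k => ε ^ k * 2 ^ ((e + 2 - k) * n') * 3 ^ (k * o') - 3 ^ o with hz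
  have hzR : ∀ k ≤ e + 2, (z k : ℝ) = 2 ^ n * (ε * (3 ^ o' / 2 ^ n')) ^ k - 3 ^ o := by
    intro k hk
    rw [hz]
    push_cast
    have e1 : (2 : ℝ) ^ n = 2 ^ ((e + 2 - k) * n') * (2 ^ n') ^ k := by
      rw [hn', ← pow_mul, ← pow_add]
      congr 1
      obtain ⟨j, hj⟩ : ∃ j, e + 2 = k + j := ⟨e + 2 - k, by omega⟩
      rw [hj, Nat.add_sub_cancel_left]
      ring
    rw [e1, mul_pow, div_pow, ← pow_mul 3, mul_comm o' k]
    field_simp
  have hzabs : ∀ k ≤ e + 2, |(z k : ℝ)| ≤ 2 * 6 ^ n := by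
    intro k hk
    rw [hz]
    push_cast
    refine (abs_sub _ _).trans ?_
    rw [abs_mul, abs_mul, hε1, one_mul, abs_of_pos (by positivity : (0 : ℝ) < 2 ^ ((e + 2 - k) * n')),
      abs_of_pos (by positivity : (0 : ℝ) < 3 ^ (k * o')), abs_of_pos (by positivity : (0 : ℝ) < 3 ^ o)]
    have g1 : (2 : ℝ) ^ ((e + 2 - k) * n') ≤ 2 ^ n := by
      refine pow_le_pow_right₀ (by norm_num) ?_
      rw [hn']
      exact Nat.mul_le_mul_right _ (by omega)
    have g2 : (3 : ℝ) ^ (k * o') ≤ 3 ^ n := by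
      refine pow_le_pow_right₀ (by norm_num) ?_
      refine le_trans ?_ hon
      rw [ho']
      exact Nat.mul_le_mul_right _ (by omega)
    have g3 : (3 : ℝ) ^ o ≤ 6 ^ n := (pow_le_pow_right₀ (by norm_num) hon).trans
      (pow_le_pow_left₀ (by norm_num) (by norm_num) n)
    have g4 : (6 : ℝ) ^ n = 2 ^ n * 3 ^ n := by rw [← mul_pow]; norm_num
    calc (2 : ℝ) ^ ((e + 2 - k) * n') * 3 ^ (k * o') + 3 ^ o ≤ 2 ^ n * 3 ^ n + 6 ^ n := by gcongr
      _ = 2 * 6 ^ n := by rw [g4]; ring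
  set H : ℕ → ℝ := fun k => G k * z k - if k = 0 then (r : ℝ) else 0 with hH
  have hrR : (r : ℝ) ≤ 6 ^ n := by exact_mod_cast hr
  have hr0R : (0 : ℝ) ≤ r := by exact_mod_cast hr0
  have hHB : ∀ k ≤ e + 2, |H k| ≤ (2 * Gs + 1) * 6 ^ n := by
    intro k hk
    have g1 : |(G k : ℝ)| ≤ Gs := Finset.single_le_sum (f := fun k => |(G k : ℝ)|)
      (fun _ _ => abs_nonneg _) (Finset.mem_range.2 (by omega))
    have g2 : |if k = 0 then (r : ℝ) else 0| ≤ 6 ^ n := by
      split_ifs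
      · rw [abs_of_nonneg hr0R]; exact hrR
      · rw [abs_zero]; positivity
    rw [hH]
    refine (abs_sub _ _).trans ?_
    rw [abs_mul]
    calc |(G k : ℝ)| * |(z k : ℝ)| + |if k = 0 then (r : ℝ) else 0| ≤ Gs * (2 * 6 ^ n) + 6 ^ n :=
          add_le_add (mul_le_mul g1 (hzabs k hk) (abs_nonneg _) hGs0) g2
      _ = _ := by ring
  have hsum : ∑ k ∈ range (e + 2 + 1), H k * U ^ k = 0 := by
    have hyR : (y : ℝ) = ∑ k ∈ range (e + 3), (G k : ℝ) * U ^ k := by
      have : ((y : ℚ) : ℝ) = ((∑ k ∈ range (e + 3), G k * ((u : ℚ) - h) ^ k : ℚ) : ℝ) := by rw [hy]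
      push_cast at this
      exact this
    have hyR' : (y' : ℝ) = ∑ k ∈ range (e + 3), (G k : ℝ) * U' ^ k := by
      have : ((y' : ℚ) : ℝ) = ((∑ k ∈ range (e + 3), G k * ((u' : ℚ) - h) ^ k : ℚ) : ℝ) := by
        rw [hy']
      push_cast at this
      exact this
    have hrelR : (2 : ℝ) ^ n * y' = 3 ^ o * y + r := by exact_mod_cast hrel
    have h1 : ∀ k ∈ range (e + 2 + 1), H k * U ^ k =
        2 ^ n * ((G k : ℝ) * U' ^ k) - 3 ^ o * ((G k : ℝ) * U ^ k) -
          (if k = 0 then (r : ℝ) else 0) * U ^ k := by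
      intro k hk
      rw [Finset.mem_range] at hk
      rw [hH]
      simp only
      have hUU2 : U' = (ε * (3 ^ o' / 2 ^ n')) * U := by rw [hUU]; ring
      rw [hzR k (by omega), hUU2, mul_pow _ U k]
      ring
    rw [Finset.sum_congr rfl h1, Finset.sum_sub_distrib, Finset.sum_sub_distrib, ← Finset.mul_sum,
      ← Finset.mul_sum, show e + 2 + 1 = e + 3 by ring, ← hyR, ← hyR', hrelR]
    have h2 : ∑ k ∈ range (e + 3), (if k = 0 then (r : ℝ) else 0) * U ^ k = r := by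
      rw [Finset.sum_eq_single 0]
      · simp
      · intro k _ hk
        rw [if_neg hk, zero_mul]
      · intro h0
        exact absurd (Finset.mem_range.2 (by omega)) h0
    rw [h2]
    ring
  have hlowH : ∀ k ≤ e + 2, 1 ≤ k → H k ≠ 0 → γ ≤ |H k| := by
    intro k hk hk1 hne
    rw [hH] at hne ⊢
    simp only [if_neg (by omega : ¬ k = 0), sub_zero] at hne ⊢
    have h1 : G k ≠ 0 := by
      intro h0
      exact hne (by rw [h0]; simp)
    have h2 : z k ≠ 0 := by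
      intro h0
      exact hne (by rw [h0]; simp)
    have h3 : (1 : ℝ) ≤ |(z k : ℝ)| := by exact_mod_cast Int.one_le_abs h2
    rw [abs_mul]
    calc γ = γ * 1 := (mul_one _).symm
      _ ≤ |(G k : ℝ)| * |(z k : ℝ)| :=
          mul_le_mul (hlow ⟨k, by omega⟩ h1) h3 (by norm_num) (abs_nonneg _)
  have hexH : ∃ k, 1 ≤ k ∧ k ≤ e + 2 ∧ H k ≠ 0 := by
    obtain ⟨k, hk1, hke, hk⟩ := hex
    refine ⟨k, hk1, by omega, ?_⟩
    rw [hH]
    simp only [if_neg (by omega : ¬ k = 0), sub_zero]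
    refine mul_ne_zero (by exact_mod_cast hk) ?_
    have h2 : z k ≠ 0 := by
      intro h0
      have h3 : ε ^ k * 2 ^ ((e + 2 - k) * n') * 3 ^ (k * o') = (3 : ℤ) ^ o := by
        rw [hz] at h0
        simp only at h0
        linarith
      have h4 : (2 : ℤ) ∣ 3 ^ o := by
        rw [← h3]
        refine Dvd.dvd.mul_right (Dvd.dvd.mul_left (dvd_pow_self 2 ?_) _) _
        have : 1 ≤ (e + 2 - k) * n' := Nat.one_le_iff_ne_zero.2 (Nat.mul_ne_zero (by omega) (by omega))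
        omega
      have h5 : (2 : ℤ) ∣ 3 := Int.prime_two.dvd_of_dvd_pow h4
      omega
    exact_mod_cast h2
  have hfin := cauchy hU1 hγ (by positivity) hHB hlowH hexH hsum
  calc |U| ≤ ((e + 2 : ℕ) : ℝ) * ((2 * Gs + 1) * 6 ^ n) / γ := hfin
    _ = (((e + 2 : ℕ) * (2 * Gs + 1)) / γ) * 6 ^ n := by ring
    _ ≤ (1 + ((e + 2 : ℕ) * (2 * Gs + 1)) / γ) * 6 ^ n := by
        refine mul_le_mul_of_nonneg_right ?_ (by positivity)
        linarith

/-- **General polynomials.** -/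
theorem general {f : ℚ[X]} (hd : 2 ≤ f.natDegree)
    (hf : ∀ c h g : ℚ, f ≠ C c * (X - C h) ^ f.natDegree + C g) :
    Sparse2 (fun y => ∃ u : ℤ, f.eval (u : ℚ) = y) := by
  obtain ⟨e, he⟩ : ∃ e, f.natDegree = e + 2 := ⟨f.natDegree - 2, by omega⟩
  obtain ⟨h, G, hG2, hG1, hev, hpure⟩ := centre he
  have hf0 : f ≠ 0 := by
    rintro rfl
    simp at hd
  set c := f.leadingCoeff with hcdef
  have hc : c ≠ 0 := leadingCoeff_ne_zero.2 hf0
  have hc0 : (0 : ℚ) < |c| := abs_pos.2 hc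
  have hex : ∃ k, 1 ≤ k ∧ k ≤ e ∧ G k ≠ 0 := by
    by_contra hcon
    push Not at hcon
    have := hpure hcon
    rw [he] at hf
    exact hf _ _ _ this
  obtain ⟨C0, hC0, hrat⟩ := gen_rat (h := h) hc hex
  obtain ⟨k, hk⟩ := main3 (d := e + 2) (e := e) rfl {|c|}
    (by intro l hl; rw [Finset.mem_singleton] at hl; rw [hl]; exact hc0) (D := h.den)
    h.den_pos (A := ∑ k ∈ range (e + 1), |(G k : ℝ)|) (Finset.sum_nonneg fun _ _ => abs_nonneg _)
    (fun (u : ℤ) (y : ℤ) => f.eval (u : ℚ) = y)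
    (fun u => (h.den * u - h.num : ℤ).natAbs) (fun _ => |c|)
    (fun u => c * ((u : ℝ) - h) ^ (e + 2))
    (fun u y hu => gen_term hG2 hG1 u y (by rw [← hev]; exact hu))
    ⟨C0, 6, hC0, by norm_num, fun y n u u' hn hu hu' hr => by
      rw [base_eq, base_eq] at hr
      rw [base_eq]
      obtain ⟨r, hr0, hr6, hrel⟩ := affine' y n
      exact hrat y (T^[n] y) r n (od n y) u u' hn (od_le n y) hr0 hr6 hrel
        (by rw [← hev]; exact hu) (by rw [← hev]; exact hu') hr⟩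
  exact ⟨k, fun y m n hm hmn h1 h2 h3 => hk y m n hm hmn h1 h2 h3⟩

end Pool.Agent.Run7.h823.PV
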