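import Pool.Agent.Run7.h823.PV6

/-!
# Values of polynomials in the trajectories of the 3x+1 map: counting
-/

set_option autoImplicit false
open Finset

namespace Pool.Agent.Run7.h823.PV

/-- counting with forward windows -/
theorem count_fwd {G : Finset ℕ} {N K B : ℕ} (hG : G ⊆ range N)
    (h : ∀ i ∈ G, (G.filter fun j => i ≤ j ∧ j ≤ i + K).card ≤ B) :
    G.card ≤ B * (N / (K + 1) + 1) := by
  classical
  have h1 : ∀ i ∈ G, i / (K + 1) ∈ range (N / (K + 1) + 1) := by
    intro i hi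
    have := Finset.mem_range.1 (hG hi)
    rw [Finset.mem_range]
    exact Nat.lt_succ_of_le (Nat.div_le_div_right this.le)
  rw [Finset.card_eq_sum_card_fiberwise h1]
  refine (Finset.sum_le_card_nsmul _ _ B ?_).trans ?_
  · intro b _
    rcases (G.filter fun j => j / (K + 1) = b).eq_empty_or_nonempty with he | hne
    · rw [he]
      simp
    · obtain ⟨i, hi, hmin⟩ := Finset.exists_min_image _ (fun j => j) hne
      have hiG := (Finset.mem_filter.1 hi).1
      refine (Finset.card_le_card ?_).trans (h i hiG)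
      intro j hj
      have hj' := Finset.mem_filter.1 hj
      have hi' := Finset.mem_filter.1 hi
      refine Finset.mem_filter.2 ⟨hj'.1, hmin j hj, ?_⟩
      have e1 := Nat.div_add_mod i (K + 1)
      have e2 := Nat.div_add_mod j (K + 1)
      have e3 := Nat.mod_lt j (show 0 < K + 1 by omega)
      rw [hi'.2] at e1
      rw [hj'.2] at e2
      omega
  · rw [Finset.card_range, smul_eq_mul, mul_comm]

theorem three_of_card {S : Finset ℕ} (h : 2 < S.card) : ∃ a ∈ S, ∃ b ∈ S, ∃ c ∈ S, a < b ∧ b < c := by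
  have e := S.orderEmbOfFin rfl
  refine ⟨S.orderEmbOfFin rfl ⟨0, by omega⟩, Finset.orderEmbOfFin_mem _ _ _,
    S.orderEmbOfFin rfl ⟨1, by omega⟩, Finset.orderEmbOfFin_mem _ _ _,
    S.orderEmbOfFin rfl ⟨2, h⟩, Finset.orderEmbOfFin_mem _ _ _, ?_, ?_⟩
  · apply (S.orderEmbOfFin rfl).strictMono
    simp [Fin.lt_def]
  · apply (S.orderEmbOfFin rfl).strictMono
    simp [Fin.lt_def]

theorem count_large {P : ℤ → Prop} (h : Sparse2 P) : ∃ C : ℝ, 1 ≤ C ∧ ∀ (x : ℤ) (N K : ℕ), 1 ≤ K →
    ∀ G : Finset ℕ, G ⊆ range N →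
      (∀ i ∈ G, P (T^[i] x) ∧ Real.exp K ≤ |((T^[i] x : ℤ) : ℝ)|) →
      (G.card : ℝ) ≤ C * ((N : ℝ) / K + 1) := by
  obtain ⟨k, hk⟩ := h
  refine ⟨2 * (k + 1), by have : (0 : ℝ) ≤ k := Nat.cast_nonneg k; linarith, ?_⟩
  intro x N K hK G hG hP
  set L := K / (k + 1) with hL
  have hkL : k * L < K ∨ L = 0 := by
    rcases Nat.eq_zero_or_pos L with h0 | h0
    · exact Or.inr h0
    · left
      have h1 : (k + 1) * L ≤ K := Nat.mul_div_le K (k + 1)
      nlinarith
  have h1 : G.card ≤ 2 * (N / (L + 1) + 1) := by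
    apply count_fwd hG
    intro i hi
    by_contra hcon
    push Not at hcon
    obtain ⟨a, ha, b, hb, c, hc, hab, hbc⟩ := three_of_card hcon
    have ha' := Finset.mem_filter.1 ha
    have hb' := Finset.mem_filter.1 hb
    have hc' := Finset.mem_filter.1 hc
    obtain ⟨s, hs⟩ : ∃ s, b = s + a := ⟨b - a, by omega⟩
    obtain ⟨t, ht⟩ : ∃ t, c = t + a := ⟨c - a, by omega⟩
    have hPa := hP a ha'.1
    have hPb := hP b hb'.1
    have hPc := hP c hc'.1
    rw [hs, Function.iterate_add_apply] at hPb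
    rw [ht, Function.iterate_add_apply] at hPc
    have h2 := hk (T^[a] x) s t (by omega) (by omega) hPa.1 hPb.1 hPc.1
    have h3 : t ≤ L := by omega
    have h4 : |((T^[a] x : ℤ) : ℝ)| ≤ (k : ℝ) ^ t := by exact_mod_cast h2
    have hkL' : k * t < K := by
      rcases hkL with h | h
      · exact (Nat.mul_le_mul_left k h3).trans_lt h
      · omega
    have h5 : (k : ℝ) ^ t ≤ Real.exp (k * t : ℕ) := by
      have h6 : (k : ℝ) ≤ Real.exp k := by
        have := Real.add_one_le_exp (k : ℝ)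
        linarith
      calc (k : ℝ) ^ t ≤ (Real.exp k) ^ t := pow_le_pow_left₀ (Nat.cast_nonneg k) h6 t
        _ = Real.exp (k * t : ℕ) := by
            rw [← Real.exp_nat_mul]
            push_cast
            ring_nf
    have h7 : Real.exp (k * t : ℕ) < Real.exp K := Real.exp_lt_exp.2 (by exact_mod_cast hkL')
    linarith [hPa.2]
  have h2 : (K : ℝ) ≤ (k + 1) * (L + 1) := by
    have : K < (k + 1) * (L + 1) := by
      have := Nat.div_add_mod K (k + 1)
      have h3 := Nat.mod_lt K (show 0 < k + 1 by omega)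
      rw [← hL] at this
      nlinarith
    exact_mod_cast this.le
  have hK0 : (0 : ℝ) < K := by exact_mod_cast hK
  have h3 : ((N / (L + 1) : ℕ) : ℝ) ≤ (k + 1) * (N / K) := by
    refine (Nat.cast_div_le).trans ?_
    push_cast
    rw [div_le_iff₀ (by positivity)]
    calc (N : ℝ) = (N / K) * K := by field_simp
      _ ≤ (N / K) * ((k + 1) * (L + 1)) := by gcongr
      _ = _ := by ring
  have h4 : (G.card : ℝ) ≤ 2 * (((N / (L + 1) : ℕ) : ℝ) + 1) := by exact_mod_cast h1
  have hk0 : (0 : ℝ) ≤ k := Nat.cast_nonneg k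
  calc (G.card : ℝ) ≤ 2 * (((N / (L + 1) : ℕ) : ℝ) + 1) := h4
    _ ≤ 2 * ((k + 1) * (N / K) + 1) := by gcongr
    _ ≤ 2 * ((k + 1) * (N / K) + (k + 1) * 1) := by linarith
    _ = _ := by ring

theorem count_all {P : ℤ → Prop} (h : Sparse2 P) : ∃ C : ℝ, 1 ≤ C ∧ ∀ (x : ℤ) (N : ℕ), 2 ≤ N →
    Set.InjOn (fun i => T^[i] x) (Set.Iio N) → ∀ G : Finset ℕ, G ⊆ range N →
      (∀ i ∈ G, P (T^[i] x)) → (G.card : ℝ) ≤ C * (N / Real.log N) := by
  classical
  obtain ⟨C, hC, hl⟩ := count_large h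
  refine ⟨5 * C + 6, by linarith, ?_⟩
  intro x N hN hinj G hG hP
  have hN0 : (0 : ℝ) < N := by positivity
  have hN1 : (1 : ℝ) < N := by exact_mod_cast hN
  have hlog : 0 < Real.log N := Real.log_pos hN1
  rcases lt_or_ge (Real.log N) 4 with h4 | h4
  · have h1 : (G.card : ℝ) ≤ N := by
      have := (Finset.card_le_card hG).trans_eq (Finset.card_range N)
      exact_mod_cast this
    have h2 : (1 : ℝ) ≤ 4 / Real.log N := by rw [le_div_iff₀ hlog]; linarith
    calc (G.card : ℝ) ≤ 1 * N := by linarith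
      _ ≤ (4 / Real.log N) * N := by gcongr
      _ = 4 * (N / Real.log N) := by ring
      _ ≤ _ := by
          refine mul_le_mul_of_nonneg_right (by linarith) (by positivity)
  set K := ⌊Real.log N / 2⌋₊ with hK
  have hK1 : (K : ℝ) ≤ Real.log N / 2 := Nat.floor_le (by positivity)
  have hK2 : Real.log N / 4 ≤ K := by
    have := Nat.lt_floor_add_one (Real.log N / 2)
    rw [← hK] at this
    linarith
  have hKpos : 1 ≤ K := by
    have : (1 : ℝ) ≤ K := by linarith
    exact_mod_cast this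
  set G1 := G.filter fun i => Real.exp K ≤ |((T^[i] x : ℤ) : ℝ)| with hG1
  set G2 := G.filter fun i => ¬ Real.exp K ≤ |((T^[i] x : ℤ) : ℝ)| with hG2
  have hcard : G1.card + G2.card = G.card := Finset.card_filter_add_card_filter_not _
  have c1 : (G1.card : ℝ) ≤ C * ((N : ℝ) / K + 1) := by
    refine hl x N K hKpos G1 ((Finset.filter_subset _ _).trans hG) fun i hi => ?_
    obtain ⟨h1, h2⟩ := Finset.mem_filter.1 hi
    exact ⟨hP i h1, h2⟩
  have hsq : Real.exp K ≤ Real.sqrt N := by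
    rw [Real.sqrt_eq_rpow, Real.rpow_def_of_pos hN0]
    apply Real.exp_le_exp.2
    linarith
  set B := ⌊Real.sqrt N⌋₊ with hB
  have c2 : G2.card ≤ 2 * B + 1 := by
    have h1 : G2.card = (G2.image fun i => T^[i] x).card := by
      rw [Finset.card_image_of_injOn]
      intro i hi j hj hij
      have hi' := Finset.mem_range.1 (hG (Finset.mem_filter.1 hi).1)
      have hj' := Finset.mem_range.1 (hG (Finset.mem_filter.1 hj).1)
      exact hinj hi' hj' hij
    rw [h1]
    have h2 : (G2.image fun i => T^[i] x) ⊆ Icc (-(B : ℤ)) B := by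
      intro y hy
      obtain ⟨i, hi, rfl⟩ := Finset.mem_image.1 hy
      have h3 := (Finset.mem_filter.1 hi).2
      push Not at h3
      have h4 : |((T^[i] x : ℤ) : ℝ)| ≤ Real.sqrt N := h3.le.trans hsq
      have h5 : ((T^[i] x).natAbs : ℝ) ≤ Real.sqrt N := by
        rw [Nat.cast_natAbs]
        push_cast
        exact h4
      have h6 : (T^[i] x).natAbs ≤ B := Nat.le_floor h5
      rw [Finset.mem_Icc]
      omega
    refine (Finset.card_le_card h2).trans ?_
    rw [Int.card_Icc]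
    omega
  have hB1 : (B : ℝ) ≤ Real.sqrt N := Nat.floor_le (Real.sqrt_nonneg _)
  have c2' : (G2.card : ℝ) ≤ 2 * Real.sqrt N + 1 := by
    have : (G2.card : ℝ) ≤ 2 * B + 1 := by exact_mod_cast c2
    linarith
  have hsN : 1 ≤ Real.sqrt N := by
    rw [Real.one_le_sqrt]
    exact hN1.le
  have hss : Real.sqrt N * Real.sqrt N = N := Real.mul_self_sqrt hN0.le
  -- `√N ≤ 2 N / log N`
  have h5 : Real.sqrt N ≤ 2 * (N / Real.log N) := by
    have h6 : Real.log N ≤ 2 * Real.sqrt N := by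
      have h7 := Real.log_le_sub_one_of_pos (by linarith : 0 < Real.sqrt N)
      rw [Real.log_sqrt hN0.le] at h7
      linarith
    rw [← mul_div_assoc, le_div_iff₀ hlog]
    calc Real.sqrt N * Real.log N ≤ Real.sqrt N * (2 * Real.sqrt N) := by gcongr
      _ = 2 * (Real.sqrt N * Real.sqrt N) := by ring
      _ = 2 * N := by rw [hss]
  have h8 : (1 : ℝ) ≤ N / Real.log N := by
    rw [le_div_iff₀ hlog, one_mul]
    have := Real.log_le_sub_one_of_pos hN0
    linarith
  have h9 : (N : ℝ) / K ≤ 4 * (N / Real.log N) := by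
    have hK0 : (0 : ℝ) < K := by linarith
    rw [div_le_iff₀ hK0]
    calc (N : ℝ) = 4 * (N / Real.log N) * (Real.log N / 4) := by field_simp
      _ ≤ 4 * (N / Real.log N) * K := by gcongr
  have h10 : (G.card : ℝ) = G1.card + G2.card := by rw [← hcard]; push_cast; rfl
  rw [h10]
  set R := (N : ℝ) / Real.log N with hR
  have hC0 : 0 ≤ C := by linarith
  have h11 : C * ((N : ℝ) / K + 1) ≤ C * (4 * R + R) := by
    refine mul_le_mul_of_nonneg_left (by linarith) hC0
  calc (G1.card : ℝ) + G2.card ≤ C * (4 * R + R) + (2 * Real.sqrt N + 1) := by linarith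
    _ ≤ C * (4 * R + R) + 3 * Real.sqrt N := by linarith
    _ ≤ C * (4 * R + R) + 3 * (2 * R) := by linarith
    _ = _ := by ring

/-- `Z` is a cycle of `T`. -/
def IsCycle (Z : Finset ℤ) : Prop :=
  ∃ (x : ℤ) (p : ℕ), 1 ≤ p ∧ T^[p] x = x ∧ Z = (Finset.range p).image fun i => T^[i] x

/-- a cycle is parametrized by its minimal period -/
theorem minimal {Z : Finset ℤ} (hZ : IsCycle Z) : ∃ (x : ℤ) (r : ℕ), 0 < r ∧
    Set.InjOn (fun i => T^[i] x) (Set.Iio r) ∧ Z.card = r ∧
    Z = (Finset.range r).image fun i => T^[i] x := by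
  obtain ⟨x, p, hp, hper, rfl⟩ := hZ
  set r := Function.minimalPeriod T x with hr
  have hxp : Function.IsPeriodicPt T p x := hper
  have hr0 : 0 < r := hxp.minimalPeriod_pos hp
  have hinj : Set.InjOn (fun i => T^[i] x) (Set.Iio r) := Function.iterate_injOn_Iio_minimalPeriod
  have hrp : r ≤ p := hxp.minimalPeriod_le hp
  have hZ : ((Finset.range p).image fun i => T^[i] x) = (Finset.range r).image fun i => T^[i] x := by
    ext y
    simp only [Finset.mem_image, Finset.mem_range]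
    constructor
    · rintro ⟨i, _, rfl⟩
      exact ⟨i % r, Nat.mod_lt _ hr0, Function.iterate_mod_minimalPeriod_eq⟩
    · rintro ⟨i, hi, rfl⟩
      exact ⟨i, by omega, rfl⟩
  refine ⟨x, r, hr0, hinj, ?_, hZ⟩
  rw [hZ, Finset.card_image_of_injOn (by rw [Finset.coe_range]; exact hinj), Finset.card_range]

open Classical in
/-- the elements of a cycle and the indices -/
theorem card_image_filter (x : ℤ) (r : ℕ) (P : ℤ → Prop) :
    (((Finset.range r).image fun i => T^[i] x).filter P).card ≤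
      ((range r).filter fun i => P (T^[i] x)).card := by
  refine (Finset.card_le_card ?_).trans
    (Finset.card_image_le (s := (range r).filter fun i => P (T^[i] x)) (f := fun i => T^[i] x))
  intro y hy
  obtain ⟨h1, h2⟩ := Finset.mem_filter.1 hy
  obtain ⟨i, hi, rfl⟩ := Finset.mem_image.1 h1
  exact Finset.mem_image.2 ⟨i, Finset.mem_filter.2 ⟨hi, h2⟩, rfl⟩

open Classical in
/-- all the counting statements -/
theorem rare {P : ℤ → Prop} (h : Sparse2 P) : ∃ C : ℝ, 0 < C ∧
    (∀ (x : ℤ) (N K : ℕ), 1 ≤ K →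
      (((range N).filter fun i => P (T^[i] x) ∧ Real.exp K ≤ |((T^[i] x : ℤ) : ℝ)|).card : ℝ) ≤
        C * ((N : ℝ) / K + 1)) ∧
    (∀ (x : ℤ) (N : ℕ), 2 ≤ N → Set.InjOn (fun i => T^[i] x) (Set.Iio N) →
      (((range N).filter fun i => P (T^[i] x)).card : ℝ) ≤ C * (N / Real.log N)) ∧
    (∀ Z : Finset ℤ, IsCycle Z → 2 ≤ Z.card →
      ((Z.filter fun y => P y).card : ℝ) ≤ C * (Z.card / Real.log Z.card)) := by
  obtain ⟨C, hC, h1⟩ := count_large h
  obtain ⟨C', hC', h2⟩ := count_all h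
  have key : ∀ (x : ℤ) (N : ℕ), 2 ≤ N → Set.InjOn (fun i => T^[i] x) (Set.Iio N) →
      (((range N).filter fun i => P (T^[i] x)).card : ℝ) ≤ (C + C') * (N / Real.log N) := by
    intro x N hN hinj
    refine (h2 x N hN hinj _ (Finset.filter_subset _ _) fun i hi => (Finset.mem_filter.1 hi).2).trans
      (mul_le_mul_of_nonneg_right (by linarith) ?_)
    have : (1 : ℝ) ≤ N := by exact_mod_cast (by omega : 1 ≤ N)
    exact div_nonneg (by linarith) (Real.log_nonneg this)
  refine ⟨C + C', by linarith, ?_, key, ?_⟩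
  · intro x N K hK
    refine (h1 x N K hK _ (Finset.filter_subset _ _) fun i hi => (Finset.mem_filter.1 hi).2).trans
      (mul_le_mul_of_nonneg_right (by linarith) (by positivity))
  · intro Z hZ h2Z
    obtain ⟨x, r, hr, hinj, hcard, hZr⟩ := minimal hZ
    rw [hcard] at h2Z ⊢
    refine le_trans ?_ (key x r h2Z hinj)
    rw [hZr]
    exact_mod_cast card_image_filter x r P

/-- two odd squares in a trajectory two steps apart -/
theorem squares (L : ℕ) : ∃ u v : ℤ, (L : ℤ) < u ∧ u % 2 = 1 ∧ v % 2 = 1 ∧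
    T^[2] (u ^ 2) = v ^ 2 := by
  have key : ∀ L : ℕ, ∃ u v : ℤ, (L : ℤ) < u ∧ 0 < v ∧ u % 2 = 1 ∧ v % 2 = 1 ∧
      4 * v ^ 2 = 3 * u ^ 2 + 1 := by
    intro L
    induction L with
    | zero => exact ⟨1, 1, by norm_num, by norm_num, by norm_num, by norm_num, by norm_num⟩
    | succ L ih =>
      obtain ⟨u, v, h1, h0, h2, h3, h4⟩ := ih
      refine ⟨7 * u + 8 * v, 6 * u + 7 * v, by push_cast; omega, by omega, by omega, by omega,
        by linarith⟩
  obtain ⟨u, v, h1, h0, h2, h3, h4⟩ := key L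
  refine ⟨u, v, h1, h2, h3, ?_⟩
  have hu : u ^ 2 % 2 = 1 := by
    obtain ⟨w, hw⟩ : ∃ w, u = 2 * w + 1 := ⟨u / 2, by omega⟩
    have : u ^ 2 = 2 * (2 * w ^ 2 + 2 * w) + 1 := by rw [hw]; ring
    omega
  have e1 := T_odd hu
  have e2 : T (u ^ 2) = 2 * v ^ 2 := by linarith
  have e3 := T_even (x := 2 * v ^ 2) (by omega)
  have e4 : T^[2] (u ^ 2) = T (T (u ^ 2)) := rfl
  rw [e4, e2]
  linarith

end Pool.Agent.Run7.h823.PV
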