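import Pool.Agent.Run7.h823.PV7

/-!
# Values of polynomials in the trajectories of the 3x+1 map: the centre which is not cyclic
-/

set_option autoImplicit false
open Finset Polynomial

namespace Pool.Agent.Run7.h823.PV

/-- The `3x+D` map. For odd `D` it is the map `T` on the fractions `a / D`. -/
def TD (D a : ℤ) : ℤ := if a % 2 = 0 then a / 2 else (3 * a + D) / 2

/-- the rational number `g` has an odd denominator and is a periodic point of `T` -/
def Cyclic (g : ℚ) : Prop := g.den % 2 = 1 ∧ ∃ n : ℕ, 0 < n ∧ (TD g.den)^[n] g.num = g.num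

theorem TD_even {D a : ℤ} (h : a % 2 = 0) : 2 * TD D a = a := by
  unfold TD
  rw [if_pos h]
  omega

theorem TD_odd {D a : ℤ} (hD : D % 2 = 1) (h : a % 2 = 1) : 2 * TD D a = 3 * a + D := by
  unfold TD
  rw [if_neg (by omega)]
  omega

/-- a number near `a / D` in the sense of the prime two follows its trajectory -/
theorem follow {D : ℤ} (hD : D % 2 = 1) (a y : ℤ) (n : ℕ) (h : (2 : ℤ) ^ n ∣ D * y - a) :
    2 ^ n * (D * T^[n] y - (TD D)^[n] a) = 3 ^ od n y * (D * y - a) ∧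
      ∀ i < n, T^[i] y % 2 = (TD D)^[i] a % 2 := by
  induction n with
  | zero => exact ⟨by simp [od_zero], by omega⟩
  | succ n ih =>
    obtain ⟨h1, h2⟩ := ih (dvd_trans (pow_dvd_pow 2 (Nat.le_succ n)) h)
    set p := T^[n] y with hp
    set q := (TD D)^[n] a with hq
    have h3 : (2 : ℤ) ∣ D * p - q := by
      have h4 : (2 : ℤ) ^ (n + 1) ∣ 2 ^ n * (D * p - q) := by
        rw [h1]
        exact Dvd.dvd.mul_left h _
      rw [pow_succ] at h4
      exact Int.dvd_of_mul_dvd_mul_left (by positivity) h4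
    have h5 : p % 2 = q % 2 := by
      obtain ⟨t, ht⟩ := h3
      obtain ⟨s, hs⟩ : ∃ s, D = 2 * s + 1 := ⟨D / 2, by omega⟩
      have : p = 2 * (t - s * p) + q := by rw [hs] at ht; linarith
      omega
    refine ⟨?_, fun i hi => ?_⟩
    · rw [od_succ, Function.iterate_succ_apply', Function.iterate_succ_apply', ← hp, ← hq]
      rcases Int.emod_two_eq_zero_or_one p with h6 | h6
      · have e1 := T_even h6
        have e2 := TD_even (D := D) (a := q) (by omega)
        rw [if_neg (by omega), add_zero, pow_succ]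
        calc (2 : ℤ) ^ n * 2 * (D * T p - TD D q) = 2 ^ n * (D * (2 * T p) - 2 * TD D q) := by ring
          _ = _ := by rw [e1, e2, h1]
      · have e1 := T_odd h6
        have e2 := TD_odd (D := D) (a := q) hD (by omega)
        rw [if_pos h6, pow_succ, pow_succ]
        calc (2 : ℤ) ^ n * 2 * (D * T p - TD D q) = 2 ^ n * (D * (2 * T p) - 2 * TD D q) := by ring
          _ = 3 * (2 ^ n * (D * p - q)) := by rw [e1, e2]; ring
          _ = _ := by rw [h1]; ring
    · rcases Nat.lt_succ_iff_lt_or_eq.1 hi with h6 | h6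
      · exact h2 i h6
      · rw [h6]; exact h5

theorem TD_size {D : ℤ} (hD0 : 0 ≤ D) (a : ℤ) : |TD D a| ≤ 2 * |a| + D := by
  unfold TD
  split_ifs with h
  · rcases le_or_gt 0 a with ha | ha
    · rw [abs_of_nonneg ha, abs_of_nonneg (by omega)]; omega
    · rw [abs_of_neg ha, abs_of_neg (by omega)]; omega
  · rcases le_or_gt 0 a with ha | ha
    · rw [abs_of_nonneg ha, abs_of_nonneg (by omega)]; omega
    · rw [abs_of_neg ha, abs_le]
      constructor <;> omega

theorem TD_iter {D : ℤ} (hD0 : 0 ≤ D) (a : ℤ) (n : ℕ) :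
    |(TD D)^[n] a| ≤ (|a| + D) * 3 ^ n := by
  induction n with
  | zero => simp [hD0]
  | succ n ih =>
    rw [Function.iterate_succ_apply', pow_succ]
    have h1 := TD_size hD0 ((TD D)^[n] a)
    have h2 : (1 : ℤ) ≤ 3 ^ n := one_le_pow₀ (by norm_num)
    have h3 : D ≤ (|a| + D) * 3 ^ n := by
      have := abs_nonneg a
      nlinarith
    linarith

/-- the equation of the absolute values -/
theorem pure_abs {d : ℕ} (hd : 1 ≤ d) {c h g : ℚ} (hc : c ≠ 0) {y y' : ℤ} {n o : ℕ} {u u' : ℤ}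
    (hu : (y : ℚ) = c * (u - h) ^ d + g) (hu' : (y' : ℚ) = c * (u' - h) ^ d + g)
    (hr : RatPair d n o |(u : ℝ) - h| |(u' : ℝ) - h| |c| |c|) :
    |(2 : ℤ) ^ n * (g.den * y' - g.num)| = |3 ^ o * (g.den * y - g.num)| := by
  obtain ⟨-, h2⟩ := hr
  have hc0 : (0 : ℚ) < |c| := abs_pos.2 hc
  have hcR : (0 : ℝ) < ((|c| : ℚ) : ℝ) := by exact_mod_cast hc0
  have hpow := beta_pow' hd n o hcR hcR
  have h3 : |(u' : ℝ) - h| ^ d * (2 ^ n * ((|c| : ℚ) : ℝ)) =
      3 ^ o * ((|c| : ℚ) : ℝ) * |(u : ℝ) - h| ^ d := by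
    rw [h2, mul_pow]
    linear_combination (|(u : ℝ) - h| ^ d) * hpow
  have h4 : |(2 : ℝ) ^ n * ((y' : ℝ) - g)| = |(3 : ℝ) ^ o * ((y : ℝ) - g)| := by
    have e1 : (y' : ℝ) - g = c * ((u' : ℝ) - h) ^ d := by
      have : ((y' : ℚ) : ℝ) = ((c * (u' - h) ^ d + g : ℚ) : ℝ) := by rw [hu']
      push_cast at this
      linarith
    have e2 : (y : ℝ) - g = c * ((u : ℝ) - h) ^ d := by
      have : ((y : ℚ) : ℝ) = ((c * (u - h) ^ d + g : ℚ) : ℝ) := by rw [hu]
      push_cast at this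
      linarith
    rw [e1, e2, abs_mul, abs_mul, abs_mul, abs_mul, abs_pow, abs_pow, abs_pow, abs_pow,
      abs_of_pos (by norm_num : (0 : ℝ) < 2), abs_of_pos (by norm_num : (0 : ℝ) < 3)]
    rw [Rat.cast_abs] at h3
    linear_combination h3
  have hgd : (0 : ℝ) < g.den := by exact_mod_cast g.den_pos
  have h6 : (g : ℝ) * g.den = g.num := by exact_mod_cast Rat.mul_den_eq_num g
  have h7 : |(2 : ℝ) ^ n * (g.den * y' - g.num)| = |(3 : ℝ) ^ o * ((g.den : ℝ) * y - g.num)| := by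
    have e1 : (2 : ℝ) ^ n * (g.den * y' - g.num) = g.den * (2 ^ n * (y' - g)) := by
      rw [← h6]; ring
    have e2 : (3 : ℝ) ^ o * (g.den * y - g.num) = g.den * (3 ^ o * (y - g)) := by
      rw [← h6]; ring
    rw [e1, e2, abs_mul, abs_mul (g.den : ℝ), h4]
  exact_mod_cast h7

/-- the bound in the rational case for a centre which is not cyclic -/
theorem pure_rat2 {d : ℕ} (hd : 1 ≤ d) {c h g : ℚ} (hc : c ≠ 0) (hg : ¬ Cyclic g) {y : ℤ}
    {n : ℕ} {u u' : ℤ} (hn : 0 < n) (hu : (y : ℚ) = c * (u - h) ^ d + g)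
    (hu' : ((T^[n] y : ℤ) : ℚ) = c * (u' - h) ^ d + g)
    (hr : RatPair d n (od n y) |(u : ℝ) - h| |(u' : ℝ) - h| |c| |c|) :
    |g.den * y - g.num| ≤ (|g.num| + g.den) * 6 ^ n := by
  have h5 := pure_abs hd hc hu hu' hr
  have h9 : (2 : ℤ) ^ n ∣ g.den * y - g.num := by
    have h8 : (2 : ℤ) ^ n ∣ 3 ^ od n y * (g.den * y - g.num) := by
      rw [← dvd_abs, ← h5, dvd_abs]
      exact Dvd.intro _ rfl
    refine IsCoprime.dvd_of_dvd_mul_left ?_ h8
    exact IsCoprime.pow (by norm_num)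
  rcases Nat.mod_two_eq_zero_or_one g.den with hD | hD
  · exfalso
    have h10 : (2 : ℤ) ∣ g.den * y - g.num := dvd_trans (dvd_pow_self 2 (by omega)) h9
    have h11 : (2 : ℤ) ∣ (g.den : ℤ) := by omega
    have h12 : (2 : ℤ) ∣ g.num := by
      have := dvd_sub (Dvd.dvd.mul_right h11 y) h10
      rwa [sub_sub_cancel] at this
    have h13 := g.reduced
    have h14 : 2 ∣ g.num.natAbs := Int.natCast_dvd.1 h12
    have h15 : 2 ∣ g.den := by omega
    have := Nat.dvd_gcd h14 h15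
    rw [Nat.Coprime] at h13
    rw [h13] at this
    omega
  · have hDZ : (g.den : ℤ) % 2 = 1 := by omega
    obtain ⟨h10, -⟩ := follow hDZ g.num y n h9
    set q := (TD g.den)^[n] g.num with hq
    have h2n : (0 : ℤ) < 2 ^ n := by positivity
    rcases abs_eq_abs.1 h5 with h11 | h11
    · exfalso
      rw [← h10] at h11
      have h12 := mul_left_cancel₀ h2n.ne' h11
      exact hg ⟨hD, n, hn, by rw [← hq]; linarith⟩
    · rw [← h10] at h11
      have h12 : (g.den : ℤ) * T^[n] y - g.num = -(g.den * T^[n] y - q) := by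
        apply mul_left_cancel₀ h2n.ne'
        rw [h11]; ring
      have h13 : 2 * (2 ^ n * (g.den * T^[n] y - q)) = 2 ^ n * (g.num - q) := by
        linear_combination (2 : ℤ) ^ n * h12
      rw [h10] at h13
      have h14 : |(3 : ℤ) ^ od n y * (g.den * y - g.num)| * 2 = 2 ^ n * |g.num - q| := by
        have e := congrArg abs h13
        rw [abs_mul (2 : ℤ), abs_mul ((2 : ℤ) ^ n), abs_of_pos h2n,
          abs_of_pos (by norm_num : (0 : ℤ) < 2)] at e
        linarith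
      have h15 : |g.den * y - g.num| ≤ |(3 : ℤ) ^ od n y * (g.den * y - g.num)| := by
        rw [abs_mul]
        refine le_mul_of_one_le_left (abs_nonneg _) ?_
        rw [abs_of_pos (by positivity)]
        exact one_le_pow₀ (by norm_num)
      have h16 : |g.num - q| ≤ |g.num| + |q| := abs_sub _ _
      have h17 := TD_iter (D := g.den) (by positivity) g.num n
      rw [← hq] at h17
      have h18 : |g.num| ≤ (|g.num| + g.den) * 3 ^ n := by
        have h2 : (1 : ℤ) ≤ 3 ^ n := one_le_pow₀ (by norm_num)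
        have h3 := abs_nonneg g.num
        have h4 : (0 : ℤ) < g.den := by exact_mod_cast g.den_pos
        nlinarith
      have h19 : (2 : ℤ) ^ n * |g.num - q| ≤ 2 ^ n * (2 * ((|g.num| + g.den) * 3 ^ n)) :=
        mul_le_mul_of_nonneg_left (by linarith) h2n.le
      have h20 : (2 : ℤ) ^ n * (2 * ((|g.num| + g.den) * 3 ^ n)) =
          2 * ((|g.num| + g.den) * 6 ^ n) := by
        rw [show (6 : ℤ) = 2 * 3 by norm_num, mul_pow]; ring
      linarith

/-- the values of `c (X - h) ^ d + g` at integers -/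
def Val (d : ℕ) (c h g : ℚ) (y : ℤ) : Prop := ∃ u : ℤ, (y : ℚ) = c * (u - h) ^ d + g

theorem base_bound {d : ℕ} (hd : 1 ≤ d) {c h g : ℚ} (hc : c ≠ 0) : ∃ C : ℝ, 1 ≤ C ∧
    ∀ (y u : ℤ) (n : ℕ), (y : ℚ) = c * (u - h) ^ d + g →
      |g.den * y - g.num| ≤ (|g.num| + g.den) * 6 ^ n → |(u : ℝ) - h| ≤ C * 6 ^ n := by
  have hcR : (0 : ℝ) < |(c : ℝ)| := abs_pos.2 (by exact_mod_cast hc)
  have hgd : (0 : ℝ) < g.den := by exact_mod_cast g.den_pos
  set B : ℝ := ((|g.num| : ℤ) + g.den) with hB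
  have hB0 : 0 ≤ B := by rw [hB]; positivity
  refine ⟨1 + B / (g.den * |(c : ℝ)|), by
    have : 0 ≤ B / (g.den * |(c : ℝ)|) := by positivity
    linarith, ?_⟩
  intro y u n hy hb
  have h6 : (g : ℝ) * g.den = g.num := by exact_mod_cast Rat.mul_den_eq_num g
  have e1 : (g.den : ℝ) * y - g.num = g.den * (c * ((u : ℝ) - h) ^ d) := by
    have : ((y : ℚ) : ℝ) = ((c * (u - h) ^ d + g : ℚ) : ℝ) := by rw [hy]
    push_cast at this
    rw [this, ← h6]
    ring
  have h1 : |(g.den : ℝ) * y - g.num| ≤ B * 6 ^ n := by rw [hB]; exact_mod_cast hb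
  rw [e1, abs_mul, abs_mul, abs_pow, abs_of_pos hgd] at h1
  have h2 : |(u : ℝ) - h| ^ d ≤ B / (g.den * |(c : ℝ)|) * 6 ^ n := by
    rw [div_mul_eq_mul_div, le_div_iff₀ (by positivity)]
    linarith
  have h3 : (1 : ℝ) ≤ 6 ^ n := one_le_pow₀ (by norm_num)
  have h4 : |(u : ℝ) - h| ≤ 1 + |(u : ℝ) - h| ^ d := by
    rcases le_or_gt |(u : ℝ) - h| 1 with h5 | h5
    · have : 0 ≤ |(u : ℝ) - h| ^ d := by positivity
      linarith
    · have := le_self_pow₀ h5.le (n := d) (by omega)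
      linarith
  rw [add_mul, one_mul]
  linarith

/-- **Pure polynomials with a centre which is not cyclic, degree two or more.** -/
theorem val_two {d : ℕ} (hd : 2 ≤ d) {c h g : ℚ} (hc : c ≠ 0) (hg : ¬ Cyclic g) :
    Sparse2 (Val d c h g) := by
  have hc0 : (0 : ℚ) < |c| := abs_pos.2 hc
  obtain ⟨e, rfl⟩ : ∃ e, d = e + 2 := ⟨d - 2, by omega⟩
  obtain ⟨C0, hC0, hbb⟩ := base_bound (d := e + 2) (h := h) (g := g) (by omega) hc
  obtain ⟨k, hk⟩ := main3 (d := e + 2) (e := e) rfl {|c|}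
    (by intro l hl; rw [Finset.mem_singleton] at hl; rw [hl]; exact hc0) (D := h.den)
    h.den_pos (A := |(g : ℝ)|) (abs_nonneg _)
    (fun (u : ℤ) (y : ℤ) => (y : ℚ) = c * (u - h) ^ (e + 2) + g)
    (fun u => (h.den * u - h.num : ℤ).natAbs) (fun _ => |c|)
    (fun u => c * ((u : ℝ) - h) ^ (e + 2))
    (fun u y hu => pure_term u y hu)
    ⟨C0, 6, hC0, by norm_num, fun y n u u' hn hu hu' hr => by
      rw [base_eq, base_eq] at hr
      rw [base_eq]
      exact hbb y u n hu (pure_rat2 (by omega) hc hg hn hu hu' hr)⟩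
  exact ⟨k, fun y m n hm hmn h1 h2 h3 => hk y m n hm hmn h1 h2 h3⟩

/-- **Pure polynomials with a centre which is not cyclic, degree three or more.** -/
theorem val_three {d : ℕ} (hd : 3 ≤ d) {c h g : ℚ} (hc : c ≠ 0) (hg : ¬ Cyclic g) :
    Sparse1 (Val d c h g) := by
  have hc0 : (0 : ℚ) < |c| := abs_pos.2 hc
  obtain ⟨e, rfl⟩ : ∃ e, d = e + 3 := ⟨d - 3, by omega⟩
  obtain ⟨C0, hC0, hbb⟩ := base_bound (d := e + 3) (h := h) (g := g) (by omega) hc
  obtain ⟨k, hk⟩ := main2 (d := e + 3) (e := e) rfl {|c|}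
    (by intro l hl; rw [Finset.mem_singleton] at hl; rw [hl]; exact hc0) (D := h.den)
    h.den_pos (A := |(g : ℝ)|) (abs_nonneg _)
    (fun (u : ℤ) (y : ℤ) => (y : ℚ) = c * (u - h) ^ (e + 3) + g)
    (fun u => (h.den * u - h.num : ℤ).natAbs) (fun _ => |c|)
    (fun u => c * ((u : ℝ) - h) ^ (e + 3))
    (fun u y hu => pure_term u y hu)
    ⟨C0, 6, hC0, by norm_num, fun y n u u' hn hu hu' hr => by
      rw [base_eq, base_eq] at hr
      rw [base_eq]
      exact hbb y u n hu (pure_rat2 (by omega) hc hg hn hu hu' hr)⟩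
  exact ⟨k, fun y n hn h1 h2 => hk y n hn h1 h2⟩

/-- **All polynomials.** -/
theorem all_poly {f : ℚ[X]} (hd : 2 ≤ f.natDegree)
    (hf : ∀ c h g : ℚ, Cyclic g → f ≠ C c * (X - C h) ^ f.natDegree + C g) :
    Sparse2 (fun y => ∃ u : ℤ, f.eval (u : ℚ) = y) := by
  by_cases hp : ∀ c h g : ℚ, f ≠ C c * (X - C h) ^ f.natDegree + C g
  · exact general hd hp
  · push Not at hp
    obtain ⟨c, h, g, hp⟩ := hp
    have hg : ¬ Cyclic g := fun hg => hf c h g hg hp
    have hc : c ≠ 0 := by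
      rintro rfl
      rw [C_0, zero_mul, zero_add] at hp
      rw [hp, natDegree_C] at hd
      omega
    obtain ⟨k, hk⟩ := val_two hd (h := h) hc hg
    have key : ∀ y : ℤ, (∃ u : ℤ, f.eval (u : ℚ) = y) → Val f.natDegree c h g y := by
      rintro y ⟨u, hu⟩
      refine ⟨u, ?_⟩
      rw [← hu]
      conv_lhs => rw [hp]
      simp
    exact ⟨k, fun y m n hm hmn h1 h2 h3 => hk y m n hm hmn (key _ h1) (key _ h2) (key _ h3)⟩

end Pool.Agent.Run7.h823.PV
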